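import Mathlib

set_option autoImplicit false

namespace Pool.Agent.L5helper40.NF

open Module

section filt

variable {A S : Type*} [AddCommGroup A] [AddCommGroup S]

/-- the elements of `S` whose image is divisible by `p ^ j` in `O` -/
def U (φ : S →+ A) (O : AddSubgroup A) (p j : ℕ) : AddSubgroup S where
  carrier := {F | ∃ u ∈ O, φ F = p ^ j • u}
  zero_mem' := ⟨0, O.zero_mem, by simp⟩
  add_mem' := by
    rintro F G ⟨u, hu, h1⟩ ⟨v, hv, h2⟩
    exact ⟨u + v, O.add_mem hu hv, by rw [map_add, h1, h2, smul_add]⟩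
  neg_mem' := by
    rintro F ⟨u, hu, h1⟩
    exact ⟨-u, O.neg_mem hu, by rw [map_neg, h1, smul_neg]⟩

lemma mem_U {φ : S →+ A} {O : AddSubgroup A} {p j : ℕ} {F : S} :
    F ∈ U φ O p j ↔ ∃ u ∈ O, φ F = p ^ j • u := Iff.rfl

lemma U_succ_le (φ : S →+ A) (O : AddSubgroup A) (p j : ℕ) : U φ O p (j + 1) ≤ U φ O p j := by
  rintro F ⟨u, hu, h⟩
  refine ⟨p • u, O.nsmul_mem hu p, ?_⟩
  rw [h, pow_succ, mul_smul]

lemma U_le (φ : S →+ A) (O : AddSubgroup A) (p : ℕ) {i j : ℕ} (h : i ≤ j) :
    U φ O p j ≤ U φ O p i := by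
  induction h with
  | refl => exact le_rfl
  | step _ ih => exact (U_succ_le φ O p _).trans ih

lemma smul_mem_U {φ : S →+ A} {O : AddSubgroup A} {p j : ℕ} {F : S} (h : F ∈ U φ O p j) :
    p • F ∈ U φ O p (j + 1) := by
  obtain ⟨u, hu, h⟩ := h
  refine ⟨u, hu, ?_⟩
  rw [map_nsmul, h, pow_succ', mul_smul]

lemma ker_le_U (φ : S →+ A) (O : AddSubgroup A) (p j : ℕ) {F : S} (h : φ F = 0) :
    F ∈ U φ O p j := ⟨0, O.zero_mem, by simp [h]⟩

/-- a torsion free relation all of whose reductions are trivial is trivial -/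
lemma lin_of_mod [Module ℚ A] {ι : Type*} [Fintype ι] (v : ι → A) (p : ℕ) (hp : 1 < p)
    (h : ∀ z : ι → ℤ, ∑ i, z i • v i = 0 → ∀ i, (p : ℤ) ∣ z i) : LinearIndependent ℚ v := by
  rw [← LinearIndependent.iff_fractionRing (R := ℤ) (K := ℚ), Fintype.linearIndependent_iff]
  have key : ∀ n : ℕ, ∀ z : ι → ℤ, ∑ i, z i • v i = 0 → ∀ i, (p : ℤ) ^ n ∣ z i := by
    intro n
    induction n with
    | zero => intro z _ i; simp
    | succ n ih =>
      intro z hz i
      choose y hy using h z hz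
      have h1 : ∑ i, y i • v i = 0 := by
        have h2 : (p : ℤ) • ∑ i, y i • v i = 0 := by
          rw [Finset.smul_sum, ← hz]
          apply Finset.sum_congr rfl
          intro i _
          rw [hy i, mul_smul]
        have h3 : (p : ℚ) • ∑ i, y i • v i = 0 := by
          rw [← h2]
          rw [← Int.cast_smul_eq_zsmul ℚ (p : ℤ)]
          simp
        have hp0 : (p : ℚ) ≠ 0 := by
          have : 0 < p := by omega
          exact_mod_cast this.ne'
        exact (smul_eq_zero.1 h3).resolve_left hp0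
      rw [hy i, pow_succ']
      exact mul_dvd_mul_left _ (ih y h1 i)
  intro z hz i
  by_contra hne
  have h1 := key ((z i).natAbs) z hz i
  have h2 : (p : ℤ) ^ (z i).natAbs ≤ |z i| := by
    have := Int.le_of_dvd (abs_pos.2 hne) ((dvd_abs _ _).2 h1)
    exact this
  have h3 : (z i).natAbs < p ^ (z i).natAbs := Nat.lt_pow_self hp
  have h4 : ((z i).natAbs : ℤ) = |z i| := Int.natCast_natAbs _
  have h5 : ((z i).natAbs : ℤ) < (p : ℤ) ^ (z i).natAbs := by exact_mod_cast h3
  omega

omit [AddCommGroup A] [AddCommGroup S] in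
lemma card_le_of_rank (p : ℕ) [Fact p.Prime] {V : Type*} [AddCommGroup V] [Module (ZMod p) V]
    (n : ℕ) (h : Module.rank (ZMod p) V ≤ n) : Nat.card V ≠ 0 ∧ Nat.card V ≤ p ^ n := by
  have hfin : Module.Finite (ZMod p) V := by
    rw [← Module.rank_lt_aleph0_iff]
    exact h.trans_lt (Cardinal.natCast_lt_aleph0)
  have hcard : Nat.card V = p ^ finrank (ZMod p) V := by
    rw [Module.natCard_eq_pow_finrank (K := ZMod p), Nat.card_zmod]
  have hp : p.Prime := Fact.out
  rw [hcard]
  exact ⟨(pow_pos hp.pos _).ne', Nat.pow_le_pow_right hp.pos (Module.finrank_le_of_rank_le h)⟩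

variable [Module ℚ A] [FiniteDimensional ℚ A]

/-- the `ℚ`-span of the images of a subgroup -/
def WP (φ : S →+ A) (P : AddSubgroup S) : Submodule ℚ A := Submodule.span ℚ (φ '' P)

theorem relIndex_le (φ : S →+ A) (O : AddSubgroup A) (p : ℕ) (hp : p.Prime) (i : ℕ)
    (P : AddSubgroup S) (hP : ∀ F ∈ U φ O p i, ∃ G ∈ P, F - G ∈ U φ O p (i + 1)) :
    (U φ O p (i + 1)).relIndex (U φ O p i) ≠ 0 ∧
      (U φ O p (i + 1)).relIndex (U φ O p i) ≤ p ^ finrank ℚ (WP φ P) := by
  classical
  have : Fact p.Prime := ⟨hp⟩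
  set N : AddSubgroup (U φ O p i) := (U φ O p (i + 1)).addSubgroupOf (U φ O p i) with hN
  have hmem : ∀ F : U φ O p i, F ∈ N ↔ (F : S) ∈ U φ O p (i + 1) := fun F =>
    AddSubgroup.mem_addSubgroupOf
  have htors : ∀ x : (U φ O p i) ⧸ N, p • x = 0 := by
    intro x
    induction x using QuotientAddGroup.induction_on with
    | H F =>
      rw [← QuotientAddGroup.mk_nsmul, QuotientAddGroup.eq_zero_iff, hmem]
      exact smul_mem_U F.2
  let _ : Module (ZMod p) ((U φ O p i) ⧸ N) := AddCommGroup.zmodModule htors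
  have hrank : Module.rank (ZMod p) ((U φ O p i) ⧸ N) ≤ finrank ℚ (WP φ P) := by
    apply rank_le
    intro s hs
    have hex : ∀ x : (U φ O p i) ⧸ N, ∃ G : S, G ∈ P ∧ ∃ hG : G ∈ U φ O p i,
        x = QuotientAddGroup.mk (⟨G, hG⟩ : U φ O p i) := by
      intro x
      induction x using QuotientAddGroup.induction_on with
      | H F =>
        obtain ⟨G, hG, hFG⟩ := hP F.1 F.2
        have hGU : G ∈ U φ O p i := by
          have := (U φ O p i).sub_mem F.2 (U_succ_le _ _ _ _ hFG)
          simpa using this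
        refine ⟨G, hG, hGU, ?_⟩
        rw [eq_comm, QuotientAddGroup.eq, hmem]
        have : ((-(⟨G, hGU⟩ : U φ O p i) + F : U φ O p i) : S) = F.1 - G := by
          push_cast
          abel
        rw [this]
        exact hFG
    choose G hGP hGU hG using hex
    have hli : LinearIndependent ℚ (fun x : s => φ (G x.1)) := by
      apply lin_of_mod _ p hp.one_lt
      intro z hz x
      have h1 : ∑ x : s, z x • G x.1 ∈ U φ O p (i + 1) := by
        apply ker_le_U
        rw [map_sum, ← hz]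
        exact Finset.sum_congr rfl fun x _ => map_zsmul _ _ _
      have h2 : ∑ x : s, ((z x : ℤ) : ZMod p) • (x.1 : (U φ O p i) ⧸ N) = 0 := by
        have h3 : ∑ x : s, ((z x : ℤ) : ZMod p) • (x.1 : (U φ O p i) ⧸ N)
            = QuotientAddGroup.mk (∑ x : s, z x • (⟨G x.1, hGU x.1⟩ : U φ O p i)) := by
          rw [← QuotientAddGroup.mk'_apply, map_sum]
          apply Finset.sum_congr rfl
          intro y _
          rw [Int.cast_smul_eq_zsmul, map_zsmul, QuotientAddGroup.mk'_apply, ← hG y.1]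
        rw [h3, QuotientAddGroup.eq_zero_iff, hmem]
        have : ((∑ x : s, z x • (⟨G x.1, hGU x.1⟩ : U φ O p i) : U φ O p i) : S)
            = ∑ x : s, z x • G x.1 := by
          push_cast
          rfl
        rw [this]
        exact h1
      have h4 := Fintype.linearIndependent_iff.1 hs (fun x => ((z x : ℤ) : ZMod p)) h2 x
      exact (ZMod.intCast_zmod_eq_zero_iff_dvd _ _).1 h4
    have h5 : LinearIndependent ℚ (fun x : s =>
        (⟨φ (G x.1), Submodule.subset_span ⟨G x.1, hGP _, rfl⟩⟩ : WP φ P)) := by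
      apply LinearIndependent.of_comp (WP φ P).subtype
      exact hli
    have h6 := h5.fintype_card_le_finrank
    simpa using h6
  exact card_le_of_rank p _ hrank

theorem index_le (φ : S →+ A) (O : AddSubgroup A) (hO : ∀ F, φ F ∈ O) (p : ℕ) (hp : p.Prime)
    (P : ℕ → AddSubgroup S) (j : ℕ)
    (hP : ∀ i, 1 ≤ i → i ≤ j → ∀ F : S, ∃ G ∈ P i, F - G ∈ U φ O p i) :
    (U φ O p j).index ≠ 0 ∧
      (U φ O p j).index ≤ p ^ (∑ i ∈ Finset.range j, finrank ℚ (WP φ (P (i + 1)))) := by
  induction j with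
  | zero =>
    have : U φ O p 0 = ⊤ := by
      rw [eq_top_iff]
      intro F _
      exact ⟨φ F, hO F, by simp⟩
    rw [this]
    simp
  | succ j ih =>
    obtain ⟨h1, h2⟩ := ih fun i hi hij => hP i hi (by omega)
    obtain ⟨h3, h4⟩ := relIndex_le φ O p hp j (P (j + 1)) (fun F _ => hP (j + 1) (by omega) le_rfl F)
    rw [← AddSubgroup.relIndex_mul_index (U_succ_le φ O p j)]
    refine ⟨mul_ne_zero h3 h1, ?_⟩
    rw [Finset.sum_range_succ, pow_add, mul_comm]
    exact Nat.mul_le_mul h2 h4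

end filt

end Pool.Agent.L5helper40.NF
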