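import Mathlib
import Pool.Agent.L5helper40.NF.A1

set_option autoImplicit false

namespace Pool.Agent.L5helper40.NF

open Module

section pig

variable {A S E : Type*} [AddCommGroup A] [AddCommGroup S] [Module ℚ A] [FiniteDimensional ℚ A]

/-- the subgroup generated by the monomials of weight at most `d` -/
def P (mon : E → S) (wt : E → ℕ) (d : ℕ) : AddSubgroup S :=
  AddSubgroup.closure (mon '' {a | wt a ≤ d})

/-- the Hilbert function -/
noncomputable def hf (φ : S →+ A) (mon : E → S) (wt : E → ℕ) (d : ℕ) : ℕ :=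
  finrank ℚ (WP φ (P mon wt d))

omit [FiniteDimensional ℚ A] in
lemma WP_eq (φ : S →+ A) (mon : E → S) (wt : E → ℕ) (d : ℕ) :
    WP φ (P mon wt d) = Submodule.span ℚ ((fun a => φ (mon a)) '' {a | wt a ≤ d}) := by
  apply le_antisymm
  · rw [WP, Submodule.span_le]
    rintro _ ⟨F, hF, rfl⟩
    have hF' : F ∈ AddSubgroup.closure (mon '' {a | wt a ≤ d}) := hF
    induction hF' using AddSubgroup.closure_induction with
    | mem x hx =>
      obtain ⟨a, ha, rfl⟩ := hx
      exact Submodule.subset_span ⟨a, ha, rfl⟩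
    | zero => rw [map_zero]; exact Submodule.zero_mem _
    | add x y hx hy h1 h2 => rw [map_add]; exact Submodule.add_mem _ (h1 hx) (h2 hy)
    | neg x hx h1 => rw [map_neg]; exact Submodule.neg_mem _ (h1 hx)
  · rw [Submodule.span_le]
    rintro _ ⟨a, ha, rfl⟩
    exact Submodule.subset_span ⟨mon a, AddSubgroup.subset_closure ⟨a, ha, rfl⟩, rfl⟩

lemma hf_mono (φ : S →+ A) (mon : E → S) (wt : E → ℕ) {d e : ℕ} (h : d ≤ e) :
    hf φ mon wt d ≤ hf φ mon wt e := by
  apply Submodule.finrank_mono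
  rw [WP_eq, WP_eq]
  apply Submodule.span_mono
  apply Set.image_mono
  intro a ha
  exact le_trans ha h

omit [FiniteDimensional ℚ A] in
lemma exists_nested (v : E → A) (wt : E → ℕ) :
    ∃ s : ℕ → Set E, ∀ d, s d ⊆ {a | wt a ≤ d} ∧ LinearIndepOn ℚ v (s d) ∧
      v '' {a | wt a ≤ d} ⊆ (Submodule.span ℚ (v '' (s d)) : Submodule ℚ A) ∧ s d ⊆ s (d + 1) := by
  have h0 : ∃ b ⊆ {a | wt a ≤ 0}, (∅ : Set E) ⊆ b ∧
      v '' {a | wt a ≤ 0} ⊆ (Submodule.span ℚ (v '' b) : Submodule ℚ A) ∧ LinearIndepOn ℚ v b :=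
    exists_linearIndepOn_extension (linearIndepOn_empty ℚ v) (Set.empty_subset _)
  obtain ⟨b0, hb1, -, hb2, hb3⟩ := h0
  have hstep : ∀ (d : ℕ) (s : {s : Set E // s ⊆ {a | wt a ≤ d} ∧ LinearIndepOn ℚ v s ∧
      v '' {a | wt a ≤ d} ⊆ (Submodule.span ℚ (v '' s) : Submodule ℚ A)}),
      ∃ t : {s : Set E // s ⊆ {a | wt a ≤ d + 1} ∧ LinearIndepOn ℚ v s ∧
      v '' {a | wt a ≤ d + 1} ⊆ (Submodule.span ℚ (v '' s) : Submodule ℚ A)}, s.1 ⊆ t.1 := by
    rintro d ⟨s, hs1, hs2, hs3⟩
    obtain ⟨b, hb1, hb2, hb3, hb4⟩ := exists_linearIndepOn_extension (t := {a | wt a ≤ d + 1}) hs2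
      (hs1.trans (fun a (ha : wt a ≤ d) => (show wt a ≤ d + 1 by omega)))
    exact ⟨⟨b, hb1, hb4, hb3⟩, hb2⟩
  choose g hg using hstep
  let f : (d : ℕ) → {s : Set E // s ⊆ {a | wt a ≤ d} ∧ LinearIndepOn ℚ v s ∧
      v '' {a | wt a ≤ d} ⊆ (Submodule.span ℚ (v '' s) : Submodule ℚ A)} :=
    fun d => Nat.rec ⟨b0, hb1, hb3, hb2⟩ (fun d s => g d s) d
  refine ⟨fun d => (f d).1, fun d => ⟨(f d).2.1, (f d).2.2.1, (f d).2.2.2, ?_⟩⟩
  exact hg d (f d)

lemma exists_basis (φ : S →+ A) (mon : E → S) (wt : E → ℕ) (d : ℕ) :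
    ∃ T : Finset E, T.card = hf φ mon wt d ∧ LinearIndepOn ℚ (fun a => φ (mon a)) (T : Set E) ∧
      (∀ a ∈ T, wt a ≤ d) ∧
      ∑ a ∈ T, wt a ≤ ∑ e ∈ Finset.range d, (hf φ mon wt d - hf φ mon wt e) := by
  classical
  set v : E → A := fun a => φ (mon a) with hv
  obtain ⟨s, hs⟩ := exists_nested v wt
  have hfin : ∀ e, (s e).Finite := fun e => (hs e).2.1.finite
  have hspan : ∀ e, Submodule.span ℚ (v '' s e) = WP φ (P mon wt e) := by
    intro e
    rw [WP_eq]
    apply le_antisymm
    · exact Submodule.span_mono (Set.image_mono (hs e).1)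
    · rw [Submodule.span_le]
      exact (hs e).2.2.1
  have hcard : ∀ e, (hfin e).toFinset.card = hf φ mon wt e := by
    intro e
    rw [hf, ← hspan e]
    have hli : LinearIndependent ℚ (fun x : s e => v x) := (hs e).2.1
    have : Fintype (s e) := (hfin e).fintype
    have h1 := finrank_span_eq_card hli
    have h2 : Set.range (fun x : s e => v x) = v '' s e := by
      rw [Set.image_eq_range]
    rw [h2] at h1
    rw [h1, Set.Finite.card_toFinset]
  have hmono : ∀ e f, e ≤ f → s e ⊆ s f := by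
    intro e f hef
    induction hef with
    | refl => exact le_rfl
    | step _ ih => exact ih.trans (hs _).2.2.2
  refine ⟨(hfin d).toFinset, hcard d, ?_, ?_, ?_⟩
  · rw [Set.Finite.coe_toFinset]
    exact (hs d).2.1
  · intro a ha
    rw [Set.Finite.mem_toFinset] at ha
    exact (hs d).1 ha
  · have h1 : ∀ e ∈ Finset.range d, hf φ mon wt d - hf φ mon wt e
        = ((hfin d).toFinset.filter (fun a => a ∉ s e)).card := by
      intro e he
      rw [← hcard d, ← hcard e]
      have h2 : (hfin d).toFinset.filter (fun a => a ∉ s e)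
          = (hfin d).toFinset \ (hfin e).toFinset := by
        ext a
        simp
      rw [h2, Finset.card_sdiff_of_subset]
      intro a ha
      rw [Set.Finite.mem_toFinset] at ha ⊢
      exact hmono e d (Finset.mem_range.1 he).le ha
    rw [Finset.sum_congr rfl h1]
    have h3 : ∑ e ∈ Finset.range d, ((hfin d).toFinset.filter (fun a => a ∉ s e)).card
        = ∑ a ∈ (hfin d).toFinset, ((Finset.range d).filter (fun e => a ∉ s e)).card := by
      simp only [Finset.card_filter]
      rw [Finset.sum_comm]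
    rw [h3]
    apply Finset.sum_le_sum
    intro a ha
    rw [Set.Finite.mem_toFinset] at ha
    have hwd : wt a ≤ d := (hs d).1 ha
    calc wt a = (Finset.range (wt a)).card := (Finset.card_range _).symm
      _ ≤ ((Finset.range d).filter (fun e => a ∉ s e)).card := by
        apply Finset.card_le_card
        intro e he
        rw [Finset.mem_range] at he
        rw [Finset.mem_filter, Finset.mem_range]
        refine ⟨by omega, fun hae => ?_⟩
        have : wt a ≤ e := (hs e).1 hae
        omega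

theorem pigeon (φ : S →+ A) (O : AddSubgroup A) (sz : A → ℝ)
    (hadd : ∀ x y, sz (x + y) ≤ sz x + sz y) (hz : ∀ (z : ℤ) x, sz (z • x) = |(z : ℝ)| * sz x)
    (hO1 : ∀ u ∈ O, u ≠ 0 → 1 ≤ sz u) (mon : E → S) (wt : E → ℕ) (R : ℝ) (hR : 1 ≤ R)
    (hmon : ∀ a, sz (φ (mon a)) ≤ R ^ wt a) (p : ℕ) (hp : 0 < p) (d j : ℕ)
    (hidx : (U φ O p j).index ≠ 0) :
    ((p : ℝ) ^ j) ^ (hf φ mon wt d) ≤ ((hf φ mon wt d : ℝ) + 1) ^ (hf φ mon wt d) *
      (U φ O p j).index * R ^ (∑ e ∈ Finset.range d, (hf φ mon wt d - hf φ mon wt e)) := by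
  classical
  obtain ⟨T, hT1, hT2, hT3, hT4⟩ := exists_basis φ mon wt d
  set h := hf φ mon wt d with hh
  have hR0 : 0 < R := by linarith
  have hp0 : (0 : ℝ) < p := by exact_mod_cast hp
  set B : ℝ := (p : ℝ) ^ j / (h + 1) with hB
  have hB0 : 0 < B := by positivity
  have hz0 : sz 0 = 0 := by
    have := hz 0 0
    simpa using this
  have hsum : ∀ (s : Finset T) (f : T → A), sz (∑ a ∈ s, f a) ≤ ∑ a ∈ s, sz (f a) := by
    intro s f
    induction s using Finset.induction_on with
    | empty => simp [hz0]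
    | insert a s ha ih =>
      rw [Finset.sum_insert ha, Finset.sum_insert ha]
      linarith [hadd (f a) (∑ a ∈ s, f a)]
  -- the box
  set b : T → ℕ := fun a => ⌊B / R ^ wt a.1⌋₊ with hb
  set box : Finset (T → ℕ) := Fintype.piFinset (fun a => Finset.range (b a + 1)) with hbox
  have hcard : (box.card : ℝ) = ∏ a : T, ((b a : ℝ) + 1) := by
    rw [hbox, Fintype.card_piFinset]
    push_cast
    simp
  have hlow : B ^ h / R ^ (∑ a ∈ T, wt a) ≤ box.card := by
    rw [hcard]
    calc B ^ h / R ^ (∑ a ∈ T, wt a) = ∏ a : T, (B / R ^ wt a.1) := by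
          rw [Finset.prod_div_distrib, Finset.prod_const, Finset.prod_pow_eq_pow_sum]
          congr 1
          · rw [Finset.card_univ, Fintype.card_coe, hT1]
          · congr 1
            exact (Finset.sum_coe_sort T wt).symm
      _ ≤ ∏ a : T, ((b a : ℝ) + 1) := by
          apply Finset.prod_le_prod
          · intro a _; positivity
          · intro a _
            exact (Nat.lt_floor_add_one _).le
  have hup : box.card ≤ (U φ O p j).index := by
    by_contra hlt
    push Not at hlt
    have := AddSubgroup.fintypeOfIndexNeZero hidx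
    have hc : Fintype.card (S ⧸ U φ O p j) = (U φ O p j).index := by
      rw [AddSubgroup.index, Nat.card_eq_fintype_card]
    obtain ⟨c, hc1, c', hc2, hne, heq⟩ := Finset.exists_ne_map_eq_of_card_lt_of_maps_to
      (s := box) (t := (Finset.univ : Finset (S ⧸ U φ O p j)))
      (f := fun c => QuotientAddGroup.mk (∑ a : T, c a • mon a.1))
      (by rw [Finset.card_univ, hc]; exact hlt) (fun _ _ => Finset.mem_univ _)
    have h1 : (∑ a : T, ((c' a : ℤ) - c a) • mon a.1) ∈ U φ O p j := by
      have h2 := (QuotientAddGroup.eq).1 heq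
      have h3 : -(∑ a : T, c a • mon a.1) + ∑ a : T, c' a • mon a.1
          = ∑ a : T, ((c' a : ℤ) - c a) • mon a.1 := by
        rw [neg_add_eq_sub, ← Finset.sum_sub_distrib]
        apply Finset.sum_congr rfl
        intro a _
        rw [sub_smul, natCast_zsmul, natCast_zsmul]
      rw [← h3]
      exact h2
    obtain ⟨u, hu, hu'⟩ := h1
    rw [map_sum] at hu'
    simp only [map_zsmul] at hu'
    have hne0 : ∑ a : T, ((c' a : ℤ) - c a) • φ (mon a.1) ≠ 0 := by
      intro h0
      apply hne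
      have hli : LinearIndependent ℚ (fun a : T => φ (mon a.1)) := hT2
      have h4 : ∑ a : T, (((c' a : ℤ) - c a : ℤ) : ℚ) • φ (mon a.1) = 0 := by
        rw [← h0]
        apply Finset.sum_congr rfl
        intro a _
        rw [Int.cast_smul_eq_zsmul]
      have h5 := Fintype.linearIndependent_iff.1 hli _ h4
      funext a
      have h6 := h5 a
      have h7 : ((c' a : ℤ) - c a : ℤ) = 0 := by exact_mod_cast h6
      omega
    have hu0 : u ≠ 0 := by
      rintro rfl
      rw [smul_zero] at hu'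
      exact hne0 hu'
    have h8 : (p : ℝ) ^ j ≤ sz (∑ a : T, ((c' a : ℤ) - c a) • φ (mon a.1)) := by
      rw [hu']
      have h9 : p ^ j • u = ((p ^ j : ℕ) : ℤ) • u := (natCast_zsmul _ _).symm
      rw [h9, hz]
      have h10 := hO1 u hu hu0
      have h11 : |(((p ^ j : ℕ) : ℤ) : ℝ)| = (p : ℝ) ^ j := by
        rw [abs_of_nonneg (by positivity)]
        push_cast
        rfl
      rw [h11]
      nlinarith [pow_pos hp0 j]
    have h12 : sz (∑ a : T, ((c' a : ℤ) - c a) • φ (mon a.1)) ≤ h * B := by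
      refine (hsum _ _).trans ?_
      calc ∑ a : T, sz (((c' a : ℤ) - c a) • φ (mon a.1)) ≤ ∑ _a : T, B := by
            apply Finset.sum_le_sum
            intro a _
            rw [hz]
            have hRw : 0 < R ^ wt a.1 := by positivity
            have h13 : |((((c' a : ℤ) - c a : ℤ)) : ℝ)| ≤ B / R ^ wt a.1 := by
              have hfl : (b a : ℝ) ≤ B / R ^ wt a.1 := Nat.floor_le (by positivity)
              have e1 := Finset.mem_range.1 (Fintype.mem_piFinset.1 hc1 a)
              have e2 := Finset.mem_range.1 (Fintype.mem_piFinset.1 hc2 a)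
              have e3 : |((c' a : ℤ) - c a)| ≤ b a := by
                rw [abs_le]; constructor <;> omega
              have e4 : |((((c' a : ℤ) - c a : ℤ)) : ℝ)| ≤ (b a : ℝ) := by
                rw [← Int.cast_abs]
                exact_mod_cast e3
              exact e4.trans hfl
            calc |((((c' a : ℤ) - c a : ℤ)) : ℝ)| * sz (φ (mon a.1))
                ≤ (B / R ^ wt a.1) * R ^ wt a.1 := by
                  have e5 : |((((c' a : ℤ) - c a : ℤ)) : ℝ)| * sz (φ (mon a.1))
                      ≤ |((((c' a : ℤ) - c a : ℤ)) : ℝ)| * R ^ wt a.1 :=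
                    mul_le_mul_of_nonneg_left (hmon a.1) (abs_nonneg _)
                  exact e5.trans (mul_le_mul_of_nonneg_right h13 hRw.le)
              _ = B := by field_simp
        _ = h * B := by
          rw [Finset.sum_const, Finset.card_univ, Fintype.card_coe, hT1, nsmul_eq_mul]
    have h14 : h * B < (p : ℝ) ^ j := by
      rw [hB, mul_div_assoc', div_lt_iff₀ (by positivity)]
      nlinarith [pow_pos hp0 j]
    linarith
  have h15 : B ^ h / R ^ (∑ a ∈ T, wt a) ≤ (U φ O p j).index :=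
    hlow.trans (by exact_mod_cast hup)
  rw [div_le_iff₀ (by positivity)] at h15
  have h16 : R ^ (∑ a ∈ T, wt a) ≤ R ^ (∑ e ∈ Finset.range d, (h - hf φ mon wt e)) :=
    pow_le_pow_right₀ hR hT4
  have h17 : ((p : ℝ) ^ j) ^ h = ((h : ℝ) + 1) ^ h * B ^ h := by
    rw [hB, ← mul_pow]
    congr 1
    field_simp
  rw [h17, mul_assoc]
  apply mul_le_mul_of_nonneg_left _ (by positivity)
  exact h15.trans (mul_le_mul_of_nonneg_left h16 (Nat.cast_nonneg _))

end pig

end Pool.Agent.L5helper40.NF
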