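import Mathlib
import Pool.Agent.L5helper40.NF.A2

set_option autoImplicit false

namespace Pool.Agent.L5helper40.NF

open Module

lemma sum_blocks (f : ℕ → ℕ) (hf : ∀ a b, a ≤ b → f b ≤ f a) (k c j : ℕ) :
    ∑ e ∈ Finset.range (k * j + c), f e ≤ c * f 0 + k * ∑ i ∈ Finset.range j, f (k * i + c) := by
  induction j with
  | zero =>
    simp only [mul_zero, zero_add, Finset.range_zero, Finset.sum_empty, add_zero]
    calc ∑ e ∈ Finset.range c, f e ≤ ∑ _e ∈ Finset.range c, f 0 :=
          Finset.sum_le_sum fun e _ => hf _ _ (Nat.zero_le e)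
      _ = c * f 0 := by simp
  | succ j ih =>
    have h1 : k * (j + 1) + c = (k * j + c) + k := by ring
    rw [h1, Finset.sum_range_add, Finset.sum_range_succ]
    have h2 : ∑ x ∈ Finset.range k, f (k * j + c + x) ≤ k * f (k * j + c) := by
      calc ∑ x ∈ Finset.range k, f (k * j + c + x) ≤ ∑ _x ∈ Finset.range k, f (k * j + c) :=
            Finset.sum_le_sum fun e _ => hf _ _ (Nat.le_add_right _ _)
        _ = k * f (k * j + c) := by simp
    nlinarith

section comb

variable {A S E : Type*} [AddCommGroup A] [AddCommGroup S] [Module ℚ A] [FiniteDimensional ℚ A]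

theorem hilb_bound (φ : S →+ A) (O : AddSubgroup A) (hφO : ∀ F, φ F ∈ O) (sz : A → ℝ)
    (hadd : ∀ x y, sz (x + y) ≤ sz x + sz y) (hz : ∀ (z : ℤ) x, sz (z • x) = |(z : ℝ)| * sz x)
    (hO1 : ∀ u ∈ O, u ≠ 0 → 1 ≤ sz u) (mon : E → S) (wt : E → ℕ) (R : ℝ) (hR : 1 < R)
    (hRN : (finrank ℚ A : ℝ) + 1 ≤ R)
    (hmon : ∀ a, sz (φ (mon a)) ≤ R ^ wt a) (p : ℕ) (hp : p.Prime) (k c q J : ℕ)
    (hpq : R ^ (k * q + 1) ≤ (p : ℝ) ^ q)
    (hP : ∀ i, i < J → ∀ F, ∃ G ∈ P mon wt (k * i + c), F - G ∈ U φ O p (i + 1))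
    (j : ℕ) (hj : j < J) :
    hf φ mon wt (k * j + c) ≤ 2 * hf φ mon wt (k * (2 * q * (1 + c) + 1) + c) := by
  set g : ℕ → ℕ := fun i => hf φ mon wt (k * i + c) with hg
  have hgm : ∀ a b, a ≤ b → g a ≤ g b := fun a b h => hf_mono φ mon wt (by
    have := Nat.mul_le_mul_left k h
    omega)
  have hR0 : 0 < R := by linarith
  have hp1 : (1 : ℝ) ≤ p := by exact_mod_cast hp.one_lt.le
  have hp0 : (0 : ℝ) < p := by linarith
  set H : ℕ := ∑ i ∈ Finset.range j, (g j - g i) with hH
  have key : H ≤ q * (1 + c) * g j := by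
    obtain ⟨h1, h2⟩ := index_le φ O hφO p hp (fun i => P mon wt (k * (i - 1) + c)) (j + 1) (by
      intro i hi hij F
      obtain ⟨G, hG, hFG⟩ := hP (i - 1) (by omega) F
      have : i - 1 + 1 = i := by omega
      rw [this] at hFG
      exact ⟨G, hG, hFG⟩)
    have h2 : (U φ O p (j + 1)).index ≤ p ^ (∑ i ∈ Finset.range (j + 1), g i) := h2
    have h3 := pigeon φ O sz hadd hz hO1 mon wt R hR.le hmon p hp.pos (k * j + c) (j + 1) h1
    have h4 : ∑ e ∈ Finset.range (k * j + c), (g j - hf φ mon wt e) ≤ k * H + c * g j := by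
      have := sum_blocks (fun e => g j - hf φ mon wt e) (fun a b h => by
        have := hf_mono φ mon wt h
        omega) k c j
      refine this.trans ?_
      have h5 : c * (g j - hf φ mon wt 0) ≤ c * g j := Nat.mul_le_mul_left _ (Nat.sub_le _ _)
      have h6 : k * ∑ i ∈ Finset.range j, (g j - hf φ mon wt (k * i + c)) = k * H := rfl
      omega
    have h7 : (j + 1) * g j = H + ∑ i ∈ Finset.range (j + 1), g i := by
      rw [Finset.sum_range_succ, hH, ← add_assoc, ← Finset.sum_add_distrib]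
      have : ∀ i ∈ Finset.range j, g j - g i + g i = g j := by
        intro i hi
        have := hgm i j (Finset.mem_range.1 hi).le
        omega
      rw [Finset.sum_congr rfl this]
      simp
      ring
    have h8 : (p : ℝ) ^ H ≤ R ^ (g j + (k * H + c * g j)) := by
      have h9 : ((p : ℝ) ^ (j + 1)) ^ g j = (p : ℝ) ^ H *
          (p : ℝ) ^ (∑ i ∈ Finset.range (j + 1), g i) := by
        rw [← pow_mul, h7, pow_add]
      have h10 : ((U φ O p (j + 1)).index : ℝ) ≤ (p : ℝ) ^ (∑ i ∈ Finset.range (j + 1), g i) := by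
        exact_mod_cast h2
      have h11 : ((g j : ℝ) + 1) ^ g j ≤ R ^ g j := by
        apply pow_le_pow_left₀ (by positivity)
        refine le_trans ?_ hRN
        have : g j ≤ finrank ℚ A := Submodule.finrank_le _
        have : (g j : ℝ) ≤ finrank ℚ A := by exact_mod_cast this
        linarith
      have h12 : R ^ (∑ e ∈ Finset.range (k * j + c), (g j - hf φ mon wt e))
          ≤ R ^ (k * H + c * g j) := pow_le_pow_right₀ hR.le h4
      have h13 : (p : ℝ) ^ H * (p : ℝ) ^ (∑ i ∈ Finset.range (j + 1), g i)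
          ≤ R ^ (g j + (k * H + c * g j)) * (p : ℝ) ^ (∑ i ∈ Finset.range (j + 1), g i) := by
        rw [← h9]
        refine h3.trans ?_
        calc ((g j : ℝ) + 1) ^ (g j) * (U φ O p (j + 1)).index *
              R ^ (∑ e ∈ Finset.range (k * j + c), (g j - hf φ mon wt e))
            ≤ R ^ g j * (p : ℝ) ^ (∑ i ∈ Finset.range (j + 1), g i) * R ^ (k * H + c * g j) := by
              gcongr
          _ = R ^ (g j + (k * H + c * g j)) * (p : ℝ) ^ (∑ i ∈ Finset.range (j + 1), g i) := by
              rw [pow_add R (g j)]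
              ring
      exact le_of_mul_le_mul_right h13 (by positivity)
    have h14 : R ^ ((k * q + 1) * H) ≤ R ^ (q * (g j + (k * H + c * g j))) := by
      calc R ^ ((k * q + 1) * H) = (R ^ (k * q + 1)) ^ H := pow_mul _ _ _
        _ ≤ ((p : ℝ) ^ q) ^ H := by gcongr
        _ = ((p : ℝ) ^ H) ^ q := by rw [← pow_mul, ← pow_mul, mul_comm]
        _ ≤ (R ^ (g j + (k * H + c * g j))) ^ q := by gcongr
        _ = R ^ (q * (g j + (k * H + c * g j))) := by rw [← pow_mul, mul_comm]
    have h15 := (pow_le_pow_iff_right₀ hR).1 h14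
    have e1 : (k * q + 1) * H = q * (k * H) + H := by ring
    have e2 : q * (g j + (k * H + c * g j)) = q * (k * H) + q * (1 + c) * g j := by ring
    omega
  set i0 : ℕ := 2 * q * (1 + c) + 1 with hi0
  change g j ≤ 2 * g i0
  rcases le_or_gt j i0 with h | h
  · have := hgm j i0 h
    omega
  · have h1 : i0 * (g j - g i0) ≤ H := by
      calc i0 * (g j - g i0) = ∑ _i ∈ Finset.range i0, (g j - g i0) := by simp
        _ ≤ ∑ i ∈ Finset.range i0, (g j - g i) := by
          apply Finset.sum_le_sum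
          intro i hi
          have := hgm i i0 (Finset.mem_range.1 hi).le
          omega
        _ ≤ H := by
          apply Finset.sum_le_sum_of_subset
          intro i hi
          rw [Finset.mem_range] at hi ⊢
          omega
    have h2 := h1.trans key
    have h3 := hgm i0 j h.le
    obtain ⟨δ, hδ⟩ := Nat.exists_eq_add_of_le h3
    have h4 : g j - g i0 = δ := by omega
    rw [h4, hδ] at h2
    rw [hδ]
    set m := q * (1 + c) with hm
    have h5 : i0 = 2 * m + 1 := by rw [hi0, hm]; ring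
    rw [h5] at h2
    nlinarith

end comb

end Pool.Agent.L5helper40.NF
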