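import Mathlib

set_option autoImplicit false

namespace Pool.Agent.L5helper40.NF

open MvPolynomial

section wd

variable {κ σ : Type*} [CommRing κ]

/-- polynomials of weighted degree at most `D` -/
noncomputable def Wd (κ : Type*) {σ : Type*} [CommRing κ] (w : σ → ℕ) (D : ℕ) : Submodule κ (MvPolynomial σ κ) :=
  restrictSupport κ {m | Finsupp.weight w m ≤ D}

lemma mem_Wd {w : σ → ℕ} {D : ℕ} {F : MvPolynomial σ κ} :
    F ∈ Wd κ w D ↔ ∀ m ∈ F.support, Finsupp.weight w m ≤ D := by
  rw [Wd, mem_restrictSupport_iff]
  rfl

lemma Wd_mono {w : σ → ℕ} {D E : ℕ} (h : D ≤ E) {F : MvPolynomial σ κ} (hF : F ∈ Wd κ w D) :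
    F ∈ Wd κ w E := by
  rw [mem_Wd] at hF ⊢
  exact fun m hm => (hF m hm).trans h

lemma Wd_mul {w : σ → ℕ} {D E : ℕ} {F G : MvPolynomial σ κ} (hF : F ∈ Wd κ w D)
    (hG : G ∈ Wd κ w E) : F * G ∈ Wd κ w (D + E) := by
  classical
  rw [mem_Wd] at hF hG ⊢
  intro m hm
  obtain ⟨a, ha, b, hb, rfl⟩ := Finset.mem_add.1 (support_mul _ _ hm)
  rw [map_add]
  exact Nat.add_le_add (hF a ha) (hG b hb)

lemma monomial_mem_Wd {w : σ → ℕ} {D : ℕ} (m : σ →₀ ℕ) (a : κ) (h : Finsupp.weight w m ≤ D) :
    monomial m a ∈ Wd κ w D := by
  rw [mem_Wd]
  intro b hb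
  have := support_monomial_subset hb
  rw [Finset.mem_singleton] at this
  rw [this]
  exact h

/-- division by polynomials in one variable each -/
theorem grid_red [Fintype σ] [Nontrivial κ] (w dd : σ → ℕ) (k : ℕ) (hk : ∀ l, w l * dd l ≤ k)
    (f : σ → Polynomial κ) (hf : ∀ l, (f l).Monic) (hd : ∀ l, (f l).natDegree = dd l) (i : ℕ)
    (F : MvPolynomial σ κ) :
    ∃ G ∈ Wd κ w (k * i + ∑ l, w l * (dd l - 1)),
      F - G ∈ (Ideal.span (Set.range fun l => Polynomial.aeval (X l : MvPolynomial σ κ) (f l)))
        ^ (i + 1) := by
  classical
  set c := ∑ l, w l * (dd l - 1) with hc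
  set I : Ideal (MvPolynomial σ κ) :=
    Ideal.span (Set.range fun l => Polynomial.aeval (X l : MvPolynomial σ κ) (f l)) with hI
  have hfI : ∀ l, Polynomial.aeval (X l : MvPolynomial σ κ) (f l) ∈ I := fun l =>
    Ideal.subset_span ⟨l, rfl⟩
  have hfW : ∀ l, Polynomial.aeval (X l : MvPolynomial σ κ) (f l) ∈ Wd κ w k := by
    intro l
    rw [Polynomial.aeval_eq_sum_range]
    refine Submodule.sum_mem _ fun e he => Submodule.smul_mem _ _ ?_
    rw [Finset.mem_range, hd] at he
    have h1 : (X l : MvPolynomial σ κ) ^ e = monomial (Finsupp.single l e) 1 := by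
      rw [X_pow_eq_monomial]
    rw [h1]
    apply monomial_mem_Wd
    rw [Finsupp.weight_single, smul_eq_mul]
    calc e * w l ≤ dd l * w l := Nat.mul_le_mul_right _ (by omega)
      _ = w l * dd l := mul_comm _ _
      _ ≤ k := hk l
  induction i generalizing F with
  | zero =>
    -- the submodule of good polynomials
    let V : Submodule κ (MvPolynomial σ κ) := Wd κ w (k * 0 + c) ⊔ (I ^ (0 + 1)).restrictScalars κ
    have hmon : ∀ N : ℕ, ∀ m : σ →₀ ℕ, m.degree = N → monomial m (1 : κ) ∈ V := by
      intro N
      induction N using Nat.strong_induction_on with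
      | _ N ih =>
        intro m hm
        by_cases hex : ∃ l, dd l ≤ m l
        · obtain ⟨l, hl⟩ := hex
          set m' : σ →₀ ℕ := m - Finsupp.single l (dd l) with hm'
          have hmm : m = m' + Finsupp.single l (dd l) := by
            rw [hm', tsub_add_cancel_of_le]
            rwa [Finsupp.single_le_iff]
          have hdeg : m'.degree + dd l = N := by
            rw [← hm, hmm, map_add, Finsupp.degree_single]
          have h1 : monomial m (1 : κ) = monomial m' 1 * Polynomial.aeval (X l) (f l)
              + ∑ e ∈ Finset.range (dd l), (-(f l).coeff e) •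
                monomial (m' + Finsupp.single l e) (1 : κ) := by
            rw [Polynomial.aeval_eq_sum_range, hd, Finset.sum_range_succ, mul_add,
              Finset.mul_sum]
            have h2 : (f l).coeff (dd l) = 1 := by
              rw [← hd l]
              exact hf l
            rw [h2, one_smul, X_pow_eq_monomial, monomial_mul, one_mul, ← hmm, add_right_comm,
              ← Finset.sum_add_distrib]
            rw [Finset.sum_eq_zero, zero_add]
            intro e _
            rw [X_pow_eq_monomial, mul_smul_comm, monomial_mul, one_mul, neg_smul, add_neg_cancel]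
          rw [h1]
          refine Submodule.add_mem _ ?_ (Submodule.sum_mem _ fun e he => Submodule.smul_mem _ _ ?_)
          · refine Submodule.mem_sup_right ?_
            change _ ∈ I ^ (0 + 1)
            rw [zero_add, pow_one]
            exact Ideal.mul_mem_left _ _ (hfI l)
          · rw [Finset.mem_range] at he
            apply ih (m' + Finsupp.single l e).degree _ _ rfl
            rw [map_add, Finsupp.degree_single]
            omega
        · push Not at hex
          refine Submodule.mem_sup_left (monomial_mem_Wd _ _ ?_)
          rw [Finsupp.weight_eq_sum, mul_zero, zero_add, hc]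
          apply Finset.sum_le_sum
          intro l _
          rw [smul_eq_mul, mul_comm]
          apply Nat.mul_le_mul_left
          have := hex l
          omega
    have hF : F ∈ V := by
      rw [F.as_sum]
      refine Submodule.sum_mem _ fun m _ => ?_
      have : (monomial m) (coeff m F) = coeff m F • (monomial m (1 : κ)) := by
        rw [smul_monomial, smul_eq_mul, mul_one]
      rw [this]
      exact Submodule.smul_mem _ _ (hmon _ m rfl)
    obtain ⟨G, hG, H, hH, hGH⟩ := Submodule.mem_sup.1 hF
    refine ⟨G, hG, ?_⟩
    rw [← hGH, add_sub_cancel_left]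
    exact hH
  | succ i ihi =>
    let V : Submodule κ (MvPolynomial σ κ) :=
      Wd κ w (k * (i + 1) + c) ⊔ (I ^ (i + 1 + 1)).restrictScalars κ
    have hmon : ∀ N : ℕ, ∀ m : σ →₀ ℕ, m.degree = N → monomial m (1 : κ) ∈ V := by
      intro N
      induction N using Nat.strong_induction_on with
      | _ N ih =>
        intro m hm
        by_cases hex : ∃ l, dd l ≤ m l
        · obtain ⟨l, hl⟩ := hex
          set m' : σ →₀ ℕ := m - Finsupp.single l (dd l) with hm'
          have hmm : m = m' + Finsupp.single l (dd l) := by
            rw [hm', tsub_add_cancel_of_le]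
            rwa [Finsupp.single_le_iff]
          have hdeg : m'.degree + dd l = N := by
            rw [← hm, hmm, map_add, Finsupp.degree_single]
          have h1 : monomial m (1 : κ) = monomial m' 1 * Polynomial.aeval (X l) (f l)
              + ∑ e ∈ Finset.range (dd l), (-(f l).coeff e) •
                monomial (m' + Finsupp.single l e) (1 : κ) := by
            rw [Polynomial.aeval_eq_sum_range, hd, Finset.sum_range_succ, mul_add,
              Finset.mul_sum]
            have h2 : (f l).coeff (dd l) = 1 := by
              rw [← hd l]
              exact hf l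
            rw [h2, one_smul, X_pow_eq_monomial, monomial_mul, one_mul, ← hmm, add_right_comm,
              ← Finset.sum_add_distrib]
            rw [Finset.sum_eq_zero, zero_add]
            intro e _
            rw [X_pow_eq_monomial, mul_smul_comm, monomial_mul, one_mul, neg_smul, add_neg_cancel]
          rw [h1]
          refine Submodule.add_mem _ ?_ (Submodule.sum_mem _ fun e he => Submodule.smul_mem _ _ ?_)
          · obtain ⟨G, hG, hFG⟩ := ihi (monomial m' 1)
            have h2 : monomial m' 1 * Polynomial.aeval (X l : MvPolynomial σ κ) (f l)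
                = G * Polynomial.aeval (X l) (f l)
                  + (monomial m' 1 - G) * Polynomial.aeval (X l) (f l) := by ring
            rw [h2]
            refine Submodule.add_mem _ (Submodule.mem_sup_left ?_) (Submodule.mem_sup_right ?_)
            · have := Wd_mul hG (hfW l)
              exact Wd_mono (by rw [mul_add, mul_one]; omega) this
            · change _ ∈ I ^ (i + 1 + 1)
              rw [pow_succ]
              exact Ideal.mul_mem_mul hFG (hfI l)
          · rw [Finset.mem_range] at he
            apply ih (m' + Finsupp.single l e).degree _ _ rfl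
            rw [map_add, Finsupp.degree_single]
            omega
        · push Not at hex
          refine Submodule.mem_sup_left (monomial_mem_Wd _ _ ?_)
          rw [Finsupp.weight_eq_sum, hc]
          refine le_trans ?_ (Nat.le_add_left _ _)
          apply Finset.sum_le_sum
          intro l _
          rw [smul_eq_mul, mul_comm]
          apply Nat.mul_le_mul_left
          have := hex l
          omega
    have hF : F ∈ V := by
      rw [F.as_sum]
      refine Submodule.sum_mem _ fun m _ => ?_
      have : (monomial m) (coeff m F) = coeff m F • (monomial m (1 : κ)) := by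
        rw [smul_monomial, smul_eq_mul, mul_one]
      rw [this]
      exact Submodule.smul_mem _ _ (hmon _ m rfl)
    obtain ⟨G, hG, H, hH, hGH⟩ := Submodule.mem_sup.1 hF
    refine ⟨G, hG, ?_⟩
    rw [← hGH, add_sub_cancel_left]
    exact hH

end wd

end Pool.Agent.L5helper40.NF
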