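import Mathlib
import Pool.Agent.L5helper40.NF.B1
import Pool.Agent.W301.LinF

set_option autoImplicit false

namespace Pool.Agent.L5helper40.NF

open MvPolynomial Pool.Agent.W301.Lin

section jets

variable {κ σ : Type*} [Field κ]

/-- translation of the variables -/
noncomputable def tr (z : σ → κ) : MvPolynomial σ κ →ₐ[κ] MvPolynomial σ κ :=
  aeval (fun l => X l + C (z l))

lemma tr_tr (z z' : σ → κ) (F : MvPolynomial σ κ) : tr z (tr z' F) = tr (z + z') F := by
  have : (tr z).comp (tr z') = tr (z + z') := by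
    apply MvPolynomial.algHom_ext
    intro l
    simp only [tr, AlgHom.comp_apply, aeval_X, map_add, Pi.add_apply]
    have : (aeval fun l => X l + C (z l)) (C (z' l)) = (C (z' l) : MvPolynomial σ κ) := by
      rw [aeval_C]; rfl
    rw [this, add_assoc]
  exact DFunLike.congr_fun this F

lemma tr_zero (F : MvPolynomial σ κ) : tr (0 : σ → κ) F = F := by
  have : tr (0 : σ → κ) = AlgHom.id κ _ := by
    apply MvPolynomial.algHom_ext
    intro l
    simp [tr]
  rw [this]
  rfl

/-- translation as an equivalence -/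
noncomputable def trE (z : σ → κ) : MvPolynomial σ κ ≃+* MvPolynomial σ κ where
  toFun := tr z
  invFun := tr (-z)
  left_inv F := by rw [tr_tr, neg_add_cancel, tr_zero]
  right_inv F := by rw [tr_tr, add_neg_cancel, tr_zero]
  map_mul' := map_mul _
  map_add' := map_add _

/-- the ideal of a point -/
noncomputable def mI (z : σ → κ) : Ideal (MvPolynomial σ κ) := (idealOfVars σ κ).comap (trE z)

lemma mem_mI_pow (z : σ → κ) (j : ℕ) (F : MvPolynomial σ κ) :
    F ∈ mI z ^ j ↔ ∀ c : σ →₀ ℕ, c.degree < j → coeff c (tr z F) = 0 := by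
  rw [← mem_pow_idealOfVars_iff']
  have h1 : mI z ^ j = ((idealOfVars σ κ) ^ j).comap (trE z) := by
    rw [mI]
    have h2 : ∀ I : Ideal (MvPolynomial σ κ), I.comap (trE z) = I.map (trE z).symm := by
      intro I
      rw [← Ideal.comap_symm, RingEquiv.symm_symm]
    rw [h2, h2, Ideal.map_pow]
  rw [h1, Ideal.mem_comap]
  rfl

lemma mem_mI (z : σ → κ) (F : MvPolynomial σ κ) : F ∈ mI z ↔ eval z F = 0 := by
  have h1 := mem_mI_pow z 1 F
  rw [pow_one] at h1
  rw [h1]
  have h2 : eval z F = coeff 0 (tr z F) := by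
    have : (eval z : MvPolynomial σ κ →+* κ) = (constantCoeff).comp (tr z).toRingHom := by
      apply MvPolynomial.ringHom_ext
      · intro a
        simp [tr]
      · intro l
        simp [tr]
    rw [this]
    rfl
  rw [h2]
  constructor
  · intro h
    exact h 0 (by simp)
  · intro h c hc
    have : c = 0 := by
      rw [← Finsupp.degree_eq_zero_iff]
      omega
    rw [this]
    exact h

/-- the generic translation -/
noncomputable def Dl : MvPolynomial σ κ →ₐ[κ] MvPolynomial σ (MvPolynomial σ κ) :=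
  aeval (fun l => X l + C (X l))

/-- the Hasse derivatives -/
noncomputable def opH (c : σ →₀ ℕ) : MvPolynomial σ κ →ₗ[κ] MvPolynomial σ κ where
  toFun F := coeff c (Dl F)
  map_add' F G := by rw [map_add, coeff_add]
  map_smul' a F := by
    rw [map_smul, RingHom.id_apply, coeff_smul]

lemma eval_opH (c : σ →₀ ℕ) (z : σ → κ) (F : MvPolynomial σ κ) :
    eval z (opH c F) = coeff c (tr z F) := by
  have h1 : (MvPolynomial.map (eval z)).comp (Dl (κ := κ) (σ := σ)).toRingHom
      = (tr z).toRingHom := by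
    apply MvPolynomial.ringHom_ext
    · intro a
      have h2 : Dl (C a : MvPolynomial σ κ) = C (C a) := by
        rw [Dl, aeval_C]
        rfl
      have h3 : tr z (C a : MvPolynomial σ κ) = C a := by
        rw [tr, aeval_C]
        rfl
      change (MvPolynomial.map (eval z)) (Dl (C a)) = tr z (C a)
      rw [h2, h3, map_C, eval_C]
    · intro l
      change (MvPolynomial.map (eval z)) (Dl (X l)) = tr z (X l)
      rw [Dl, tr, aeval_X, aeval_X, map_add, map_X, map_C, eval_X]
  have h4 : tr z F = MvPolynomial.map (eval z) (Dl F) := (RingHom.congr_fun h1 F).symm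
  rw [h4, coeff_map]
  rfl

/-- all coefficients have bounded degree -/
lemma Dl_degree [Fintype σ] (s : σ →₀ ℕ) (c : σ →₀ ℕ) :
    (opH c (monomial s (1 : κ))).totalDegree ≤ s.degree := by
  classical
  have hmul : ∀ (D E : ℕ) (G H : MvPolynomial σ (MvPolynomial σ κ)),
      (∀ c, (coeff c G).totalDegree ≤ D) → (∀ c, (coeff c H).totalDegree ≤ E) →
      ∀ c, (coeff c (G * H)).totalDegree ≤ D + E := by
    intro D E G H hG hH c
    rw [coeff_mul]
    refine (totalDegree_finsetSum _ _).trans (Finset.sup_le fun x _ => ?_)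
    exact (totalDegree_mul _ _).trans (Nat.add_le_add (hG _) (hH _))
  have hone : ∀ c, (coeff c (1 : MvPolynomial σ (MvPolynomial σ κ))).totalDegree ≤ 0 := by
    intro c
    rw [coeff_one]
    split_ifs <;> simp
  have hX : ∀ l, ∀ c, (coeff c (X l + C (X l) : MvPolynomial σ (MvPolynomial σ κ))).totalDegree
      ≤ 1 := by
    intro l c
    rw [coeff_add]
    refine (totalDegree_add _ _).trans (max_le ?_ ?_)
    · rw [coeff_X]
      split_ifs <;> simp
    · rw [coeff_C]
      split_ifs
      · rw [totalDegree_X]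
      · simp
  have hpow : ∀ l (e : ℕ), ∀ c,
      (coeff c ((X l + C (X l) : MvPolynomial σ (MvPolynomial σ κ)) ^ e)).totalDegree ≤ e := by
    intro l e
    induction e with
    | zero => rw [pow_zero]; exact hone
    | succ e ih => rw [pow_succ]; exact hmul _ _ _ _ ih (hX l)
  have hprod : ∀ (T : Finset σ), ∀ c, (coeff c (∏ l ∈ T,
      (X l + C (X l) : MvPolynomial σ (MvPolynomial σ κ)) ^ (s l))).totalDegree
        ≤ ∑ l ∈ T, s l := by
    intro T
    induction T using Finset.induction_on with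
    | empty => simpa using hone
    | insert a T ha ih =>
      rw [Finset.prod_insert ha, Finset.sum_insert ha]
      exact hmul _ _ _ _ (hpow a _) ih
  have h1 : Dl (monomial s (1 : κ)) = ∏ l, (X l + C (X l)) ^ (s l) := by
    rw [Dl, aeval_monomial, map_one, one_mul, Finsupp.prod_fintype]
    intro i
    simp
  change (coeff c (Dl (monomial s 1))).totalDegree ≤ _
  rw [h1, Finsupp.degree_eq_sum]
  exact hprod Finset.univ c

/-- the exponents of degree at most `i` -/
abbrev Ex (σ : Type*) (i : ℕ) : Type _ := {c : σ →₀ ℕ // c.degree ≤ i}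

instance (σ : Type*) [Finite σ] (i : ℕ) : Finite (Ex σ i) := Finsupp.finite_of_degree_le i

/-- jets of order `i` at distinct points -/
lemma exists_jets [Fintype σ] {n : ℕ} (z : Fin n → σ → κ) (hz : Function.Injective z) (i : ℕ)
    (τ : Fin n × Ex σ i → κ) :
    ∃ F : MvPolynomial σ κ, ∀ j, eval (z j.1) (opH j.2.1 F) = τ j := by
  classical
  have : Fintype (Ex σ i) := Fintype.ofFinite _
  have hco : Pairwise (Function.onFun IsCoprime fun j => mI (z j) ^ (i + 1)) := by
    intro a b hab
    apply IsCoprime.pow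
    rw [Ideal.isCoprime_iff_exists]
    have hne : z a ≠ z b := fun h => hab (hz h)
    obtain ⟨l, hl⟩ := Function.ne_iff.1 hne
    have hd : z b l - z a l ≠ 0 := sub_ne_zero.2 (Ne.symm hl)
    refine ⟨C (z b l - z a l)⁻¹ * (X l - C (z a l)), ?_,
      - (C (z b l - z a l)⁻¹ * (X l - C (z b l))), ?_, ?_⟩
    · apply Ideal.mul_mem_left
      rw [mem_mI]
      simp
    · rw [neg_mem_iff]
      apply Ideal.mul_mem_left
      rw [mem_mI]
      simp
    · have h1 : (C (z b l - z a l)⁻¹ * (X l - C (z a l)) : MvPolynomial σ κ)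
          + -(C (z b l - z a l)⁻¹ * (X l - C (z b l)))
          = C ((z b l - z a l)⁻¹ * (z b l - z a l)) := by
        rw [C_mul, C_sub]
        ring
      rw [h1, inv_mul_cancel₀ hd, C_1]
  obtain ⟨F, hF⟩ := Ideal.exists_forall_sub_mem_ideal hco
    (fun j => tr (-(z j)) (∑ c : Ex σ i, monomial c.1 (τ (j, c))))
  refine ⟨F, ?_⟩
  rintro ⟨j, c⟩
  have h1 := (mem_mI_pow (z j) (i + 1) _).1 (hF j) c.1 (Nat.lt_succ_of_le c.2)
  rw [map_sub, coeff_sub, tr_tr, add_neg_cancel, tr_zero, sub_eq_zero] at h1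
  rw [eval_opH, h1, coeff_sum]
  rw [Finset.sum_eq_single c]
  · rw [coeff_monomial, if_pos rfl]
  · intro b _ hb
    rw [coeff_monomial, if_neg]
    intro h
    exact hb (Subtype.ext h)
  · intro h
    exact absurd (Finset.mem_univ _) h

/-- surjectivity onto jets in terms of ideals -/
lemma surj_iff_red [Fintype σ] {n : ℕ} (z : Fin n → σ → κ) (i : ℕ) (w : σ → ℕ)
    (D : ℕ)
    (h : Surj (fun j : Fin n × Ex σ i => z j.1) (fun j => opH j.2.1) {m | Finsupp.weight w m ≤ D})
    (F : MvPolynomial σ κ) : ∃ G ∈ Wd κ w D, ∀ j, F - G ∈ mI (z j) ^ (i + 1) := by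
  obtain ⟨G, hG, hG'⟩ := h (fun j => eval (z j.1) (opH j.2.1 F))
  refine ⟨G, hG, fun j => ?_⟩
  rw [mem_mI_pow]
  intro c hc
  have h1 := hG' (j, ⟨c, Nat.lt_succ_iff.1 hc⟩)
  rw [eval_opH, eval_opH] at h1
  rw [map_sub, coeff_sub, sub_eq_zero]
  exact h1.symm

lemma red_surj [Fintype σ] {n : ℕ} (z : Fin n → σ → κ) (hz : Function.Injective z) (i : ℕ)
    (w : σ → ℕ) (D : ℕ)
    (h : ∀ F : MvPolynomial σ κ, ∃ G ∈ Wd κ w D, ∀ j, F - G ∈ mI (z j) ^ (i + 1)) :
    Surj (fun j : Fin n × Ex σ i => z j.1) (fun j => opH j.2.1)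
      {m | Finsupp.weight w m ≤ D} := by
  intro τ
  obtain ⟨F, hF⟩ := exists_jets z hz i τ
  obtain ⟨G, hG, hFG⟩ := h F
  refine ⟨G, hG, ?_⟩
  rintro ⟨j, c⟩
  have h1 := (mem_mI_pow (z j) (i + 1) _).1 (hFG j) c.1 (Nat.lt_succ_of_le c.2)
  rw [map_sub, coeff_sub, sub_eq_zero] at h1
  rw [← hF (j, c), eval_opH, eval_opH]
  exact h1.symm

end jets

end Pool.Agent.L5helper40.NF
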