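import Mathlib
import Pool.Agent.L5helper40.NF.B2

set_option autoImplicit false

namespace Pool.Agent.L5helper40.NF

open MvPolynomial Pool.Agent.W301.Lin

lemma exists_nat_point' {κ Θ : Type*} [Field κ] [Finite Θ] (P : MvPolynomial Θ κ) (hP : P ≠ 0)
    (B : ℕ) (hB : P.totalDegree ≤ B)
    (hinj : Set.InjOn (Nat.cast : ℕ → κ) (Set.Iic B)) :
    ∃ T : Θ → ℕ, (∀ p, T p ≤ B) ∧ eval (fun p => (T p : κ)) P ≠ 0 := by
  classical
  have hinj' : Set.InjOn (Nat.cast : ℕ → κ) (Finset.range (B + 1) : Finset ℕ) := by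
    intro a ha b hb hab
    rw [Finset.mem_coe, Finset.mem_range] at ha hb
    exact hinj (Set.mem_Iic.2 (by omega)) (Set.mem_Iic.2 (by omega)) hab
  obtain ⟨T, hT, hTP⟩ : ∃ T : Θ → κ,
      (∀ p, T p ∈ (Finset.range (B + 1)).image (Nat.cast : ℕ → κ)) ∧ eval T P ≠ 0 := by
    by_contra hne
    push Not at hne
    apply hP
    apply MvPolynomial.eq_zero_of_eval_zero_at_prod_finset P
      (fun _ => (Finset.range (B + 1)).image (Nat.cast : ℕ → κ))
    · intro p
      rw [Finset.card_image_of_injOn hinj', Finset.card_range]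
      exact Nat.lt_succ_of_le ((degreeOf_le_totalDegree _ _).trans hB)
    · exact hne
  choose T' hT'1 hT'2 using fun p => Finset.mem_image.1 (hT p)
  refine ⟨T', fun p => ?_, ?_⟩
  · have := Finset.mem_range.1 (hT'1 p)
    omega
  · have : (fun p => (T' p : κ)) = T := funext hT'2
    rw [this]
    exact hTP

/-- the number of jets -/
noncomputable def nj (σ : Type*) (n i : ℕ) : ℕ := n * Nat.card (Ex σ i)

/-- the bound for the coefficients -/
noncomputable def Bd (σ : Type*) (n k c J : ℕ) : ℕ :=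
  ∑ i ∈ Finset.range J, nj σ n i * (k * i + c)

theorem exists_good {σ Θ κ : Type*} [Field κ] [Fintype σ] [Finite Θ] {n : ℕ} (w : σ → ℕ)
    (hw : ∀ l, 1 ≤ w l) (k c J : ℕ) (Z : Fin n → σ → MvPolynomial Θ κ)
    (hZ : ∀ j l, (Z j l).totalDegree ≤ 1) (Q : MvPolynomial Θ κ) (hQ : Q ≠ 0) (b : ℕ)
    (hb : Q.totalDegree ≤ b)
    (hT0 : ∀ i < J, ∃ T0 : Θ → κ, Surj (fun j : Fin n × Ex σ i => fun l => eval T0 (Z j.1 l))
      (fun j => opH j.2.1) {m | Finsupp.weight w m ≤ k * i + c})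
    (hinj : Set.InjOn (Nat.cast : ℕ → κ) (Set.Iic (Bd σ n k c J + b))) :
    ∃ T : Θ → ℕ, (∀ p, T p ≤ Bd σ n k c J + b) ∧ eval (fun p => (T p : κ)) Q ≠ 0 ∧
      ∀ i < J, Surj (fun j : Fin n × Ex σ i => fun l => eval (fun p => (T p : κ)) (Z j.1 l))
        (fun j => opH j.2.1) {m | Finsupp.weight w m ≤ k * i + c} := by
  classical
  have hfe : ∀ i, Fintype (Ex σ i) := fun i => Fintype.ofFinite _
  have hex : ∀ i : ℕ, ∃ s : Fin n × Ex σ i → σ →₀ ℕ, i < J →
      (∀ a, s a ∈ {m | Finsupp.weight w m ≤ k * i + c}) ∧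
      (selMat (fun j : Fin n × Ex σ i => Z j.1) (fun j => opH j.2.1) s).det ≠ 0 := by
    intro i
    by_cases hi : i < J
    · obtain ⟨T0, h0⟩ := hT0 i hi
      obtain ⟨s, hs1, hs2⟩ := exists_sel _ _ _ h0
      refine ⟨s, fun _ => ⟨hs1, fun h => ?_⟩⟩
      apply hs2
      have := eval_selMat_det (fun j : Fin n × Ex σ i => Z j.1) (fun j => opH j.2.1) s T0
      rw [h, map_zero] at this
      exact this.symm
    · exact ⟨fun _ => 0, fun h => absurd h hi⟩
  choose s hs using hex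
  set G : MvPolynomial Θ κ := (∏ i ∈ Finset.range J,
    (selMat (fun j : Fin n × Ex σ i => Z j.1) (fun j => opH j.2.1) (s i)).det) * Q with hG
  have hG0 : G ≠ 0 := by
    apply mul_ne_zero _ hQ
    rw [Finset.prod_ne_zero_iff]
    intro i hi
    exact (hs i (Finset.mem_range.1 hi)).2
  have hdeg : G.totalDegree ≤ Bd σ n k c J + b := by
    refine (totalDegree_mul _ _).trans (Nat.add_le_add ?_ hb)
    refine (totalDegree_finsetProd _ _).trans ?_
    apply Finset.sum_le_sum
    intro i hi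
    have h1 := totalDegree_det_le
      (selMat (fun j : Fin n × Ex σ i => Z j.1) (fun j => opH j.2.1) (s i)) (k * i + c) (by
        intro a j
        refine (totalDegree_aeval_le _ (hZ j.1) _).trans ?_
        refine (Dl_degree _ _).trans ?_
        refine le_trans ?_ ((hs i (Finset.mem_range.1 hi)).1 a)
        rw [Finsupp.degree_eq_sum, Finsupp.weight_eq_sum]
        apply Finset.sum_le_sum
        intro l _
        rw [smul_eq_mul]
        exact Nat.le_mul_of_pos_right _ (hw l))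
    refine h1.trans (le_of_eq ?_)
    rw [nj, Fintype.card_prod, Fintype.card_fin, Nat.card_eq_fintype_card]
  obtain ⟨T, hT1, hT2⟩ := exists_nat_point' G hG0 _ hdeg hinj
  rw [hG, map_mul, map_prod] at hT2
  refine ⟨T, hT1, right_ne_zero_of_mul hT2, ?_⟩
  intro i hi
  have h1 := Finset.prod_ne_zero_iff.1 (left_ne_zero_of_mul hT2) i (Finset.mem_range.2 hi)
  rw [eval_selMat_det] at h1
  exact surj_of_det _ _ _ (s i) (hs i hi).1 h1

/-- distinct points of a grid are good -/
theorem grid_surj {σ κ : Type*} [Field κ] [Fintype σ] {n : ℕ} (w dd : σ → ℕ) (k : ℕ)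
    (hk : ∀ l, w l * dd l ≤ k) (A : σ → Finset κ) (hA : ∀ l, (A l).card = dd l)
    (z : Fin n → σ → κ) (hz : Function.Injective z) (hzA : ∀ j l, z j l ∈ A l) (i : ℕ) :
    Surj (fun j : Fin n × Ex σ i => z j.1) (fun j => opH j.2.1)
      {m | Finsupp.weight w m ≤ k * i + ∑ l, w l * (dd l - 1)} := by
  classical
  apply red_surj z hz
  intro F
  have hmon : ∀ l, (∏ a ∈ A l, (Polynomial.X - Polynomial.C a)).Monic := fun l =>
    Polynomial.monic_prod_of_monic _ _ fun a _ => Polynomial.monic_X_sub_C a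
  obtain ⟨G, hG, hFG⟩ := grid_red w dd k hk (fun l => ∏ a ∈ A l, (Polynomial.X - Polynomial.C a))
    hmon (fun l => by
      rw [Polynomial.natDegree_prod_of_monic _ _ (fun a _ => Polynomial.monic_X_sub_C a)]
      simp [hA]) i F
  refine ⟨G, hG, fun j => ?_⟩
  refine Ideal.pow_right_mono ?_ (i + 1) hFG
  rw [Ideal.span_le]
  rintro _ ⟨l, rfl⟩
  change _ ∈ mI (z j)
  rw [mem_mI]
  have h1 : eval (z j) (Polynomial.aeval (X l : MvPolynomial σ κ)
      (∏ a ∈ A l, (Polynomial.X - Polynomial.C a))) = ∏ a ∈ A l, (z j l - a) := by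
    rw [map_prod, map_prod]
    apply Finset.prod_congr rfl
    intro a _
    simp
  rw [h1]
  exact Finset.prod_eq_zero (hzA j l) (sub_self _)

end Pool.Agent.L5helper40.NF
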