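import Mathlib
import Pool.Agent.L5helper40.NF.B2

set_option autoImplicit false

namespace Pool.Agent.L5helper40.NF

open MvPolynomial

section descent

variable {κ σ : Type*} [Field κ] {p : ℕ} [Fact p.Prime] [Algebra (ZMod p) κ]

/-- extension of scalars -/
noncomputable abbrev io (κ σ : Type*) [Field κ] (p : ℕ) [Fact p.Prime] [Algebra (ZMod p) κ] :
    MvPolynomial σ (ZMod p) →+* MvPolynomial σ κ :=
  MvPolynomial.map (algebraMap (ZMod p) κ)

/-- coefficientwise application of a functional -/
noncomputable def Pr (π : κ →ₗ[ZMod p] ZMod p) (F : MvPolynomial σ κ) :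
    MvPolynomial σ (ZMod p) :=
  ∑ m ∈ F.support, monomial m (π (coeff m F))

lemma coeff_Pr (π : κ →ₗ[ZMod p] ZMod p) (F : MvPolynomial σ κ) (m : σ →₀ ℕ) :
    coeff m (Pr π F) = π (coeff m F) := by
  classical
  rw [Pr, coeff_sum]
  simp only [coeff_monomial]
  rw [Finset.sum_ite_eq' F.support m]
  split_ifs with h
  · rfl
  · rw [notMem_support_iff.1 h, map_zero]

lemma Pr_add (π : κ →ₗ[ZMod p] ZMod p) (F G : MvPolynomial σ κ) :
    Pr π (F + G) = Pr π F + Pr π G := by
  ext m
  rw [coeff_Pr, coeff_add, coeff_add, map_add, coeff_Pr, coeff_Pr]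

lemma Pr_sub (π : κ →ₗ[ZMod p] ZMod p) (F G : MvPolynomial σ κ) :
    Pr π (F - G) = Pr π F - Pr π G := by
  ext m
  rw [coeff_Pr, coeff_sub, coeff_sub, map_sub, coeff_Pr, coeff_Pr]

lemma Pr_mul (π : κ →ₗ[ZMod p] ZMod p) (F : MvPolynomial σ κ) (G : MvPolynomial σ (ZMod p)) :
    Pr π (F * io κ σ p G) = Pr π F * G := by
  classical
  ext m
  rw [coeff_Pr, coeff_mul, coeff_mul, map_sum]
  apply Finset.sum_congr rfl
  intro x _
  rw [coeff_map, coeff_Pr, mul_comm, ← Algebra.smul_def, map_smul, smul_eq_mul, mul_comm]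

lemma Pr_io (π : κ →ₗ[ZMod p] ZMod p) (hπ : π 1 = 1) (G : MvPolynomial σ (ZMod p)) :
    Pr π (io κ σ p G) = G := by
  ext m
  rw [coeff_Pr, coeff_map, Algebra.algebraMap_eq_smul_one, map_smul, hπ, smul_eq_mul, mul_one]

lemma Pr_mem (π : κ →ₗ[ZMod p] ZMod p) (J : Ideal (MvPolynomial σ (ZMod p)))
    (F : MvPolynomial σ κ) (hF : F ∈ J.map (io κ σ p)) : Pr π F ∈ J := by
  have key : ∀ a : MvPolynomial σ κ, Pr π (a * F) ∈ J := by
    rw [Ideal.map] at hF
    induction hF using Submodule.span_induction with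
    | mem x hx =>
      obtain ⟨G, hG, rfl⟩ := hx
      intro a
      rw [Pr_mul]
      exact Ideal.mul_mem_left _ _ hG
    | zero =>
      intro a
      rw [mul_zero]
      have : Pr π (0 : MvPolynomial σ κ) = 0 := by
        ext m
        rw [coeff_Pr]
        simp
      rw [this]
      exact J.zero_mem
    | add x y _ _ hx hy =>
      intro a
      rw [mul_add, Pr_add]
      exact J.add_mem (hx a) (hy a)
    | smul b x _ hx =>
      intro a
      rw [smul_eq_mul, ← mul_assoc]
      exact hx (a * b)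
  have := key 1
  rwa [one_mul] at this

/-- the polynomials over the prime field which vanish at the points -/
noncomputable def Ib {n : ℕ} (p : ℕ) [Fact p.Prime] [Algebra (ZMod p) κ] (z : Fin n → σ → κ) :
    Ideal (MvPolynomial σ (ZMod p)) :=
  ⨅ j, (RingHom.ker (eval (z j))).comap (io κ σ p)

lemma mem_Ib {n : ℕ} (z : Fin n → σ → κ) (F : MvPolynomial σ (ZMod p)) :
    F ∈ Ib p z ↔ ∀ j, eval (z j) (io κ σ p F) = 0 := by
  rw [Ib, Ideal.mem_iInf]
  rfl

/-- the monomial vectors are combinations over the prime field of independent vectors -/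
def Rat {n : ℕ} (p : ℕ) [Fact p.Prime] [Algebra (ZMod p) κ] (z : Fin n → σ → κ) : Prop :=
  ∃ y : Fin n → Fin n → κ, LinearIndependent κ y ∧
    ∀ m : σ →₀ ℕ, ∃ c : Fin n → ZMod p, (fun j => eval (z j) (monomial m (1 : κ)))
      = ∑ k, algebraMap (ZMod p) κ (c k) • y k

/-- the ideal of the points is defined over the prime field -/
lemma mem_map_Ib {n : ℕ} (z : Fin n → σ → κ) (hz : Rat p z) (F : MvPolynomial σ κ)
    (hF : ∀ j, eval (z j) F = 0) : F ∈ (Ib p z).map (io κ σ p) := by
  classical
  obtain ⟨y, hy, hc⟩ := hz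
  choose c hc using hc
  let b := Module.Basis.ofVectorSpace (ZMod p) κ
  -- the components
  let Fs : Module.Basis.ofVectorSpaceIndex (ZMod p) κ → MvPolynomial σ (ZMod p) := fun s =>
    Pr (b.coord s) F
  have h1 : ∀ s, Fs s ∈ Ib p z := by
    intro s
    rw [mem_Ib]
    -- the relation
    have h2 : ∑ m ∈ F.support, coeff m F • (fun j => eval (z j) (monomial m (1 : κ)))
        = (0 : Fin n → κ) := by
      funext j
      rw [Finset.sum_apply, Pi.zero_apply, ← hF j]
      conv_rhs => rw [F.as_sum]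
      rw [map_sum]
      apply Finset.sum_congr rfl
      intro m _
      have : (monomial m) (coeff m F) = coeff m F • (monomial m (1 : κ)) := by
        rw [smul_monomial, smul_eq_mul, mul_one]
      rw [this, smul_eval]
      rfl
    have h3 : ∑ k, (∑ m ∈ F.support, coeff m F * algebraMap (ZMod p) κ (c m k)) • y k = 0 := by
      rw [← h2]
      simp only [Finset.sum_smul]
      rw [Finset.sum_comm]
      apply Finset.sum_congr rfl
      intro m _
      rw [hc m, Finset.smul_sum]
      apply Finset.sum_congr rfl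
      intro k _
      rw [mul_smul]
    have h4 := Fintype.linearIndependent_iff.1 hy _ h3
    have h5 : ∀ k, ∑ m ∈ F.support, b.coord s (coeff m F) * c m k = 0 := by
      intro k
      have h6 := congrArg (b.coord s) (h4 k)
      rw [map_sum, map_zero] at h6
      rw [← h6]
      apply Finset.sum_congr rfl
      intro m _
      rw [mul_comm (coeff m F), ← Algebra.smul_def, map_smul, smul_eq_mul, mul_comm]
    intro j
    have h7 : io κ σ p (Fs s) = ∑ m ∈ F.support,
        algebraMap (ZMod p) κ (b.coord s (coeff m F)) • monomial m (1 : κ) := by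
      change io κ σ p (Pr (b.coord s) F) = _
      rw [Pr, map_sum]
      apply Finset.sum_congr rfl
      intro m _
      rw [map_monomial, smul_monomial, smul_eq_mul, mul_one]
    rw [h7, map_sum]
    have h8 : ∀ m, eval (z j) (algebraMap (ZMod p) κ (b.coord s (coeff m F)) •
        monomial m (1 : κ)) = ∑ k, algebraMap (ZMod p) κ (b.coord s (coeff m F) * c m k) * y k j := by
      intro m
      rw [smul_eval]
      have h9 := congrFun (hc m) j
      simp only [Finset.sum_apply, Pi.smul_apply, smul_eq_mul] at h9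
      rw [h9, Finset.mul_sum]
      apply Finset.sum_congr rfl
      intro k _
      rw [map_mul, mul_assoc]
    rw [Finset.sum_congr rfl fun m _ => h8 m, Finset.sum_comm]
    apply Finset.sum_eq_zero
    intro k _
    rw [← Finset.sum_mul, ← map_sum, h5 k, map_zero, zero_mul]
  -- reconstruction
  set fin : Finset (Module.Basis.ofVectorSpaceIndex (ZMod p) κ) :=
    F.support.biUnion (fun m => (b.repr (coeff m F)).support) with hfin
  have h10 : F = ∑ s ∈ fin, C (b s) * io κ σ p (Fs s) := by
    ext m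
    rw [coeff_sum]
    simp only [coeff_C_mul, coeff_map]
    by_cases hm : m ∈ F.support
    · conv_lhs => rw [← b.linearCombination_repr (coeff m F)]
      rw [Finsupp.linearCombination_apply, Finsupp.sum]
      have hsub : (b.repr (coeff m F)).support ⊆ fin := Finset.subset_biUnion_of_mem
        (fun m => (b.repr (coeff m F)).support) hm
      rw [Finset.sum_subset hsub]
      · apply Finset.sum_congr rfl
        intro s _
        rw [coeff_Pr, Algebra.smul_def, mul_comm]
        rfl
      · intro s _ hs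
        rw [Finsupp.notMem_support_iff.1 hs, zero_smul]
    · rw [notMem_support_iff.1 hm]
      symm
      apply Finset.sum_eq_zero
      intro s _
      rw [coeff_Pr, notMem_support_iff.1 hm, map_zero, map_zero, mul_zero]
  rw [h10]
  refine Ideal.sum_mem _ fun s _ => Ideal.mul_mem_left _ _ (Ideal.mem_map_of_mem _ (h1 s))

/-- reduction over the prime field -/
theorem red_prime [Fintype σ] {n : ℕ} (z : Fin n → σ → κ) (hinj : Function.Injective z)
    (hz : Rat p z) (i : ℕ) (w : σ → ℕ) (D : ℕ)
    (h : ∀ F : MvPolynomial σ κ, ∃ G ∈ Wd κ w D, ∀ j, F - G ∈ mI (z j) ^ (i + 1))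
    (F : MvPolynomial σ (ZMod p)) : ∃ G ∈ Wd (ZMod p) w D, F - G ∈ (Ib p z) ^ (i + 1) := by
  classical
  obtain ⟨π, hπ⟩ : ∃ π : κ →ₗ[ZMod p] ZMod p, π 1 = 1 := by
    obtain ⟨f, hf⟩ := LinearMap.exists_leftInverse_of_injective
      (LinearMap.toSpanSingleton (ZMod p) κ 1) (by
        rw [LinearMap.ker_eq_bot]
        intro a b hab
        simp only [LinearMap.toSpanSingleton_apply] at hab
        rw [← Algebra.algebraMap_eq_smul_one, ← Algebra.algebraMap_eq_smul_one] at hab
        exact (algebraMap (ZMod p) κ).injective hab)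
    refine ⟨f, ?_⟩
    have := DFunLike.congr_fun hf 1
    simpa using this
  obtain ⟨G, hG, hFG⟩ := h (io κ σ p F)
  have hco : ((Finset.univ : Finset (Fin n)) : Set (Fin n)).Pairwise
      (Function.onFun IsCoprime fun j => mI (z j) ^ (i + 1)) := by
    intro a _ b _ hab
    apply IsCoprime.pow
    rw [Ideal.isCoprime_iff_exists]
    have hne : z a ≠ z b := fun h => hab (hinj h)
    obtain ⟨l, hl⟩ := Function.ne_iff.1 hne
    have hd : z b l - z a l ≠ 0 := sub_ne_zero.2 (Ne.symm hl)
    refine ⟨C (z b l - z a l)⁻¹ * (X l - C (z a l)), ?_,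
      - (C (z b l - z a l)⁻¹ * (X l - C (z b l))), ?_, ?_⟩
    · apply Ideal.mul_mem_left
      rw [mem_mI]
      simp
    · rw [neg_mem_iff]
      apply Ideal.mul_mem_left
      rw [mem_mI]
      simp
    · have h1 : (C (z b l - z a l)⁻¹ * (X l - C (z a l)) : MvPolynomial σ κ)
          + -(C (z b l - z a l)⁻¹ * (X l - C (z b l)))
          = C ((z b l - z a l)⁻¹ * (z b l - z a l)) := by
        rw [C_mul, C_sub]
        ring
      rw [h1, inv_mul_cancel₀ hd, C_1]
  have h1 : io κ σ p F - G ∈ ∏ j, mI (z j) ^ (i + 1) := by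
    rw [Ideal.prod_eq_iInf_of_pairwise_isCoprime hco]
    simp only [Finset.mem_univ, iInf_pos, Ideal.mem_iInf]
    exact hFG
  have h2 : ∏ j, mI (z j) ≤ (Ib p z).map (io κ σ p) := by
    intro H hH
    apply mem_map_Ib z hz
    intro j
    rw [← mem_mI]
    have h3 : ∏ j, mI (z j) ≤ mI (z j) := by
      rw [← Finset.mul_prod_erase _ (fun j => mI (z j)) (Finset.mem_univ j)]
      exact Ideal.mul_le_left
    exact h3 hH
  have h3 : io κ σ p F - G ∈ ((Ib p z) ^ (i + 1)).map (io κ σ p) := by
    rw [Ideal.map_pow]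
    rw [Finset.prod_pow] at h1
    exact Ideal.pow_right_mono h2 (i + 1) h1
  have h4 := Pr_mem π _ _ h3
  rw [Pr_sub, Pr_io π hπ] at h4
  refine ⟨Pr π G, ?_, h4⟩
  rw [mem_Wd] at hG ⊢
  intro m hm
  apply hG
  rw [mem_support_iff] at hm ⊢
  intro h0
  apply hm
  rw [coeff_Pr, h0, map_zero]

end descent

end Pool.Agent.L5helper40.NF
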