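import Mathlib
import Pool.Agent.L5helper40.NF.A2
import Pool.Agent.L5helper40.NF.C1

set_option autoImplicit false

namespace Pool.Agent.L5helper40.NF

open MvPolynomial Matrix

section lift

variable {κ σ : Type*} [Field κ] {p : ℕ} [Fact p.Prime] [Algebra (ZMod p) κ]

/-- reduction modulo `p` -/
noncomputable abbrev rd (σ : Type*) (p : ℕ) [Fact p.Prime] :
    MvPolynomial σ ℤ →+* MvPolynomial σ (ZMod p) :=
  MvPolynomial.map (Int.castRingHom (ZMod p))

lemma rd_surj : Function.Surjective (rd σ p) :=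
  MvPolynomial.map_surjective _ ZMod.intCast_surjective

/-- the integral polynomials with monomials of weight at most `D` -/
noncomputable abbrev PZ (σ : Type*) (w : σ → ℕ) (D : ℕ) : AddSubgroup (MvPolynomial σ ℤ) :=
  P (fun m : σ →₀ ℕ => (monomial m (1 : ℤ) : MvPolynomial σ ℤ)) (fun m => Finsupp.weight w m) D

lemma PZ_mono {w : σ → ℕ} {D E : ℕ} (h : D ≤ E) : PZ σ w D ≤ PZ σ w E := by
  apply AddSubgroup.closure_mono
  apply Set.image_mono
  intro a ha
  exact le_trans ha h

lemma exists_lift (w : σ → ℕ) (D : ℕ) (G : MvPolynomial σ (ZMod p)) (hG : G ∈ Wd (ZMod p) w D) :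
    ∃ G' ∈ PZ σ w D, rd σ p G' = G := by
  rw [mem_Wd] at hG
  refine ⟨∑ m ∈ G.support, monomial m ((coeff m G).val : ℤ), ?_, ?_⟩
  · refine AddSubgroup.sum_mem _ fun m hm => ?_
    have h1 : (monomial m ((coeff m G).val : ℤ) : MvPolynomial σ ℤ)
        = (coeff m G).val • monomial m (1 : ℤ) := by
      rw [← map_nsmul]
      simp
    rw [h1]
    have h2 : (monomial m (1 : ℤ) : MvPolynomial σ ℤ) ∈ PZ σ w D :=
      AddSubgroup.subset_closure ⟨m, hG m hm, rfl⟩
    exact AddSubgroup.nsmul_mem _ h2 _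
  · rw [map_sum]
    conv_rhs => rw [G.as_sum]
    apply Finset.sum_congr rfl
    intro m _
    rw [map_monomial]
    congr 1
    simp

/-- the integral polynomials which vanish at the points -/
noncomputable def It {n : ℕ} (p : ℕ) [Fact p.Prime] [Algebra (ZMod p) κ] (z : Fin n → σ → κ) :
    Ideal (MvPolynomial σ ℤ) := (Ib p z).comap (rd σ p)

lemma smul_mem_It {n : ℕ} (z : Fin n → σ → κ) (F : MvPolynomial σ ℤ) : p • F ∈ It p z := by
  rw [It, Ideal.mem_comap, map_nsmul]
  have : p • (rd σ p F) = 0 := by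
    rw [nsmul_eq_mul]
    have : ((p : ℕ) : MvPolynomial σ (ZMod p)) = 0 := by
      rw [← map_natCast (C : ZMod p →+* MvPolynomial σ (ZMod p))]
      simp
    rw [this, zero_mul]
  rw [this]
  exact Ideal.zero_mem _

theorem red_int {n : ℕ} (z : Fin n → σ → κ) (w : σ → ℕ) (k c J : ℕ)
    (h : ∀ i < J, ∀ F : MvPolynomial σ (ZMod p), ∃ G ∈ Wd (ZMod p) w (k * i + c),
      F - G ∈ (Ib p z) ^ (i + 1)) (i : ℕ) (hi : i < J) (F : MvPolynomial σ ℤ) :
    ∃ G ∈ PZ σ w (k * i + c), F - G ∈ (It p z) ^ (i + 1) := by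
  have hmap : (It p z).map (rd σ p) = Ib p z := Ideal.map_comap_of_surjective _ rd_surj _
  -- reduction up to multiples of `p`
  have step : ∀ i < J, ∀ F : MvPolynomial σ ℤ, ∃ G ∈ PZ σ w (k * i + c),
      ∃ H ∈ (It p z) ^ (i + 1), ∃ E : MvPolynomial σ ℤ, F = G + H + p • E := by
    intro i hi F
    obtain ⟨Gb, hGb, hFG⟩ := h i hi (rd σ p F)
    obtain ⟨G, hG, hG'⟩ := exists_lift w _ Gb hGb
    rw [← hmap, ← Ideal.map_pow, Ideal.mem_map_iff_of_surjective _ rd_surj] at hFG
    obtain ⟨H, hH, hH'⟩ := hFG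
    have h1 : rd σ p (F - G - H) = 0 := by
      rw [map_sub, map_sub, hG', hH', sub_self]
    have h2 := (C_dvd_iff_zmod p (F - G - H)).2 h1
    obtain ⟨E, hE⟩ := h2
    refine ⟨G, hG, H, hH, E, ?_⟩
    have h3 : (C ((p : ℕ) : ℤ) : MvPolynomial σ ℤ) * E = p • E := by
      rw [nsmul_eq_mul]
      congr 1
    rw [h3] at hE
    rw [← hE]
    ring
  induction i generalizing F with
  | zero =>
    obtain ⟨G, hG, H, hH, E, hE⟩ := step 0 hi F
    refine ⟨G, hG, ?_⟩
    have h1 : F - G = H + p • E := by rw [hE]; ring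
    rw [h1]
    refine Ideal.add_mem _ hH ?_
    rw [zero_add, pow_one]
    exact smul_mem_It z E
  | succ i ih =>
    obtain ⟨G, hG, H, hH, E, hE⟩ := step (i + 1) hi F
    obtain ⟨G', hG', hEG⟩ := ih (by omega) E
    refine ⟨G + p • G', ?_, ?_⟩
    · refine AddSubgroup.add_mem _ hG (AddSubgroup.nsmul_mem _ ?_ _)
      exact PZ_mono (by nlinarith) hG'
    · have h1 : F - (G + p • G') = H + (p • 1) * (E - G') := by
        rw [hE, smul_mul_assoc, one_mul, smul_sub]
        ring
      rw [h1]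
      refine Ideal.add_mem _ hH ?_
      rw [pow_succ' _ (i + 1)]
      exact Ideal.mul_mem_mul (smul_mem_It z 1) hEG

end lift

section types

variable {κ σ : Type*} [Field κ] {p : ℕ} [Fact p.Prime] [Algebra (ZMod p) κ]

/-- the ideal attached to coefficient vectors -/
noncomputable def Je {n : ℕ} [DecidableEq σ] (l0 : σ) (c : σ → Fin n → ZMod p) :
    Ideal (MvPolynomial σ (ZMod p)) :=
  Ideal.span (Set.range fun l : σ => (if l = l0 then X l0 ^ n else X l)
    - ∑ e : Fin n, C (c l e) * X l0 ^ (e : ℕ))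

lemma Je_span {n : ℕ} [DecidableEq σ] (l0 : σ) (hn : 0 < n) (c : σ → Fin n → ZMod p)
    (F : MvPolynomial σ (ZMod p)) :
    ∃ a : Fin n → ZMod p, F - ∑ e : Fin n, C (a e) * X l0 ^ (e : ℕ) ∈ Je l0 c := by
  have hgen : ∀ l, (if l = l0 then X l0 ^ n else X l)
      - ∑ e : Fin n, C (c l e) * X l0 ^ (e : ℕ) ∈ Je l0 c := fun l =>
    Ideal.subset_span ⟨l, rfl⟩
  -- the set of good polynomials
  have hadd : ∀ F G : MvPolynomial σ (ZMod p),
      (∃ a : Fin n → ZMod p, F - ∑ e : Fin n, C (a e) * X l0 ^ (e : ℕ) ∈ Je l0 c) →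
      (∃ a : Fin n → ZMod p, G - ∑ e : Fin n, C (a e) * X l0 ^ (e : ℕ) ∈ Je l0 c) →
      ∃ a : Fin n → ZMod p, (F + G) - ∑ e : Fin n, C (a e) * X l0 ^ (e : ℕ) ∈ Je l0 c := by
    rintro F G ⟨a, ha⟩ ⟨b, hb⟩
    refine ⟨a + b, ?_⟩
    have := Ideal.add_mem _ ha hb
    convert this using 1
    simp only [Pi.add_apply, C_add, add_mul, Finset.sum_add_distrib]
    ring
  have hC : ∀ (t : ZMod p) (F : MvPolynomial σ (ZMod p)),
      (∃ a : Fin n → ZMod p, F - ∑ e : Fin n, C (a e) * X l0 ^ (e : ℕ) ∈ Je l0 c) →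
      ∃ a : Fin n → ZMod p, C t * F - ∑ e : Fin n, C (a e) * X l0 ^ (e : ℕ) ∈ Je l0 c := by
    rintro t F ⟨a, ha⟩
    refine ⟨fun e => t * a e, ?_⟩
    have := Ideal.mul_mem_left _ (C t) ha
    convert this using 1
    rw [mul_sub, Finset.mul_sum]
    congr 1
    apply Finset.sum_congr rfl
    intro e _
    rw [C_mul, mul_assoc]
  have hcong : ∀ F G : MvPolynomial σ (ZMod p), F - G ∈ Je l0 c →
      (∃ a : Fin n → ZMod p, G - ∑ e : Fin n, C (a e) * X l0 ^ (e : ℕ) ∈ Je l0 c) →
      ∃ a : Fin n → ZMod p, F - ∑ e : Fin n, C (a e) * X l0 ^ (e : ℕ) ∈ Je l0 c := by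
    rintro F G h ⟨a, ha⟩
    refine ⟨a, ?_⟩
    have := Ideal.add_mem _ h ha
    convert this using 1
    ring
  have hsum : ∀ (T : Finset (Fin n)) (f : Fin n → MvPolynomial σ (ZMod p)),
      (∀ e ∈ T, ∃ a : Fin n → ZMod p, f e - ∑ e : Fin n, C (a e) * X l0 ^ (e : ℕ) ∈ Je l0 c) →
      ∃ a : Fin n → ZMod p, (∑ e ∈ T, f e) - ∑ e : Fin n, C (a e) * X l0 ^ (e : ℕ) ∈ Je l0 c := by
    classical
    intro T f
    induction T using Finset.induction_on with
    | empty =>
      intro _
      exact ⟨0, by simp⟩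
    | insert x T hx ih =>
      intro hT
      rw [Finset.sum_insert hx]
      exact hadd _ _ (hT x (Finset.mem_insert_self _ _))
        (ih fun e he => hT e (Finset.mem_insert_of_mem he))
  have hX0 : ∀ m : ℕ, m ≤ n → ∃ a : Fin n → ZMod p,
      X l0 ^ m - ∑ e : Fin n, C (a e) * X l0 ^ (e : ℕ) ∈ Je l0 c := by
    classical
    intro m hm
    rcases hm.lt_or_eq with h | rfl
    · refine ⟨fun e => if (e : ℕ) = m then 1 else 0, ?_⟩
      have : ∑ e : Fin n, C (if (e : ℕ) = m then (1 : ZMod p) else 0) * X l0 ^ (e : ℕ)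
          = (X l0 : MvPolynomial σ (ZMod p)) ^ m := by
        rw [Finset.sum_eq_single ⟨m, h⟩]
        · simp
        · intro b _ hb
          rw [if_neg, C_0, zero_mul]
          intro h'
          exact hb (Fin.ext h')
        · intro h'
          exact absurd (Finset.mem_univ _) h'
      rw [this, sub_self]
      exact Ideal.zero_mem _
    · have := hgen l0
      rw [if_pos rfl] at this
      exact ⟨c l0, this⟩
  -- multiplication by the main variable
  have hmul0 : ∀ F : MvPolynomial σ (ZMod p),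
      (∃ a : Fin n → ZMod p, F - ∑ e : Fin n, C (a e) * X l0 ^ (e : ℕ) ∈ Je l0 c) →
      ∃ a : Fin n → ZMod p, F * X l0 - ∑ e : Fin n, C (a e) * X l0 ^ (e : ℕ) ∈ Je l0 c := by
    rintro F ⟨a, ha⟩
    have h1 := Ideal.mul_mem_right (X l0) _ ha
    rw [sub_mul] at h1
    refine hcong _ _ h1 ?_
    rw [Finset.sum_mul]
    apply hsum
    intro e _
    have h2 : C (a e) * X l0 ^ (e : ℕ) * X l0 = C (a e) * (X l0 : MvPolynomial σ (ZMod p)) ^ ((e : ℕ) + 1) := by
      rw [pow_succ]; ring
    rw [h2]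
    exact hC _ _ (hX0 _ e.2)
  have hpow : ∀ (m : ℕ) (F : MvPolynomial σ (ZMod p)),
      (∃ a : Fin n → ZMod p, F - ∑ e : Fin n, C (a e) * X l0 ^ (e : ℕ) ∈ Je l0 c) →
      ∃ a : Fin n → ZMod p, F * X l0 ^ m - ∑ e : Fin n, C (a e) * X l0 ^ (e : ℕ) ∈ Je l0 c := by
    intro m
    induction m with
    | zero => intro F hF; simpa using hF
    | succ m ih =>
      intro F hF
      rw [pow_succ, ← mul_assoc]
      exact hmul0 _ (ih F hF)
  have hmul : ∀ (l : σ) (F : MvPolynomial σ (ZMod p)),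
      (∃ a : Fin n → ZMod p, F - ∑ e : Fin n, C (a e) * X l0 ^ (e : ℕ) ∈ Je l0 c) →
      ∃ a : Fin n → ZMod p, F * X l - ∑ e : Fin n, C (a e) * X l0 ^ (e : ℕ) ∈ Je l0 c := by
    intro l F hF
    by_cases hl : l = l0
    · rw [hl]; exact hmul0 F hF
    · have h1 := Ideal.mul_mem_left _ F (hgen l)
      rw [if_neg hl, mul_sub] at h1
      refine hcong _ _ h1 ?_
      rw [Finset.mul_sum]
      apply hsum
      intro e _
      have h2 : F * (C (c l e) * X l0 ^ (e : ℕ)) = C (c l e) * (F * X l0 ^ (e : ℕ)) := by ring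
      rw [h2]
      exact hC _ _ (hpow _ _ hF)
  induction F using MvPolynomial.induction_on with
  | C t =>
    have h1 := hC t 1 (by simpa using hX0 0 (Nat.zero_le _))
    rwa [mul_one] at h1
  | add F G hF hG => exact hadd _ _ hF hG
  | mul_X F l hF => exact hmul l F hF

/-- the ideal of the points is determined by `n r` residues -/
theorem Ib_eq_Je {n : ℕ} [DecidableEq σ] (l0 : σ) (hn : 0 < n) (z : Fin n → σ → κ)
    (hz : Function.Injective fun j => z j l0) (hrat : Rat p z) :
    ∃ c : σ → Fin n → ZMod p, Ib p z = Je l0 c := by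
  classical
  obtain ⟨y, hy, hc⟩ := hrat
  let _ : Module (ZMod p) (Fin n → κ) := inferInstance
  set V : Submodule (ZMod p) (Fin n → κ) := Submodule.span (ZMod p) (Set.range y) with hV
  have hVf : Module.finrank (ZMod p) V ≤ n := by
    have := finrank_range_le_card (R := ZMod p) y
    rw [Fintype.card_fin] at this
    exact this
  -- the powers
  set b : Fin n → Fin n → κ := fun e j => z j l0 ^ (e : ℕ) with hb
  have hbli : LinearIndependent κ b := by
    have h1 : (Matrix.vandermonde fun j => z j l0).det ≠ 0 :=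
      Matrix.det_vandermonde_ne_zero_iff.2 hz
    have h2 : IsUnit (Matrix.vandermonde fun j => z j l0)ᵀ := by
      rw [Matrix.isUnit_iff_isUnit_det, Matrix.det_transpose]
      exact Ne.isUnit h1
    have h3 := Matrix.linearIndependent_rows_iff_isUnit.2 h2
    exact h3
  have hbli' : LinearIndependent (ZMod p) b := hbli.restrict_scalars' (ZMod p)
  -- all polynomial vectors are in `V`
  have hmem : ∀ F : MvPolynomial σ (ZMod p), (fun j => eval (z j) (io κ σ p F)) ∈ V := by
    intro F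
    have h1 : (fun j => eval (z j) (io κ σ p F))
        = ∑ m ∈ F.support, (coeff m F) • (fun j => eval (z j) (monomial m (1 : κ))) := by
      funext j
      rw [Finset.sum_apply]
      conv_lhs => rw [F.as_sum, map_sum, map_sum]
      apply Finset.sum_congr rfl
      intro m _
      rw [map_monomial, Pi.smul_apply, Algebra.smul_def, ← smul_eval,
        smul_monomial, smul_eq_mul, mul_one]
    rw [h1]
    refine Submodule.sum_mem _ fun m _ => Submodule.smul_mem _ _ ?_
    obtain ⟨c, hc⟩ := hc m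
    rw [hc]
    refine Submodule.sum_mem _ fun k _ => ?_
    have h2 : algebraMap (ZMod p) κ (c k) • y k = c k • y k := by
      funext j
      rw [Pi.smul_apply, Pi.smul_apply, smul_eq_mul, Algebra.smul_def]
    rw [h2]
    exact Submodule.smul_mem _ _ (Submodule.subset_span ⟨k, rfl⟩)
  have hbV : ∀ e, b e ∈ V := by
    intro e
    have := hmem (X l0 ^ (e : ℕ))
    simpa [hb] using this
  have hspan : Submodule.span (ZMod p) (Set.range b) = V := by
    have : FiniteDimensional (ZMod p) V := FiniteDimensional.span_of_finite _ (Set.finite_range _)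
    apply Submodule.eq_of_le_of_finrank_le
    · rw [Submodule.span_le]
      rintro _ ⟨e, rfl⟩
      exact hbV e
    · rw [finrank_span_eq_card hbli', Fintype.card_fin]
      exact hVf
  have hex : ∀ F : MvPolynomial σ (ZMod p), ∃ c : Fin n → ZMod p,
      F - ∑ e : Fin n, C (c e) * X l0 ^ (e : ℕ) ∈ Ib p z := by
    intro F
    have h1 := hmem F
    rw [← hspan, Submodule.mem_span_range_iff_exists_fun] at h1
    obtain ⟨c, hc⟩ := h1
    refine ⟨c, ?_⟩
    rw [mem_Ib]
    intro j
    have h2 := congrFun hc j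
    rw [Finset.sum_apply] at h2
    rw [map_sub, map_sub, ← h2, map_sum, map_sum, sub_eq_zero]
    apply Finset.sum_congr rfl
    intro e _
    rw [Pi.smul_apply, Algebra.smul_def]
    simp [hb]
  choose c hc' using fun l : σ => hex (if l = l0 then X l0 ^ n else X l)
  refine ⟨c, ?_⟩
  have hle : Je l0 c ≤ Ib p z := by
    rw [Je, Ideal.span_le]
    rintro _ ⟨l, rfl⟩
    exact hc' l
  apply le_antisymm _ hle
  intro F hF
  obtain ⟨a, ha⟩ := Je_span l0 hn c F
  have h1 : ∑ e : Fin n, C (a e) * X l0 ^ (e : ℕ) ∈ Ib p z := by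
    have := Ideal.sub_mem _ hF (hle ha)
    simpa using this
  have h2 : ∑ e : Fin n, a e • b e = 0 := by
    funext j
    rw [mem_Ib] at h1
    have := h1 j
    rw [Finset.sum_apply, Pi.zero_apply, ← this, map_sum, map_sum]
    apply Finset.sum_congr rfl
    intro e _
    rw [Pi.smul_apply, Algebra.smul_def]
    simp [hb]
  have h3 := Fintype.linearIndependent_iff.1 hbli' a h2
  have h4 : ∑ e : Fin n, C (a e) * (X l0 : MvPolynomial σ (ZMod p)) ^ (e : ℕ) = 0 := by
    apply Finset.sum_eq_zero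
    intro e _
    rw [h3 e, C_0, zero_mul]
  rw [h4, sub_zero] at ha
  exact ha

end types

end Pool.Agent.L5helper40.NF
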