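import Mathlib
import Pool.Agent.L5helper40.NF.A3
import Pool.Agent.L5helper40.NF.C2
import Pool.Agent.W301.LinH2

set_option autoImplicit false

namespace Pool.Agent.L5helper40.NF

open MvPolynomial Module NumberField Pool.Agent.W301.Lin

section core

variable {ι σ : Type} [Fintype ι] (L : ι → Type) [∀ i, Field (L i)]

/-- the evaluation at the points of all the fields -/
noncomputable def evA (α : ∀ i, σ → L i) : MvPolynomial σ ℤ →+* (∀ i, L i) :=
  RingHom.pi fun i => ((aeval (α i) : MvPolynomial σ ℤ →ₐ[ℤ] L i) : MvPolynomial σ ℤ →+* L i)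

omit [Fintype ι] in
@[simp] lemma evA_apply (α : ∀ i, σ → L i) (F : MvPolynomial σ ℤ) (i : ι) :
    evA L α F i = aeval (α i) F := rfl

/-- the integral elements of the product -/
def OA : AddSubgroup (∀ i, L i) where
  carrier := {v | ∀ i, IsIntegral ℤ (v i)}
  zero_mem' := fun i => isIntegral_zero
  add_mem' := fun hv hu i => (hv i).add (hu i)
  neg_mem' := fun hv i => (hv i).neg

variable [∀ i, NumberField (L i)]

/-- the size -/
noncomputable def szA (v : ∀ i, L i) : ℝ :=
  ‖(fun i => canonicalEmbedding (L i) (v i) : ∀ i, (L i →+* ℂ) → ℂ)‖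

lemma szA_add (x y : ∀ i, L i) : szA L (x + y) ≤ szA L x + szA L y := by
  have h : (fun i => canonicalEmbedding (L i) ((x + y) i) : ∀ i, (L i →+* ℂ) → ℂ)
      = (fun i => canonicalEmbedding (L i) (x i) : ∀ i, (L i →+* ℂ) → ℂ)
        + (fun i => canonicalEmbedding (L i) (y i) : ∀ i, (L i →+* ℂ) → ℂ) := by
    funext i
    simp
  rw [szA, h]
  exact norm_add_le _ _

lemma szA_zsmul (z : ℤ) (x : ∀ i, L i) : szA L (z • x) = |(z : ℝ)| * szA L x := by
  have h : (fun i => canonicalEmbedding (L i) ((z • x) i) : ∀ i, (L i →+* ℂ) → ℂ)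
      = (z : ℝ) • (fun i => canonicalEmbedding (L i) (x i) : ∀ i, (L i →+* ℂ) → ℂ) := by
    funext i
    rw [Pi.smul_apply, map_zsmul, Pi.smul_apply]
    exact (Int.cast_smul_eq_zsmul ℝ z _).symm
  rw [szA, h, norm_smul, szA, Real.norm_eq_abs]

lemma szA_one (u : ∀ i, L i) (hu : u ∈ OA L) (h0 : u ≠ 0) : 1 ≤ szA L u := by
  obtain ⟨i, hi⟩ := Function.ne_iff.1 h0
  have h1 : 1 ≤ house (u i) := one_le_house_of_isIntegral (hu i) hi
  refine h1.trans ?_
  exact norm_le_pi_norm (fun i => canonicalEmbedding (L i) (u i) : ∀ i, (L i →+* ℂ) → ℂ) i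

lemma szA_le (u : ∀ i, L i) (B : ℝ) (hB : 0 ≤ B) (h : ∀ i, house (u i) ≤ B) : szA L u ≤ B := by
  rw [szA, pi_norm_le_iff_of_nonneg hB]
  exact h

omit [∀ i, NumberField (L i)] in
/-- divisibility of the values on the powers of the ideal -/
lemma pow_le_U (α : ∀ i, σ → L i) (p : ℕ) (I : Ideal (MvPolynomial σ ℤ))
    (hα : ∀ i l, IsIntegral ℤ (α i l))
    (hI : ∀ F ∈ I, ∀ i, ∃ u : L i, IsIntegral ℤ u ∧ aeval (α i) F = p • u) (j : ℕ)
    (F : MvPolynomial σ ℤ) (hF : F ∈ I ^ j) :
    F ∈ U (evA L α : MvPolynomial σ ℤ →+ (∀ i, L i)) (OA L) p j := by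
  have hint : ∀ (F : MvPolynomial σ ℤ) i, IsIntegral ℤ (aeval (α i) F) := by
    intro F i
    induction F using MvPolynomial.induction_on with
    | C a => rw [aeval_C]; exact isIntegral_algebraMap
    | add F G hF hG => rw [map_add]; exact hF.add hG
    | mul_X F l hF => rw [map_mul, aeval_X]; exact hF.mul (hα i l)
  induction j generalizing F with
  | zero =>
    refine ⟨evA L α F, fun i => hint F i, ?_⟩
    simp
  | succ j ih =>
    rw [pow_succ] at hF
    induction hF using Submodule.mul_induction_on' with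
    | mem_mul_mem a ha b hb =>
      obtain ⟨u, hu, h1⟩ := ih a ha
      choose v hv h2 using hI b hb
      refine ⟨fun i => u i * v i, fun i => (hu i).mul (hv i), ?_⟩
      funext i
      have h3 : evA L α a i = (p ^ j • u) i := congrFun h1 i
      have h4 : evA L α b i = p • v i := h2 i
      change evA L α (a * b) i = _
      rw [map_mul, Pi.mul_apply, h3, h4, Pi.smul_apply, Pi.smul_apply]
      simp only [nsmul_eq_mul]
      push_cast
      ring
    | add x hx y hy h1 h2 => exact AddSubgroup.add_mem _ h1 h2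

/-- the product of distinct irreducible monic polynomials divides -/
lemma minpoly_deg (n : ℕ) (y : ∀ i, L i) (hdeg : ∀ i, (minpoly ℚ (y i)).natDegree = n)
    (hdist : ∀ i j, i ≠ j → minpoly ℚ (y i) ≠ minpoly ℚ (y j)) :
    n * Fintype.card ι ≤ (minpoly ℚ y).natDegree := by
  classical
  have hint : ∀ i, IsIntegral ℚ (y i) := fun i => Algebra.IsIntegral.isIntegral _
  have hy : IsIntegral ℚ y := Algebra.IsIntegral.isIntegral _
  have h1 : ∀ i, minpoly ℚ (y i) ∣ minpoly ℚ y := by
    intro i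
    apply minpoly.dvd
    have h2 : Polynomial.aeval y (minpoly ℚ y) = 0 := minpoly.aeval _ _
    have h3 := congrFun h2 i
    have h4 : (Pi.evalAlgHom ℚ L i) (Polynomial.aeval y (minpoly ℚ y))
        = Polynomial.aeval (y i) (minpoly ℚ y) := by
      rw [← Polynomial.aeval_algHom_apply]
      rfl
    rw [← h4]
    exact h3
  have h2 : ∏ i, minpoly ℚ (y i) ∣ minpoly ℚ y := by
    apply Finset.prod_dvd_of_coprime
    · intro i _ j _ hij
      have hirr : Irreducible (minpoly ℚ (y i)) := minpoly.irreducible (hint i)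
      rcases hirr.isCoprime_or_dvd (minpoly ℚ (y j)) with h | h
      · exact h
      · exfalso
        apply hdist i j hij
        have hirr' : Irreducible (minpoly ℚ (y j)) := minpoly.irreducible (hint j)
        have := hirr.associated_of_dvd hirr' h
        exact Polynomial.eq_of_monic_of_associated (minpoly.monic (hint i))
          (minpoly.monic (hint j)) this
    · intro i _
      exact h1 i
  have h3 := Polynomial.natDegree_le_of_dvd h2 (minpoly.ne_zero hy)
  rw [Polynomial.natDegree_prod_of_monic _ _ (fun i _ => minpoly.monic (hint i))] at h3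
  simp only [hdeg, Finset.sum_const, Finset.card_univ, smul_eq_mul] at h3
  rw [mul_comm]
  exact h3

/-- the number of fields in a class -/
theorem core [Fintype σ] (n : ℕ) (hn : ∀ i, finrank ℚ (L i) = n) (α : ∀ i, σ → L i)
    (hα : ∀ i l, IsIntegral ℤ (α i l)) (w : σ → ℕ) (hw : ∀ l, w l ≠ 0) (R : ℝ) (hR : 1 < R)
    (hhouse : ∀ i l, house (α i l) ≤ R ^ w l) (l0 : σ)
    (hdeg : ∀ i, (minpoly ℚ (α i l0)).natDegree = n)
    (hdist : ∀ i j, i ≠ j → minpoly ℚ (α i l0) ≠ minpoly ℚ (α j l0))
    (p : ℕ) (hp : p.Prime) (k c q J : ℕ) (hpq : R ^ (k * q + 1) ≤ (p : ℝ) ^ q)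
    (I : Ideal (MvPolynomial σ ℤ))
    (hI : ∀ F ∈ I, ∀ i, ∃ u : L i, IsIntegral ℤ u ∧ aeval (α i) F = p • u)
    (hGP : ∀ i < J, ∀ F, ∃ G ∈ PZ σ w (k * i + c), F - G ∈ I ^ (i + 1))
    (hJ : 0 < J) (hJ' : w l0 * (n * Fintype.card ι) ≤ k * (J - 1) + c)
    (hRn : ((n * Fintype.card ι : ℕ) : ℝ) + 1 ≤ R) :
    n * Fintype.card ι ≤
      2 * Nat.card {m : σ →₀ ℕ // Finsupp.weight w m ≤ k * (2 * q * (1 + c) + 1) + c} := by
  classical
  set φ : MvPolynomial σ ℤ →+ (∀ i, L i) := (evA L α : MvPolynomial σ ℤ →+ (∀ i, L i)) with hφ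
  have hφe : ∀ F, φ F = evA L α F := fun F => rfl
  have hint : ∀ (F : MvPolynomial σ ℤ) i, IsIntegral ℤ (aeval (α i) F) := by
    intro F i
    induction F using MvPolynomial.induction_on with
    | C a => rw [aeval_C]; exact isIntegral_algebraMap
    | add F G hF hG => rw [map_add]; exact hF.add hG
    | mul_X F l hF => rw [map_mul, aeval_X]; exact hF.mul (hα i l)
  have hfr : finrank ℚ (∀ i, L i) = n * Fintype.card ι := by
    rw [finrank_pi_fintype]
    simp [hn, mul_comm]
  have hmain := hilb_bound φ (OA L) (fun F i => hint F i) (szA L) (szA_add L) (szA_zsmul L)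
    (fun u hu h0 => szA_one L u hu h0)
    (fun m : σ →₀ ℕ => (monomial m (1 : ℤ) : MvPolynomial σ ℤ)) (fun m => Finsupp.weight w m)
    R hR (by rw [hfr]; exact hRn) (by
      intro m
      apply szA_le L _ _ (pow_nonneg (by linarith) _)
      intro i
      rw [hφe, evA_apply, aeval_monomial, map_one, one_mul, Finsupp.prod_fintype _ _ (by simp)]
      refine (house_prod_pow_le (α i) m).trans ?_
      rw [Finsupp.weight_eq_sum]
      rw [← Finset.prod_pow_eq_pow_sum]
      apply Finset.prod_le_prod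
      · intro l _
        exact pow_nonneg (house_nonneg _) _
      · intro l _
        rw [smul_eq_mul, mul_comm, pow_mul]
        exact pow_le_pow_left₀ (house_nonneg _) (hhouse i l) _)
    p hp k c q J hpq (by
      intro i hi F
      obtain ⟨G, hG, hFG⟩ := hGP i hi F
      exact ⟨G, hG, pow_le_U L α p I hα hI (i + 1) _ hFG⟩)
    (J - 1) (by omega)
  have hlow : n * Fintype.card ι ≤ hf φ (fun m : σ →₀ ℕ => (monomial m (1 : ℤ) : MvPolynomial σ ℤ))
      (fun m => Finsupp.weight w m) (k * (J - 1) + c) := by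
    have h1 := minpoly_deg L n (fun i => α i l0) hdeg hdist
    have h2 := linearIndependent_pow (K := ℚ) (fun i => α i l0 : ∀ i, L i)
    have h3 : LinearIndependent ℚ (fun e : Fin (n * Fintype.card ι) =>
        (fun i => α i l0 : ∀ i, L i) ^ (e : ℕ)) :=
      h2.comp (Fin.castLE h1) (Fin.castLE_injective h1)
    have h4 := finrank_span_eq_card h3
    rw [Fintype.card_fin] at h4
    rw [← h4, hf, WP_eq]
    apply Submodule.finrank_mono
    rw [Submodule.span_le]
    rintro _ ⟨e, rfl⟩
    apply Submodule.subset_span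
    refine ⟨Finsupp.single l0 (e : ℕ), ?_, ?_⟩
    · change Finsupp.weight w (Finsupp.single l0 (e : ℕ)) ≤ _
      rw [Finsupp.weight_single, smul_eq_mul]
      have : (e : ℕ) < n * Fintype.card ι := e.2
      calc (e : ℕ) * w l0 ≤ (n * Fintype.card ι) * w l0 := Nat.mul_le_mul_right _ this.le
        _ = w l0 * (n * Fintype.card ι) := mul_comm _ _
        _ ≤ _ := hJ'
    · change φ (monomial (Finsupp.single l0 (e : ℕ)) 1) = _
      rw [hφe]
      funext i
      rw [evA_apply, aeval_monomial, map_one, one_mul, Finsupp.prod_single_index (by simp)]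
      rfl
  have hfin : Finite {m : σ →₀ ℕ // Finsupp.weight w m ≤ k * (2 * q * (1 + c) + 1) + c} :=
    Finsupp.finite_of_nat_weight_le w hw _
  have hup : hf φ (fun m : σ →₀ ℕ => (monomial m (1 : ℤ) : MvPolynomial σ ℤ))
      (fun m => Finsupp.weight w m) (k * (2 * q * (1 + c) + 1) + c)
      ≤ Nat.card {m : σ →₀ ℕ // Finsupp.weight w m ≤ k * (2 * q * (1 + c) + 1) + c} := by
    have : Fintype {m : σ →₀ ℕ // Finsupp.weight w m ≤ k * (2 * q * (1 + c) + 1) + c} :=
      Fintype.ofFinite _
    rw [hf, WP_eq, Nat.card_eq_fintype_card]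
    have h5 : ((fun a : σ →₀ ℕ => φ (monomial a (1 : ℤ))) ''
        {a | Finsupp.weight w a ≤ k * (2 * q * (1 + c) + 1) + c})
        = Set.range (fun a : {m : σ →₀ ℕ // Finsupp.weight w m ≤ k * (2 * q * (1 + c) + 1) + c} =>
          φ (monomial a.1 (1 : ℤ))) := by
      ext x
      simp
    rw [h5]
    exact finrank_range_le_card _
  calc n * Fintype.card ι ≤ _ := hlow
    _ ≤ _ := hmain
    _ ≤ _ := Nat.mul_le_mul_left _ hup

end core

end Pool.Agent.L5helper40.NF
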