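import Mathlib
import Pool.Agent.L5helper40.NF.C2
import Pool.Agent.W301.LinH2

set_option autoImplicit false

namespace Pool.Agent.L5helper40.NF

open MvPolynomial Module NumberField Pool.Agent.W301.Lin Matrix

section abs

variable {R0 κ : Type*} [CommRing R0] [Field κ] {p : ℕ} [Fact p.Prime] [Algebra (ZMod p) κ] {n : ℕ}

/-- `ω` is a basis up to the factor `δ` -/
def Alm (ω : Fin n → R0) (δ : ℤ) : Prop := ∀ v : R0, ∃ c : Fin n → ℤ, δ • v = ∑ k, c k • ω k

lemma abs_div (ρ : Fin n → R0 →+* κ) (ω : Fin n → R0) (δ : ℤ) (h : Alm ω δ)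
    (hp : ¬ (p : ℤ) ∣ δ) (hli : LinearIndependent κ (fun k j => ρ j (ω k))) (v : R0)
    (hv : ∀ j, ρ j v = 0) : ∃ u : R0, v = p • u := by
  have hch : CharP κ p := charP_of_injective_algebraMap (algebraMap (ZMod p) κ).injective p
  obtain ⟨c, hc⟩ := h v
  have h1 : ∑ k, ((c k : ℤ) : κ) • (fun j => ρ j (ω k)) = 0 := by
    funext j
    have h2 := congrArg (ρ j) hc
    rw [map_zsmul, hv j, smul_zero, map_sum] at h2
    rw [Finset.sum_apply, Pi.zero_apply, h2]
    apply Finset.sum_congr rfl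
    intro k _
    rw [Pi.smul_apply, map_zsmul, zsmul_eq_mul, smul_eq_mul]
  have h2 := Fintype.linearIndependent_iff.1 hli _ h1
  have h3 : ∀ k, (p : ℤ) ∣ c k := fun k => (CharP.intCast_eq_zero_iff κ p (c k)).1 (h2 k)
  choose d hd using h3
  have hcop : IsCoprime (p : ℤ) δ :=
    (Nat.prime_iff_prime_int.1 (Fact.out : p.Prime)).irreducible.coprime_iff_not_dvd.2 hp
  obtain ⟨a, b, hab⟩ := hcop
  refine ⟨a • v + b • ∑ k, d k • ω k, ?_⟩
  have h4 : δ • v = (p : ℤ) • ∑ k, d k • ω k := by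
    rw [hc, Finset.smul_sum]
    apply Finset.sum_congr rfl
    intro k _
    rw [hd k, mul_smul]
  calc v = (a * p + b * δ) • v := by rw [hab, one_smul]
    _ = (p : ℤ) • (a • v) + b • (δ • v) := by
      rw [add_smul, mul_smul, mul_smul, smul_comm]
    _ = (p : ℤ) • (a • v) + (p : ℤ) • (b • ∑ k, d k • ω k) := by
      rw [h4, smul_comm b]
    _ = (p : ℤ) • (a • v + b • ∑ k, d k • ω k) := by rw [smul_add]
    _ = p • (a • v + b • ∑ k, d k • ω k) := by rw [natCast_zsmul]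

lemma abs_comb (ρ : Fin n → R0 →+* κ) (ω : Fin n → R0) (δ : ℤ) (h : Alm ω δ)
    (hp : ¬ (p : ℤ) ∣ δ) (v : R0) :
    ∃ c : Fin n → ZMod p, (fun j => ρ j v) = ∑ k, algebraMap (ZMod p) κ (c k) • (fun j => ρ j (ω k)) := by
  have hch : CharP κ p := charP_of_injective_algebraMap (algebraMap (ZMod p) κ).injective p
  obtain ⟨c, hc⟩ := h v
  have hδ : (δ : ZMod p) ≠ 0 := by
    intro h0
    exact hp ((ZMod.intCast_zmod_eq_zero_iff_dvd _ _).1 h0)
  refine ⟨fun k => (δ : ZMod p)⁻¹ * (c k : ZMod p), ?_⟩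
  funext j
  have h2 := congrArg (ρ j) hc
  rw [map_zsmul, map_sum, zsmul_eq_mul] at h2
  have hδ' : ((δ : ℤ) : κ) ≠ 0 := by
    intro h0
    exact hp ((CharP.intCast_eq_zero_iff κ p δ).1 h0)
  have h3 : ρ j v = ((δ : ℤ) : κ)⁻¹ * ∑ k, ρ j (c k • ω k) := by
    rw [← h2, inv_mul_cancel_left₀ hδ']
  rw [h3, Finset.sum_apply, Finset.mul_sum]
  apply Finset.sum_congr rfl
  intro k _
  rw [Pi.smul_apply, smul_eq_mul, map_mul, map_inv₀, map_intCast, map_intCast, map_zsmul,
    zsmul_eq_mul, mul_assoc]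

lemma abs_rat {σ : Type*} (ρ : Fin n → R0 →+* κ) (ω : Fin n → R0) (δ : ℤ) (h : Alm ω δ)
    (hp : ¬ (p : ℤ) ∣ δ) (hli : LinearIndependent κ (fun k j => ρ j (ω k))) (α : σ → R0) :
    Rat p (fun j l => ρ j (α l)) := by
  refine ⟨fun k j => ρ j (ω k), hli, fun m => ?_⟩
  obtain ⟨c, hc⟩ := abs_comb ρ ω δ h hp (m.prod fun l e => α l ^ e)
  refine ⟨c, ?_⟩
  rw [← hc]
  funext j
  rw [eval_monomial, one_mul, map_finsuppProd]
  simp

lemma abs_eval {σ : Type*} (ρ : Fin n → R0 →+* κ) (ω : Fin n → R0) (δ : ℤ) (h : Alm ω δ)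
    (hp : ¬ (p : ℤ) ∣ δ) (hli : LinearIndependent κ (fun k j => ρ j (ω k))) (α : σ → R0)
    (F : MvPolynomial σ ℤ) (hF : F ∈ It p (fun j l => ρ j (α l))) :
    ∃ u : R0, aeval α F = p • u := by
  apply abs_div ρ ω δ h hp hli
  intro j
  rw [It, Ideal.mem_comap, mem_Ib] at hF
  have h1 := hF j
  rw [MvPolynomial.map_map, eval_map] at h1
  rw [← h1, aeval_def, ← MvPolynomial.coe_eval₂Hom, ← MvPolynomial.coe_eval₂Hom]
  have : (ρ j).comp (eval₂Hom (algebraMap ℤ R0) α) = eval₂Hom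
      ((algebraMap (ZMod p) κ).comp (Int.castRingHom (ZMod p))) fun l => ρ j (α l) := by
    apply MvPolynomial.ringHom_ext
    · intro z
      simp
    · intro l
      simp
  exact RingHom.congr_fun this F

end abs

section nf

variable {L : Type} [Field L] [NumberField L]

/-- the discriminant of a small basis -/
theorem exists_delta {n : ℕ} (hn : finrank ℚ L = n) (ω : Fin n → 𝓞 L)
    (hω : LinearIndependent ℚ fun k => (ω k : L)) (H : ℝ) (hH0 : 0 ≤ H)
    (hH : ∀ k, house (ω k : L) ≤ H) :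
    ∃ δ : ℤ, δ ≠ 0 ∧ |(δ : ℝ)| ≤ n.factorial * (n * (H * H)) ^ n ∧ Alm ω δ ∧
      ∀ (Ω : Type) [Field Ω] [CharZero Ω] [IsAlgClosed Ω] (e : Fin n ≃ (L →+* Ω)),
        (δ : Ω) = (Matrix.of fun k j => e j (ω k : L)).det ^ 2 := by
  classical
  set T : Matrix (Fin n) (Fin n) ℤ := Matrix.of fun i k => Algebra.trace ℤ (𝓞 L) (ω i * ω k) with hT
  have hTQ : ∀ i k, ((T i k : ℤ) : ℚ) = Algebra.trace ℚ L ((ω i : L) * (ω k : L)) := by
    intro i k
    rw [hT, Matrix.of_apply, Algebra.coe_trace_int]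
    simp
  have hTm : T.map (Int.castRingHom ℚ) = Algebra.traceMatrix ℚ (fun k => (ω k : L)) := by
    ext i k
    rw [Matrix.map_apply, Algebra.traceMatrix_apply, Algebra.traceForm_apply]
    exact hTQ i k
  have hdet : ((T.det : ℤ) : ℚ) = Algebra.discr ℚ (fun k => (ω k : L)) := by
    rw [Algebra.discr_def, ← hTm]
    exact RingHom.map_det (Int.castRingHom ℚ) T
  let b : Basis (Fin n) ℚ L := basisOfLinearIndependentOfCardEqFinrank' (fun k => (ω k : L)) hω
    (by simp [hn])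
  have hb : (b : Fin n → L) = fun k => (ω k : L) := by
    simp [b]
  have hdet0 : T.det ≠ 0 := by
    intro h0
    have := Algebra.discr_not_zero_of_basis ℚ b
    rw [hb, ← hdet, h0] at this
    exact this (by simp)
  refine ⟨T.det, hdet0, ?_, ?_, ?_⟩
  · have h1 : ∀ i j, (AbsoluteValue.abs.comp (Int.castRingHom ℝ).injective_int) (T i j) ≤ (n * (H * H) : ℝ) := by
      intro i j
      have h2 : house (Algebra.trace ℚ L ((ω i : L) * (ω j : L))) ≤ (n : ℝ) * (H * H) := by
        refine (house_trace_le _).trans ?_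
        rw [hn]
        apply mul_le_mul_of_nonneg_left _ (Nat.cast_nonneg _)
        exact (house_mul_le _ _).trans (mul_le_mul (hH i) (hH j) (house_nonneg _) hH0)
      rw [← hTQ i j, house_intCast] at h2
      have h3 : (AbsoluteValue.abs.comp (Int.castRingHom ℝ).injective_int) (T i j) = |((T i j : ℤ) : ℝ)| := rfl
      rw [h3]
      exact_mod_cast h2
    have h2 := Matrix.det_le h1
    rw [Fintype.card_fin, nsmul_eq_mul] at h2
    exact h2
  · intro v
    -- the coordinates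
    set a := b.repr (v : L) with ha
    have hv : (v : L) = ∑ k, a k • (ω k : L) := by
      have := b.sum_repr (v : L)
      rw [hb] at this
      exact this.symm
    set t : Fin n → ℤ := fun i => Algebra.trace ℤ (𝓞 L) (ω i * v) with ht
    have htQ : ∀ i, ((t i : ℤ) : ℚ) = ∑ k, ((T i k : ℤ) : ℚ) * a k := by
      intro i
      have h7 : ((ω i * v : 𝓞 L) : L) = (ω i : L) * (v : L) := by simp
      have h8 : ((t i : ℤ) : ℚ) = Algebra.trace ℚ L ((ω i * v : 𝓞 L) : L) := Algebra.coe_trace_int _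
      rw [h8, h7, hv, Finset.mul_sum, map_sum]
      apply Finset.sum_congr rfl
      intro k _
      rw [hTQ, mul_smul_comm, map_smul, smul_eq_mul, mul_comm]
    refine ⟨T.adjugate *ᵥ t, ?_⟩
    have h1 : ∀ k, (((T.adjugate *ᵥ t) k : ℤ) : ℚ) = ((T.det : ℤ) : ℚ) * a k := by
      intro k
      have h2 : T.adjugate.map (Int.castRingHom ℚ) * T.map (Int.castRingHom ℚ)
          = ((T.det : ℤ) : ℚ) • (1 : Matrix (Fin n) (Fin n) ℚ) := by
        rw [← Matrix.map_mul, Matrix.adjugate_mul]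
        ext i j
        rw [Matrix.map_apply, Matrix.smul_apply, Matrix.smul_apply, smul_eq_mul, smul_eq_mul,
          Matrix.one_apply, Matrix.one_apply]
        split_ifs <;> simp
      have h3 : (fun i => ((t i : ℤ) : ℚ)) = T.map (Int.castRingHom ℚ) *ᵥ a := by
        funext i
        rw [htQ i]
        rfl
      have h4 : (((T.adjugate *ᵥ t) k : ℤ) : ℚ)
          = (T.adjugate.map (Int.castRingHom ℚ) *ᵥ (fun i => ((t i : ℤ) : ℚ))) k := by
        simp [Matrix.mulVec, dotProduct]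
      rw [h4, h3, Matrix.mulVec_mulVec, h2, Matrix.smul_mulVec, Matrix.one_mulVec]
      rfl
    apply RingOfIntegers.coe_injective
    rw [map_zsmul, map_sum]
    have h5 : ∀ k, (algebraMap (𝓞 L) L) ((T.adjugate *ᵥ t) k • ω k)
        = (((T.det : ℤ) : ℚ) * a k) • (ω k : L) := by
      intro k
      rw [map_zsmul, ← h1 k, Int.cast_smul_eq_zsmul]
    rw [Finset.sum_congr rfl fun k _ => h5 k]
    have h6 : (T.det : ℤ) • (v : L) = ((T.det : ℤ) : ℚ) • (v : L) := (Int.cast_smul_eq_zsmul ℚ _ _).symm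
    rw [h6]
    conv_lhs => rw [hv]
    rw [Finset.smul_sum]
    apply Finset.sum_congr rfl
    intro k _
    rw [mul_smul]
  · intro Ω _ _ _ e
    have h1 := Algebra.discr_eq_det_embeddingsMatrixReindex_pow_two ℚ Ω (fun k => (ω k : L))
      (e.trans (RingHom.equivRatAlgHom L Ω))
    rw [← hdet] at h1
    rw [map_intCast] at h1
    exact h1

end nf

end Pool.Agent.L5helper40.NF
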