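import Mathlib
import Pool.Agent.L5helper40.NF.D2
import Pool.Agent.L5helper40.NF.B3

set_option autoImplicit false

namespace Pool.Agent.L5helper40.NF

open MvPolynomial Module NumberField Pool.Agent.W301.Lin Matrix

section residue

lemma exists_residue (Ω : Type) [Field Ω] [CharZero Ω] (p : ℕ) [hp : Fact p.Prime] :
    ∃ (κ : Type) (_ : Field κ) (_ : Algebra (ZMod p) κ),
      Nonempty (integralClosure ℤ Ω →+* κ) := by
  have hpp : Prime (p : ℤ) := Nat.prime_iff_prime_int.1 hp.out
  have hmax : (Ideal.span {(p : ℤ)}).IsMaximal :=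
    ((Ideal.span_singleton_prime hpp.ne_zero).mpr hpp).isMaximal (by simpa using hpp.ne_zero)
  obtain ⟨Q, hQ, e⟩ := Ideal.exists_ideal_over_maximal_of_isIntegral
    (S := integralClosure ℤ Ω) (Ideal.span {(p : ℤ)}) (by
      intro x hx
      rw [RingHom.mem_ker] at hx
      have h1 : algebraMap ℤ Ω x = 0 := by
        rw [IsScalarTower.algebraMap_apply ℤ (integralClosure ℤ Ω) Ω, hx, map_zero]
      have h2 : x = 0 := by simpa using h1
      rw [h2]
      exact Ideal.zero_mem _)
  let _ := Ideal.Quotient.field Q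
  have hc : CharP (integralClosure ℤ Ω ⧸ Q) p := by
    rw [CharP.charP_iff_prime_eq_zero hp.out]
    have h1 : (p : ℤ) ∈ Q.comap (algebraMap ℤ (integralClosure ℤ Ω)) := by
      rw [e]
      exact Ideal.mem_span_singleton_self _
    rw [Ideal.mem_comap] at h1
    have h2 := Ideal.Quotient.eq_zero_iff_mem.2 h1
    simpa using h2
  exact ⟨_, Ideal.Quotient.field Q, ZMod.algebra _ p, ⟨Ideal.Quotient.mk Q⟩⟩

variable {Ω κ : Type} [Field Ω] [CharZero Ω] [Field κ] (π : integralClosure ℤ Ω →+* κ)
  {L : Type} [Field L]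

/-- an embedding on the ring of integers -/
noncomputable def emb (τ : L →+* Ω) : 𝓞 L →+* integralClosure ℤ Ω :=
  (τ.comp (algebraMap (𝓞 L) L)).codRestrict (integralClosure ℤ Ω) fun x =>
    (x.2 : IsIntegral ℤ (x : L)).map τ.toIntAlgHom

omit [CharZero Ω] in
lemma emb_coe (τ : L →+* Ω) (x : 𝓞 L) : ((emb τ x : integralClosure ℤ Ω) : Ω) = τ (x : L) := rfl

/-- the residue of an embedding -/
noncomputable def rho (τ : L →+* Ω) : 𝓞 L →+* κ := π.comp (emb τ)

lemma li_rho {p : ℕ} [Fact p.Prime] [Algebra (ZMod p) κ] {n : ℕ} (ω : Fin n → 𝓞 L) (δ : ℤ)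
    (e : Fin n ≃ (L →+* Ω))
    (hδ : (δ : Ω) = (Matrix.of fun k j => e j (ω k : L)).det ^ 2) (hp : ¬ (p : ℤ) ∣ δ) :
    LinearIndependent κ (fun k j => rho π (e j) (ω k)) := by
  have hch : CharP κ p := charP_of_injective_algebraMap (algebraMap (ZMod p) κ).injective p
  set M : Matrix (Fin n) (Fin n) (integralClosure ℤ Ω) := Matrix.of fun k j => emb (e j) (ω k) with hM
  have h1 : M.det ^ 2 = ((δ : ℤ) : integralClosure ℤ Ω) := by
    apply Subtype.coe_injective
    have h2 : (algebraMap (integralClosure ℤ Ω) Ω) M.det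
        = (Matrix.of fun k j => e j (ω k : L)).det := by
      rw [RingHom.map_det]
      rfl
    have h3 : ((M.det ^ 2 : integralClosure ℤ Ω) : Ω) = ((algebraMap (integralClosure ℤ Ω) Ω) M.det) ^ 2 := by
      rw [← map_pow]
      rfl
    change ((M.det ^ 2 : integralClosure ℤ Ω) : Ω) = _
    rw [h3, h2, ← hδ]
    simp
  have h2 : (M.map π).det ^ 2 = ((δ : ℤ) : κ) := by
    have := congrArg π h1
    rw [map_pow, RingHom.map_det, map_intCast] at this
    exact this
  have h3 : (M.map π).det ≠ 0 := by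
    intro h0
    rw [h0, zero_pow (by norm_num)] at h2
    exact hp ((CharP.intCast_eq_zero_iff κ p δ).1 h2.symm)
  have h4 : IsUnit (M.map π) := by
    rw [Matrix.isUnit_iff_isUnit_det]
    exact Ne.isUnit h3
  exact Matrix.linearIndependent_rows_iff_isUnit.2 h4

end residue

section choice

variable {κ : Type} [Field κ]

/-- existence of a good point for a family of conjugate vectors -/
theorem exists_T {n : ℕ} (k r J : ℕ) (hk : 0 < k) (hn : n ≤ k ^ r) (l0 : Fin r)
    (Y : Matrix (Fin n) (Fin n) κ) (hY : LinearIndependent κ fun i => Y i)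
    (hinj : Set.InjOn (Nat.cast : ℕ → κ) (Set.Iic (Bd (Fin r) n k (r * (k - 1)) J + n * n + k))) :
    ∃ T : Fin r → Fin n → ℕ, (∀ l i, T l i ≤ Bd (Fin r) n k (r * (k - 1)) J + n * n) ∧
      (Function.Injective fun j => ∑ i, (T l0 i : κ) * Y i j) ∧
      ∀ i < J, ∀ F : MvPolynomial (Fin r) κ, ∃ G ∈ Wd κ (fun _ : Fin r => 1) (k * i + r * (k - 1)),
        ∀ j, F - G ∈ mI (fun l => ∑ i, (T l i : κ) * Y i j) ^ (i + 1) := by
  classical
  have hYu : IsUnit Y := Matrix.linearIndependent_rows_iff_isUnit.1 hY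
  set Z : Fin n → Fin r → MvPolynomial (Fin r × Fin n) κ := fun j l => ∑ i, C (Y i j) * X (l, i) with hZ
  have hZe : ∀ (T : Fin r × Fin n → κ) j l, eval T (Z j l) = ∑ i, T (l, i) * Y i j := by
    intro T j l
    rw [hZ]
    simp only
    rw [map_sum]
    apply Finset.sum_congr rfl
    intro i _
    simp [mul_comm]
  have hZd : ∀ j l, (Z j l).totalDegree ≤ 1 := by
    intro j l
    apply totalDegree_finsetSum_le
    intro i _
    refine (totalDegree_mul _ _).trans ?_
    rw [totalDegree_C, totalDegree_X]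
  -- the separating polynomial
  set Q : MvPolynomial (Fin r × Fin n) κ :=
    ∏ a ∈ (Finset.univ : Finset (Fin n × Fin n)).filter (fun a => a.1 ≠ a.2), (Z a.1 l0 - Z a.2 l0) with hQ
  have hQ0 : Q ≠ 0 := by
    rw [hQ, Finset.prod_ne_zero_iff]
    intro a ha h0
    have hne : a.1 ≠ a.2 := (Finset.mem_filter.1 ha).2
    apply hne
    have hcol : ∀ i, Y i a.1 = Y i a.2 := by
      intro i
      have h1 := congrArg (eval (fun b : Fin r × Fin n => if b = (l0, i) then (1 : κ) else 0)) h0
      rw [map_sub, map_zero, hZe, hZe, sub_eq_zero] at h1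
      rw [Finset.sum_eq_single i, Finset.sum_eq_single i] at h1
      · simpa using h1
      · intro b _ hb
        rw [if_neg, zero_mul]
        intro h
        exact hb (congrArg Prod.snd h)
      · intro h
        exact absurd (Finset.mem_univ _) h
      · intro b _ hb
        rw [if_neg, zero_mul]
        intro h
        exact hb (congrArg Prod.snd h)
      · intro h
        exact absurd (Finset.mem_univ _) h
    by_contra hne'
    have h2 : Y.det = 0 := Matrix.det_zero_of_column_eq hne' hcol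
    rw [Matrix.isUnit_iff_isUnit_det, h2] at hYu
    exact not_isUnit_zero hYu
  have hQd : Q.totalDegree ≤ n * n := by
    refine (totalDegree_finsetProd _ _).trans ?_
    calc ∑ a ∈ (Finset.univ : Finset (Fin n × Fin n)).filter (fun a => a.1 ≠ a.2),
          (Z a.1 l0 - Z a.2 l0).totalDegree
        ≤ ∑ _a ∈ (Finset.univ : Finset (Fin n × Fin n)).filter (fun a => a.1 ≠ a.2), 1 := by
          apply Finset.sum_le_sum
          intro a _
          exact (totalDegree_sub _ _).trans (max_le (hZd _ _) (hZd _ _))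
      _ = ((Finset.univ : Finset (Fin n × Fin n)).filter (fun a => a.1 ≠ a.2)).card := by simp
      _ ≤ (Finset.univ : Finset (Fin n × Fin n)).card := Finset.card_filter_le _ _
      _ = n * n := by simp
  -- the grid
  have hgrid : ∃ g : Fin n → Fin r → Fin k, Function.Injective g := by
    have h1 : Fintype.card (Fin n) ≤ Fintype.card (Fin r → Fin k) := by simpa using hn
    obtain ⟨f⟩ := Function.Embedding.nonempty_of_card_le h1
    exact ⟨f, f.injective⟩
  obtain ⟨g, hg⟩ := hgrid
  have hki : Set.InjOn (Nat.cast : ℕ → κ) (Set.Iic k) := hinj.mono (Set.Iic_subset_Iic.2 (by omega))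
  have hT0 : ∀ i < J, ∃ T0 : Fin r × Fin n → κ,
      Surj (fun j : Fin n × Ex (Fin r) i => fun l => eval T0 (Z j.1 l))
      (fun j => opH j.2.1) {m | Finsupp.weight (fun _ : Fin r => 1) m ≤ k * i + r * (k - 1)} := by
    intro i _
    have hsolve : ∀ l : Fin r, ∃ t : Fin n → κ, ∀ j, ∑ i, t i * Y i j = ((g j l : ℕ) : κ) := by
      intro l
      refine ⟨(fun j => ((g j l : ℕ) : κ)) ᵥ* Y⁻¹, ?_⟩
      have h1 : ((fun j => ((g j l : ℕ) : κ)) ᵥ* Y⁻¹) ᵥ* Y = fun j => ((g j l : ℕ) : κ) := by
        rw [Matrix.vecMul_vecMul, Matrix.nonsing_inv_mul _ ((Matrix.isUnit_iff_isUnit_det _).1 hYu),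
          Matrix.vecMul_one]
      intro j
      exact congrFun h1 j
    choose t ht using hsolve
    refine ⟨fun b => t b.1 b.2, ?_⟩
    have h2 : (fun j : Fin n × Ex (Fin r) i => fun l => eval (fun b => t b.1 b.2) (Z j.1 l))
        = fun j => (fun (j : Fin n) (l : Fin r) => ((g j l : ℕ) : κ)) j.1 := by
      funext j l
      rw [hZe]
      exact ht l j.1
    rw [h2]
    have h3 := grid_surj (κ := κ) (σ := Fin r) (n := n) (fun _ => 1) (fun _ => k) k
      (fun l => by omega) (fun _ => (Finset.range k).image (Nat.cast : ℕ → κ)) (by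
        intro l
        rw [Finset.card_image_of_injOn, Finset.card_range]
        intro a ha b hb hab
        rw [Finset.mem_coe, Finset.mem_range] at ha hb
        exact hki (Set.mem_Iic.2 ha.le) (Set.mem_Iic.2 hb.le) hab)
      (fun (j : Fin n) (l : Fin r) => ((g j l : ℕ) : κ)) (by
        intro a b hab
        apply hg
        funext l
        apply Fin.ext
        have h4 := congrFun hab l
        exact hki (Set.mem_Iic.2 (g a l).2.le) (Set.mem_Iic.2 (g b l).2.le) h4)
      (by
        intro j l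
        exact Finset.mem_image_of_mem _ (Finset.mem_range.2 (g j l).2)) i
    simpa using h3
  obtain ⟨T, hT1, hT2, hT3⟩ := exists_good (fun _ : Fin r => 1) (fun _ => le_rfl) k (r * (k - 1)) J Z hZd
    Q hQ0 (n * n) hQd hT0 (hinj.mono (Set.Iic_subset_Iic.2 (by omega)))
  refine ⟨fun l i => T (l, i), fun l i => hT1 _, ?_, ?_⟩
  · intro a b hab
    by_contra hne
    rw [hQ, map_prod, Finset.prod_ne_zero_iff] at hT2
    apply hT2 (a, b) (Finset.mem_filter.2 ⟨Finset.mem_univ _, hne⟩)
    rw [map_sub, hZe, hZe, sub_eq_zero]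
    exact hab
  · intro i hi F
    have h1 := hT3 i hi
    have h2 : (fun j : Fin n × Ex (Fin r) i => fun l => eval (fun p => (T p : κ)) (Z j.1 l))
        = fun j => (fun (j : Fin n) (l : Fin r) => ∑ i, (T (l, i) : κ) * Y i j) j.1 := by
      funext j l
      rw [hZe]
    rw [h2] at h1
    exact surj_iff_red (fun (j : Fin n) (l : Fin r) => ∑ i, (T (l, i) : κ) * Y i j) i _ _ h1 F

end choice

end Pool.Agent.L5helper40.NF
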