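import Mathlib
import Pool.Agent.L5helper40.NF.D1
import Pool.Agent.L5helper40.NF.D3

set_option autoImplicit false

namespace Pool.Agent.L5helper40.NF

open MvPolynomial Module NumberField Pool.Agent.W301.Lin Matrix

/-- the ideal of a class -/
noncomputable def Ic {n r : ℕ} (p : ℕ) [Fact p.Prime] (l0 : Fin r) (c : Fin r → Fin n → ZMod p) :
    Ideal (MvPolynomial (Fin r) ℤ) := (Je l0 c).comap (rd (Fin r) p)

/-- a tuple of integers of the field `L` belongs to the class -/
def Cls {n r : ℕ} (k J : ℕ) (R : ℝ) (p : ℕ) [Fact p.Prime] (l0 : Fin r)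
    (c : Fin r → Fin n → ZMod p) (L : Type) [Field L] [NumberField L] (α : Fin r → L) : Prop :=
  (∀ l, IsIntegral ℤ (α l)) ∧ (∀ l, house (α l) ≤ R) ∧ (minpoly ℚ (α l0)).natDegree = n ∧
  (∀ F ∈ Ic p l0 c, ∃ u : L, IsIntegral ℤ u ∧ aeval α F = p • u) ∧
  (∀ i < J, ∀ F : MvPolynomial (Fin r) ℤ, ∃ G ∈ PZ (Fin r) (fun _ => 1) (k * i + r * (k - 1)),
    F - G ∈ (Ic p l0 c) ^ (i + 1))

lemma natDegree_of_inj {L : Type} [Field L] [NumberField L] {n : ℕ} (hn : finrank ℚ L = n)
    (e : Fin n → (L →+* ℂ)) (a : L) (h : Function.Injective fun j => e j a) :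
    (minpoly ℚ a).natDegree = n := by
  classical
  apply le_antisymm
  · rw [← hn]
    exact minpoly.natDegree_le a
  · have hint : IsIntegral ℚ a := Algebra.IsIntegral.isIntegral _
    have h1 : ∀ j, e j a ∈ ((minpoly ℚ a).aroots ℂ).toFinset := by
      intro j
      rw [Multiset.mem_toFinset, Polynomial.mem_aroots]
      refine ⟨minpoly.ne_zero hint, ?_⟩
      have h2 := Polynomial.aeval_algHom_apply (RingHom.equivRatAlgHom L ℂ (e j)) a (minpoly ℚ a)
      rw [minpoly.aeval, map_zero] at h2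
      exact h2
    have h2 : n ≤ ((minpoly ℚ a).aroots ℂ).toFinset.card := by
      have h3 := Finset.card_le_card_of_injOn (s := (Finset.univ : Finset (Fin n)))
        (t := ((minpoly ℚ a).aroots ℂ).toFinset) (fun j => e j a) (fun j _ => h1 j) h.injOn
      simpa using h3
    refine h2.trans ((Multiset.toFinset_card_le _).trans ?_)
    refine (Polynomial.card_roots' _).trans ?_
    exact Polynomial.natDegree_map_le

theorem exists_cls {n : ℕ} (k r J : ℕ) (hk : 0 < k) (hn0 : 0 < n) (hn : n ≤ k ^ r) (l0 : Fin r)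
    (p : ℕ) [Fact p.Prime]
    (hpB : Bd (Fin r) n k (r * (k - 1)) J + n * n + k < p)
    (L : Type) [Field L] [NumberField L] (hfin : finrank ℚ L = n)
    (ω : Fin n → 𝓞 L) (δ : ℤ) (hAlm : Alm ω δ)
    (hδ : ∀ e : Fin n ≃ (L →+* ℂ), (δ : ℂ) = (Matrix.of fun k j => e j (ω k : L)).det ^ 2)
    (hp : ¬ (p : ℤ) ∣ δ) (H R : ℝ) (hH : ∀ k, house (ω k : L) ≤ H)
    (hR : n * ((Bd (Fin r) n k (r * (k - 1)) J + n * n : ℕ) : ℝ) * H ≤ R) :
    ∃ (c : Fin r → Fin n → ZMod p) (α : Fin r → L), Cls k J R p l0 c L α := by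
  classical
  obtain ⟨κ, _, _, ⟨π⟩⟩ := exists_residue ℂ p
  have hch : CharP κ p := charP_of_injective_algebraMap (algebraMap (ZMod p) κ).injective p
  have hcard : Fintype.card (Fin n) = Fintype.card (L →+* ℂ) := by
    rw [Embeddings.card, hfin, Fintype.card_fin]
  let e : Fin n ≃ (L →+* ℂ) := Fintype.equivOfCardEq hcard
  have hli := li_rho π ω δ e (hδ e) hp
  set Y : Matrix (Fin n) (Fin n) κ := Matrix.of fun i j => rho π (e j) (ω i) with hY
  have hinj : Set.InjOn (Nat.cast : ℕ → κ)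
      (Set.Iic (Bd (Fin r) n k (r * (k - 1)) J + n * n + k)) := by
    apply (CharP.natCast_injOn_Iio κ p).mono
    intro x hx
    exact Set.mem_Iio.2 (lt_of_le_of_lt (Set.mem_Iic.1 hx) hpB)
  obtain ⟨T, hT1, hT2, hT3⟩ := exists_T k r J hk hn l0 Y hli hinj
  set α : Fin r → 𝓞 L := fun l => ∑ i, (T l i : 𝓞 L) * ω i with hα
  have hz : ∀ j l, rho π (e j) (α l) = ∑ i, (T l i : κ) * Y i j := by
    intro j l
    rw [hα, map_sum]
    apply Finset.sum_congr rfl
    intro i _
    rw [map_mul, map_natCast]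
    rfl
  have hzz : (fun (j : Fin n) (l : Fin r) => rho π (e j) (α l))
      = fun j l => ∑ i, (T l i : κ) * Y i j := by
    funext j l
    exact hz j l
  have hrat := abs_rat (fun j => rho π (e j)) ω δ hAlm hp hli α
  have hzinj : Function.Injective fun j => rho π (e j) (α l0) := by
    have : (fun j => rho π (e j) (α l0)) = fun j => ∑ i, (T l0 i : κ) * Y i j := by
      funext j
      exact hz j l0
    rw [this]
    exact hT2
  obtain ⟨c, hc⟩ := Ib_eq_Je l0 hn0 (fun j l => rho π (e j) (α l)) hzinj hrat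
  have hI : It p (fun j l => rho π (e j) (α l)) = Ic p l0 c := by
    rw [It, hc]
    rfl
  refine ⟨c, fun l => (α l : L), fun l => RingOfIntegers.isIntegral_coe _, ?_, ?_, ?_, ?_⟩
  · intro l
    have h1 : ((α l : 𝓞 L) : L) = ∑ i, (T l i : L) * (ω i : L) := by
      rw [hα]
      simp
    change house ((α l : 𝓞 L) : L) ≤ R
    rw [h1]
    exact (house_comb_le (fun i => (ω i : L)) (T l) _ H (hT1 l) hH).trans hR
  · apply natDegree_of_inj hfin (fun j => e j)
    intro a b hab
    apply hzinj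
    have h1 : emb (e a) (α l0) = emb (e b) (α l0) := Subtype.ext hab
    change π (emb (e a) (α l0)) = π (emb (e b) (α l0))
    rw [h1]
  · intro F hF
    rw [← hI] at hF
    obtain ⟨u, hu⟩ := abs_eval (fun j => rho π (e j)) ω δ hAlm hp hli α F hF
    refine ⟨(u : L), RingOfIntegers.isIntegral_coe _, ?_⟩
    have h1 := congrArg (algebraMap (𝓞 L) L) hu
    rw [map_nsmul] at h1
    rw [← h1]
    exact (MvPolynomial.aeval_algebraMap_apply L α F)
  · intro i hi F
    rw [← hI]
    apply red_int (fun j l => rho π (e j) (α l)) (fun _ => 1) k (r * (k - 1)) J _ i hi F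
    intro i hi F
    apply red_prime (fun j l => rho π (e j) (α l)) _ hrat i (fun _ => 1) _ _ F
    · intro a b hab
      exact hzinj (congrFun hab l0)
    · intro F
      obtain ⟨G, hG, hFG⟩ := hT3 i hi F
      refine ⟨G, hG, fun j => ?_⟩
      have h1 : (fun l => rho π (e j) (α l)) = fun l => ∑ i, (T l i : κ) * Y i j := by
        funext l
        exact hz j l
      rw [h1]
      exact hFG j

end Pool.Agent.L5helper40.NF
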