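import Mathlib
import Pool.Agent.L5helper40.NF.D4

set_option autoImplicit false

namespace Pool.Agent.L5helper40.NF

open Module NumberField Pool.Agent.W301.Lin

section cls

variable {Ω : Type} [Field Ω] [CharZero Ω]

lemma le_of_gen (F F' : Subfield Ω) [NumberField F] (a : F)
    (h : (minpoly ℚ a).natDegree = finrank ℚ F) (ha : (a : Ω) ∈ F') : F ≤ F' := by
  intro x hx
  have hint : IsIntegral ℚ a := Algebra.IsIntegral.isIntegral _
  have h1 : IntermediateField.adjoin ℚ {a} = (⊤ : IntermediateField ℚ F) :=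
    (Field.primitive_element_iff_minpoly_natDegree_eq ℚ a).2 h
  have h2 : (⟨x, hx⟩ : F) ∈ IntermediateField.adjoin ℚ {a} := by
    rw [h1]
    exact IntermediateField.mem_top
  rw [← IntermediateField.mem_toSubalgebra,
    IntermediateField.adjoin_simple_toSubalgebra_of_isAlgebraic hint.isAlgebraic,
    Algebra.adjoin_singleton_eq_range_aeval] at h2
  obtain ⟨P, hP⟩ := h2
  have hP : Polynomial.aeval a P = (⟨x, hx⟩ : F) := hP
  have h3 : x = ∑ i ∈ Finset.range (P.natDegree + 1), ((P.coeff i : ℚ) : Ω) * (a : Ω) ^ i := by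
    have h4 := congrArg (F.subtype) hP
    rw [Polynomial.aeval_eq_sum_range, map_sum] at h4
    change _ = x at h4
    rw [← h4]
    apply Finset.sum_congr rfl
    intro i _
    rw [Algebra.smul_def, map_mul, map_pow, eq_ratCast, map_ratCast]
    rfl
  rw [h3]
  refine sum_mem fun i _ => mul_mem ?_ (pow_mem ha i)
  exact SubfieldClass.ratCast_mem F' _

variable {n r : ℕ} (k J : ℕ) (R : ℝ) (p : ℕ) [Fact p.Prime] (l0 : Fin r)
  (c : Fin r → Fin n → ZMod p)

/-- the number of monomials in the class bound -/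
noncomputable def N0 (r k q : ℕ) : ℕ :=
  Nat.card {m : Fin r →₀ ℕ //
    Finsupp.weight (fun _ : Fin r => 1) m ≤ k * (2 * q * (1 + r * (k - 1)) + 1) + r * (k - 1)}

/-- the number of fields of a class -/
theorem card_cls (q : ℕ) (hk : 0 < k) (hn0 : 0 < n) (hR : 1 < R)
    (hpq : R ^ (k * q + 1) ≤ (p : ℝ) ^ q) (hJ : n * (2 * N0 r k q + 1) + 1 ≤ J)
    (hRn : ((n * (2 * N0 r k q + 1) : ℕ) : ℝ) + 1 ≤ R)
    (T : Finset (Subfield Ω))
    (hT : ∀ F ∈ T, ∃ _ : NumberField F, finrank ℚ F = n ∧
      ∃ α : Fin r → F, Cls k J R p l0 c F α) :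
    T.card ≤ n * (2 * N0 r k q) := by
  classical
  choose hNF hfin α hα using hT
  set g : {F // F ∈ T} → Polynomial ℚ := fun F =>
    @minpoly ℚ F.1 _ _ (@DivisionRing.toRatAlgebra _ _ (hNF F.1 F.2).to_charZero) (α F.1 F.2 l0)
    with hg
  have h1 : (Finset.univ.image g).card ≤ 2 * N0 r k q := by
    by_contra hlt
    push Not at hlt
    obtain ⟨S, hS1, hS2⟩ := Finset.exists_subset_card_eq (Nat.succ_le_of_lt hlt)
    have h2 : ∀ P : {P // P ∈ S}, ∃ F : {F // F ∈ T}, g F = P.1 := by
      intro P
      obtain ⟨F, _, hF⟩ := Finset.mem_image.1 (hS1 P.2)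
      exact ⟨F, hF⟩
    choose s hs using h2
    have hinst : ∀ i : {P // P ∈ S}, NumberField (s i).1 := fun i => hNF (s i).1 (s i).2
    have hcard : Fintype.card {P // P ∈ S} = 2 * N0 r k q + 1 := by
      rw [Fintype.card_coe, hS2]
    have h3 := core (ι := Fin (2 * N0 r k q + 1))
      (fun i => (s ((Fintype.equivFinOfCardEq hcard).symm i)).1) n
      (fun i => hfin _ (s ((Fintype.equivFinOfCardEq hcard).symm i)).2)
      (fun i => α _ (s ((Fintype.equivFinOfCardEq hcard).symm i)).2)
      (fun i l => (hα _ (s ((Fintype.equivFinOfCardEq hcard).symm i)).2).1 l)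
      (fun _ => 1) (fun _ => one_ne_zero) R hR
      (fun i l => by
        rw [pow_one]
        exact (hα _ (s ((Fintype.equivFinOfCardEq hcard).symm i)).2).2.1 l) l0
      (fun i => (hα _ (s ((Fintype.equivFinOfCardEq hcard).symm i)).2).2.2.1)
      (fun i j hij h => by
        have e1 := hs ((Fintype.equivFinOfCardEq hcard).symm i)
        have e2 := hs ((Fintype.equivFinOfCardEq hcard).symm j)
        apply hij
        apply (Fintype.equivFinOfCardEq hcard).symm.injective
        apply Subtype.ext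
        rw [← e1, ← e2]
        exact h)
      p Fact.out k (r * (k - 1)) q J hpq (Ic p l0 c)
      (fun F hF i => (hα _ (s ((Fintype.equivFinOfCardEq hcard).symm i)).2).2.2.2.1 F hF)
      (by
        have e0 : 0 < 2 * N0 r k q + 1 := Nat.succ_pos _
        exact (hα _ (s ((Fintype.equivFinOfCardEq hcard).symm ⟨0, e0⟩)).2).2.2.2.2)
      (by omega)
      (by
        rw [Fintype.card_fin, one_mul]
        have : n * (2 * N0 r k q + 1) ≤ J - 1 := by omega
        calc n * (2 * N0 r k q + 1) ≤ J - 1 := this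
          _ ≤ k * (J - 1) := Nat.le_mul_of_pos_left _ hk
          _ ≤ _ := Nat.le_add_right _ _)
      (by rw [Fintype.card_fin]; exact hRn)
    rw [Fintype.card_fin] at h3
    have h4 : 2 * N0 r k q + 1 ≤ n * (2 * N0 r k q + 1) := Nat.le_mul_of_pos_left _ hn0
    have h5 : n * (2 * N0 r k q + 1) ≤ 2 * N0 r k q := h3
    omega
  have h2 : ∀ P ∈ Finset.univ.image g, (Finset.univ.filter fun F => g F = P).card ≤ n := by
    intro P hP
    have h3 : (Finset.univ.filter fun F => g F = P).card ≤ (P.aroots Ω).toFinset.card := by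
      apply Finset.card_le_card_of_injOn (fun F => (α F.1 F.2 l0 : Ω))
      · intro F hF
        have hF' : g F = P := (Finset.mem_filter.1 hF).2
        rw [Finset.mem_coe, Multiset.mem_toFinset, Polynomial.mem_aroots]
        have := hNF F.1 F.2
        have hint : IsIntegral ℚ (α F.1 F.2 l0) := Algebra.IsIntegral.isIntegral _
        have e1 : minpoly ℚ (α F.1 F.2 l0) = P := hF'
        refine ⟨?_, ?_⟩
        · rw [← e1]
          exact minpoly.ne_zero hint
        · have e2 := Polynomial.aeval_algHom_apply (RingHom.equivRatAlgHom F.1 Ω F.1.subtype)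
            (α F.1 F.2 l0) (minpoly ℚ (α F.1 F.2 l0))
          rw [minpoly.aeval, map_zero, e1] at e2
          exact e2
      · intro F hF F' hF' heq
        have i1 := hNF F.1 F.2
        have i2 := hNF F'.1 F'.2
        have heq' : ((α F.1 F.2 l0 : F.1) : Ω) = ((α F'.1 F'.2 l0 : F'.1) : Ω) := heq
        apply Subtype.ext
        apply le_antisymm
        · apply le_of_gen F.1 F'.1 (α F.1 F.2 l0)
          · rw [hfin F.1 F.2]
            exact (hα F.1 F.2).2.2.1
          · rw [heq']
            exact (α F'.1 F'.2 l0).2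
        · apply le_of_gen F'.1 F.1 (α F'.1 F'.2 l0)
          · rw [hfin F'.1 F'.2]
            exact (hα F'.1 F'.2).2.2.1
          · rw [← heq']
            exact (α F.1 F.2 l0).2
    refine h3.trans ((Multiset.toFinset_card_le _).trans ?_)
    refine (Polynomial.card_roots' _).trans (Polynomial.natDegree_map_le.trans ?_)
    obtain ⟨F, _, hF⟩ := Finset.mem_image.1 hP
    rw [← hF]
    exact (hα F.1 F.2).2.2.1.le
  have h3 := Finset.card_le_mul_card_image (f := g) Finset.univ n (fun P hP => h2 P hP)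
  rw [Finset.card_univ, Fintype.card_coe] at h3
  exact h3.trans (Nat.mul_le_mul_left _ h1)

end cls

end Pool.Agent.L5helper40.NF
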