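import Mathlib
import Pool.Agent.L5helper40.NF.D5

set_option autoImplicit false

namespace Pool.Agent.L5helper40.NF

open Module NumberField Pool.Agent.W301.Lin

section count

variable {Ω : Type} [Field Ω] [CharZero Ω]

/-- the number of fields which have a class at the prime `p` -/
theorem card_prime {n r : ℕ} (k J : ℕ) (R : ℝ) (p : ℕ) [Fact p.Prime] (l0 : Fin r)
    (q : ℕ) (hk : 0 < k) (hn0 : 0 < n) (hR : 1 < R)
    (hpq : R ^ (k * q + 1) ≤ (p : ℝ) ^ q) (hJ : n * (2 * N0 r k q + 1) + 1 ≤ J)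
    (hRn : ((n * (2 * N0 r k q + 1) : ℕ) : ℝ) + 1 ≤ R)
    (T : Finset (Subfield Ω))
    (hT : ∀ F ∈ T, ∃ _ : NumberField F, finrank ℚ F = n ∧
      ∃ (c : Fin r → Fin n → ZMod p) (α : Fin r → F), Cls k J R p l0 c F α) :
    T.card ≤ n * (2 * N0 r k q) * p ^ (r * n) := by
  classical
  choose hNF hfin c α hα using hT
  set g : {F // F ∈ T} → (Fin r → Fin n → ZMod p) := fun F => c F.1 F.2 with hg
  have h2 : ∀ P ∈ Finset.univ.image g, (Finset.univ.filter fun F => g F = P).card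
      ≤ n * (2 * N0 r k q) := by
    intro P _
    have h3 := card_cls (Ω := Ω) k J R p l0 P q hk hn0 hR hpq hJ hRn
      ((Finset.univ.filter fun F => g F = P).map ⟨Subtype.val, Subtype.val_injective⟩) (by
        intro F hF
        rw [Finset.mem_map] at hF
        obtain ⟨F', hF', rfl⟩ := hF
        have e1 : g F' = P := (Finset.mem_filter.1 hF').2
        refine ⟨hNF F'.1 F'.2, hfin F'.1 F'.2, α F'.1 F'.2, ?_⟩
        rw [← e1]
        exact hα F'.1 F'.2)
    rwa [Finset.card_map] at h3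
  have h3 := Finset.card_le_mul_card_image (f := g) Finset.univ _ (fun P hP => h2 P hP)
  rw [Finset.card_univ, Fintype.card_coe] at h3
  refine h3.trans (Nat.mul_le_mul_left _ ?_)
  refine (Finset.card_le_univ _).trans (le_of_eq ?_)
  rw [Fintype.card_fun, Fintype.card_fun, ZMod.card, Fintype.card_fin, Fintype.card_fin,
    ← pow_mul, mul_comm]

/-- primes in dyadic intervals -/
lemma exists_primes (Y N : ℕ) (hY : 0 < Y) :
    ∃ P : Fin N → ℕ, (∀ i, (P i).Prime) ∧ Function.Injective P ∧ (∀ i, Y < P i) ∧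
      ∀ i, P i ≤ 2 ^ N * Y := by
  have h1 : ∀ i : Fin N, ∃ p, p.Prime ∧ 2 ^ (i : ℕ) * Y < p ∧ p ≤ 2 * (2 ^ (i : ℕ) * Y) := fun i =>
    Nat.exists_prime_lt_and_le_two_mul _ (by positivity)
  choose P hP1 hP2 hP3 using h1
  refine ⟨P, hP1, ?_, ?_, ?_⟩
  · have hlt : ∀ i j : Fin N, i < j → P i < P j := by
      intro i j hij
      calc P i ≤ 2 * (2 ^ (i : ℕ) * Y) := hP3 i
        _ = 2 ^ ((i : ℕ) + 1) * Y := by rw [pow_succ]; ring
        _ ≤ 2 ^ (j : ℕ) * Y := by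
          apply Nat.mul_le_mul_right
          exact Nat.pow_le_pow_right (by norm_num) hij
        _ < P j := hP2 j
    intro i j hij
    rcases lt_trichotomy i j with h | h | h
    · have := hlt i j h
      omega
    · exact h
    · have := hlt j i h
      omega
  · intro i
    refine lt_of_le_of_lt ?_ (hP2 i)
    exact Nat.le_mul_of_pos_left _ (by positivity)
  · intro i
    calc P i ≤ 2 * (2 ^ (i : ℕ) * Y) := hP3 i
      _ = 2 ^ ((i : ℕ) + 1) * Y := by rw [pow_succ]; ring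
      _ ≤ 2 ^ N * Y := by
        apply Nat.mul_le_mul_right
        exact Nat.pow_le_pow_right (by norm_num) i.2

/-- one of many large primes does not divide -/
lemma exists_not_dvd (N : ℕ) (P : Fin N → ℕ) (hP : ∀ i, (P i).Prime) (hinj : Function.Injective P)
    (B : ℝ) (hB : 0 < B) (hPB : ∀ i, B ≤ P i) (δ : ℤ) (hδ : δ ≠ 0) (hδB : |(δ : ℝ)| < B ^ N) :
    ∃ i, ¬ (P i : ℤ) ∣ δ := by
  by_contra hne
  push Not at hne
  have h1 : ∏ i, (P i : ℤ) ∣ δ := by
    apply Finset.prod_dvd_of_coprime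
    · intro i _ j _ hij
      rw [Function.onFun, Nat.isCoprime_iff_coprime]
      rw [Nat.coprime_primes (hP i) (hP j)]
      exact fun h => hij (hinj h)
    · intro i _
      exact hne i
  have h2 : ((∏ i, (P i : ℤ) : ℤ) : ℝ) ≤ |(δ : ℝ)| := by
    have h3 := Int.le_of_dvd (abs_pos.2 hδ) ((dvd_abs _ _).2 h1)
    have h4 : ((∏ i, (P i : ℤ) : ℤ) : ℝ) ≤ ((|δ| : ℤ) : ℝ) := by exact_mod_cast h3
    rwa [Int.cast_abs] at h4
  have h3 : B ^ N ≤ ((∏ i, (P i : ℤ) : ℤ) : ℝ) := by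
    push_cast
    calc B ^ N = ∏ _i : Fin N, B := by simp
      _ ≤ ∏ i, (P i : ℝ) := Finset.prod_le_prod (fun _ _ => hB.le) (fun i _ => hPB i)
  linarith

end count

section main

/-- the constant `J` -/
noncomputable def JJ (n r k q : ℕ) : ℕ := n * (2 * N0 r k q + 1) + 1

/-- the bound for the coefficients -/
noncomputable def BB (n r k q : ℕ) : ℕ := Bd (Fin r) n k (r * (k - 1)) (JJ n r k q) + n * n

/-- the factor of the house -/
noncomputable def AA (n r k q : ℕ) : ℕ :=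
  n * BB n r k q + n * (2 * N0 r k q + 1) + BB n r k q + k + n + 2

/-- the field has a class at the prime `p` -/
def InP {Ω : Type} [Field Ω] [CharZero Ω] (n r k q : ℕ) (R : ℝ) (l0 : Fin r) (p : ℕ)
    (F : Subfield Ω) : Prop :=
  ∃ _ : Fact p.Prime, ∃ _ : NumberField F, finrank ℚ F = n ∧
    ∃ (c : Fin r → Fin n → ZMod p) (α : Fin r → F), Cls k (JJ n r k q) R p l0 c F α

/-- the number of fields with a small basis -/
theorem count_small (n k r q : ℕ) (hk : 0 < k) (hn0 : 0 < n) (hr : 0 < r) (hn : n ≤ k ^ r)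
    (hq : 0 < q) :
    ∃ C : ℝ, 0 < C ∧ ∀ (Ω : Type) [Field Ω] [CharZero Ω] (H : ℝ), 1 ≤ H →
      ∀ T : Finset (Subfield Ω), (∀ F ∈ T, ∃ _ : NumberField F, finrank ℚ F = n ∧
        ∃ ω : Fin n → 𝓞 F, LinearIndependent ℚ (fun i => (ω i : F)) ∧
          ∀ i, house (ω i : F) ≤ H) →
      (T.card : ℝ) ≤ C * H ^ (((k : ℝ) + 1 / q) * (r * n : ℕ)) := by
  classical
  set E : ℝ := (k : ℝ) + 1 / q with hE
  set A0 : ℕ := AA n r k q with hA0
  have hA0pos : 0 < A0 := by rw [hA0, AA]; omega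
  have hqR : (0 : ℝ) < q := by exact_mod_cast hq
  have hE1 : 1 ≤ E := by
    have h1 : (1 : ℝ) ≤ k := by exact_mod_cast hk
    have h2 : (0 : ℝ) < 1 / q := by positivity
    rw [hE]; linarith
  have hE0 : 0 ≤ E := by linarith
  have hEq : E * q = (k * q + 1 : ℕ) := by
    rw [hE]
    push_cast
    field_simp
  refine ⟨((2 * n + 1 : ℕ) : ℝ) * (((n * (2 * N0 r k q) : ℕ) : ℝ) + 1) *
    (2 ^ (2 * n + 1) * 2) ^ (r * n) * ((A0 : ℝ) ^ E) ^ (r * n), by positivity, ?_⟩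
  intro Ω _ _ H hH T hT
  set R : ℝ := A0 * H with hRdef
  have hA0R : (A0 : ℝ) ≤ R := by
    rw [hRdef]
    exact le_mul_of_one_le_right (Nat.cast_nonneg _) hH
  have hA2 : (2 : ℝ) ≤ A0 := by
    have : 2 ≤ A0 := by rw [hA0, AA]; omega
    exact_mod_cast this
  have hR1 : 1 < R := by linarith
  have hR0 : 0 < R := by linarith
  have hRn : ((n * (2 * N0 r k q + 1) : ℕ) : ℝ) + 1 ≤ R := by
    have : n * (2 * N0 r k q + 1) + 1 ≤ A0 := by rw [hA0, AA]; omega
    have h2 : ((n * (2 * N0 r k q + 1) + 1 : ℕ) : ℝ) ≤ A0 := by exact_mod_cast this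
    push_cast at h2 ⊢
    linarith
  set Y : ℕ := ⌈R ^ E⌉₊ with hY
  have hRE : R ≤ R ^ E := by
    calc R = R ^ (1 : ℝ) := (Real.rpow_one R).symm
      _ ≤ R ^ E := Real.rpow_le_rpow_of_exponent_le hR1.le hE1
  have hYR : R ^ E ≤ Y := Nat.le_ceil _
  have hY0 : 0 < Y := by
    rw [hY, Nat.ceil_pos]
    linarith
  have hY2 : (Y : ℝ) ≤ 2 * R ^ E := by
    have := (Nat.ceil_lt_add_one (a := R ^ E) (by linarith)).le
    linarith
  obtain ⟨P, hP1, hP2, hP3, hP4⟩ := exists_primes Y (2 * n + 1) hY0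
  have hPY : ∀ i, R ^ E ≤ P i := by
    intro i
    have : (Y : ℝ) ≤ P i := by exact_mod_cast (hP3 i).le
    linarith
  have l0 : Fin r := ⟨0, hr⟩
  -- every field has a class at one of the primes
  have key : ∀ F ∈ T, ∃ i : Fin (2 * n + 1), InP n r k q R l0 (P i) F := by
    intro F hF
    obtain ⟨hNF, hfin, ω, hω, hωH⟩ := hT F hF
    obtain ⟨δ, hδ0, hδb, hAlm, hδe⟩ := exists_delta hfin ω hω H (by linarith) hωH
    obtain ⟨i, hi⟩ := exists_not_dvd (2 * n + 1) P hP1 hP2 R hR0 (fun i => hRE.trans (hPY i)) δ hδ0 (by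
      have h1 : (n : ℝ) ≤ A0 := by
        have : n ≤ A0 := by rw [hA0, AA]; omega
        exact_mod_cast this
      have h2 : ((n.factorial : ℕ) : ℝ) ≤ (n : ℝ) ^ n := by exact_mod_cast Nat.factorial_le_pow n
      have hnH : (n : ℝ) * H ≤ R := by
        rw [hRdef]
        exact mul_le_mul_of_nonneg_right h1 (by linarith)
      calc |(δ : ℝ)| ≤ n.factorial * (n * (H * H)) ^ n := hδb
        _ ≤ (n : ℝ) ^ n * (n * (H * H)) ^ n := by gcongr
        _ = (n * H) ^ (2 * n) := by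
          rw [← mul_pow, pow_mul]
          congr 1
          ring
        _ ≤ R ^ (2 * n) := by
          apply pow_le_pow_left₀ (by positivity) hnH
        _ < R ^ (2 * n + 1) := pow_lt_pow_right₀ hR1 (Nat.lt_succ_self _))
    have hfact : Fact (P i).Prime := ⟨hP1 i⟩
    have hBP : Bd (Fin r) n k (r * (k - 1)) (JJ n r k q) + n * n + k < P i := by
      have h1 : Bd (Fin r) n k (r * (k - 1)) (JJ n r k q) + n * n + k ≤ A0 := by
        have : BB n r k q = Bd (Fin r) n k (r * (k - 1)) (JJ n r k q) + n * n := rfl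
        rw [hA0, AA, ← this]
        omega
      have h2 : (A0 : ℝ) ≤ Y := by linarith
      have h3 : A0 ≤ Y := by exact_mod_cast h2
      exact lt_of_le_of_lt (h1.trans h3) (hP3 i)
    have hRB : (n : ℝ) * ((Bd (Fin r) n k (r * (k - 1)) (JJ n r k q) + n * n : ℕ) : ℝ) * H ≤ R := by
      rw [hRdef]
      apply mul_le_mul_of_nonneg_right _ (by linarith)
      have : n * BB n r k q ≤ A0 := by rw [hA0, AA]; omega
      exact_mod_cast this
    obtain ⟨c, α, hα⟩ := exists_cls k r (JJ n r k q) hk hn0 hn l0 (P i) hBP F hfin ω δ hAlm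
      (fun e => hδe ℂ e) hi H R hωH hRB
    exact ⟨i, hfact, hNF, hfin, c, α, hα⟩
  have hcov : T ⊆ Finset.univ.biUnion (fun i : Fin (2 * n + 1) => T.filter (fun F : Subfield Ω =>
      InP n r k q R l0 (P i) F)) := by
    intro F hF
    obtain ⟨i, h⟩ := key F hF
    rw [Finset.mem_biUnion]
    exact ⟨i, Finset.mem_univ _, Finset.mem_filter.2 ⟨hF, h⟩⟩
  have hcard := (Finset.card_le_card hcov).trans Finset.card_biUnion_le
  have hbound : ∀ i : Fin (2 * n + 1), (T.filter (fun F : Subfield Ω =>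
      InP n r k q R l0 (P i) F)).card ≤
      n * (2 * N0 r k q) * (2 ^ (2 * n + 1) * Y) ^ (r * n) := by
    intro i
    have hfact : Fact (P i).Prime := ⟨hP1 i⟩
    refine (card_prime (Ω := Ω) k (JJ n r k q) R (P i) l0 q hk hn0 hR1 ?_ le_rfl hRn _ ?_).trans ?_
    · have h1 : R ^ (k * q + 1) = (R ^ E) ^ q := by
        rw [← Real.rpow_natCast (R ^ E) q, ← Real.rpow_mul hR0.le, hEq, Real.rpow_natCast]
      rw [h1]
      exact pow_le_pow_left₀ (Real.rpow_nonneg hR0.le _) (hPY i) _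
    · intro F hF
      obtain ⟨_, hNF, hfin, c, α, hα⟩ := (Finset.mem_filter.1 hF).2
      exact ⟨hNF, hfin, c, α, hα⟩
    · apply Nat.mul_le_mul_left
      exact Nat.pow_le_pow_left (hP4 i) _
  have hfinal : T.card ≤ (2 * n + 1) * (n * (2 * N0 r k q) * (2 ^ (2 * n + 1) * Y) ^ (r * n)) := by
    refine hcard.trans ((Finset.sum_le_sum fun i _ => hbound i).trans (le_of_eq ?_))
    simp
  have hfinal' : (T.card : ℝ) ≤ ((2 * n + 1 : ℕ) : ℝ) * (((n * (2 * N0 r k q) : ℕ) : ℝ) *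
      (2 ^ (2 * n + 1) * (Y : ℝ)) ^ (r * n)) := by
    exact_mod_cast hfinal
  refine hfinal'.trans ?_
  have h5 : H ^ (E * (r * n : ℕ)) = (H ^ E) ^ (r * n) := by
    rw [← Real.rpow_natCast (H ^ E), ← Real.rpow_mul (by linarith)]
  have h6 : R ^ E = (A0 : ℝ) ^ E * H ^ E := by
    rw [hRdef, Real.mul_rpow (Nat.cast_nonneg _) (by linarith)]
  calc ((2 * n + 1 : ℕ) : ℝ) * (((n * (2 * N0 r k q) : ℕ) : ℝ) *
      (2 ^ (2 * n + 1) * (Y : ℝ)) ^ (r * n))
      ≤ ((2 * n + 1 : ℕ) : ℝ) * ((((n * (2 * N0 r k q) : ℕ) : ℝ) + 1) *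
      (2 ^ (2 * n + 1) * (2 * R ^ E)) ^ (r * n)) := by
        have h7 : (0 : ℝ) ≤ (2 ^ (2 * n + 1) * (Y : ℝ)) ^ (r * n) := by positivity
        gcongr
        linarith
    _ = ((2 * n + 1 : ℕ) : ℝ) * (((n * (2 * N0 r k q) : ℕ) : ℝ) + 1) *
      (2 ^ (2 * n + 1) * 2) ^ (r * n) * ((A0 : ℝ) ^ E) ^ (r * n) * H ^ (E * (r * n : ℕ)) := by
        rw [h5, h6]
        rw [show (2 : ℝ) ^ (2 * n + 1) * (2 * ((A0 : ℝ) ^ E * H ^ E))
          = (2 ^ (2 * n + 1) * 2) * (A0 : ℝ) ^ E * H ^ E by ring]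
        rw [mul_pow (2 ^ (2 * n + 1) * 2 * (A0 : ℝ) ^ E), mul_pow (2 ^ (2 * n + 1) * 2)]
        ring

end main

end Pool.Agent.L5helper40.NF
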