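import Mathlib
import Pool.Agent.W301.LinB

set_option autoImplicit false

namespace Pool.Agent.L5helper40.NF

open Module NumberField NumberField.InfinitePlace NumberField.mixedEmbedding Pool.Agent.W301.Lin
open scoped Pointwise

section

open scoped Classical

variable (L : Type) [Field L] [NumberField L]

/-- the number of separated points of a ball -/
lemma card_sep_le (V : Submodule ℚ L) (M H0 : ℝ) (hM : 0 ≤ M) (hH0 : 0 < H0) (s : Finset L)
    (hs : ∀ x ∈ s, house x ≤ M * H0 ∧ x ∈ V)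
    (hsep : ∀ x ∈ s, ∀ y ∈ s, x ≠ y → H0 ≤ house (x - y)) :
    (s.card : ℝ) ≤ (2 * M + 1) ^ finrank ℚ V := by
  set W : Submodule ℝ (mixedSpace L) := Submodule.span ℝ (mixedEmbedding L '' V) with hW
  have hfin : finrank ℝ W ≤ finrank ℚ V := by
    set b := Module.finBasis ℚ V with hb
    have h1 : W ≤ Submodule.span ℝ (Set.range fun i => mixedEmbedding L (b i : L)) := by
      rw [hW, Submodule.span_le]
      rintro _ ⟨x, hx, rfl⟩
      have h2 : x = ∑ i, (b.repr ⟨x, hx⟩ i) • (b i : L) := by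
        have := congrArg (Submodule.subtype V) (b.sum_repr ⟨x, hx⟩)
        rw [map_sum] at this
        simpa using this.symm
      rw [h2, map_sum]
      refine Submodule.sum_mem _ fun i _ => ?_
      rw [map_rat_smul]
      have h3 : ((b.repr ⟨x, hx⟩ i) • mixedEmbedding L (b i : L))
          = ((b.repr ⟨x, hx⟩ i : ℚ) : ℝ) • mixedEmbedding L (b i : L) := by
        rw [Rat.cast_smul_eq_qsmul]
      rw [h3]
      exact Submodule.smul_mem _ _ (Submodule.subset_span ⟨i, rfl⟩)
    calc finrank ℝ W ≤ finrank ℝ (Submodule.span ℝ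
          (Set.range fun i => mixedEmbedding L (b i : L))) := Submodule.finrank_mono h1
      _ ≤ Fintype.card (Fin (finrank ℚ V)) := finrank_range_le_card _
      _ = finrank ℚ V := by simp
  have hmem : ∀ x : L, x ∈ V → H0⁻¹ • mixedEmbedding L x ∈ W := fun x hx =>
    Submodule.smul_mem _ _ (Submodule.subset_span ⟨x, hx, rfl⟩)
  set f : {x // x ∈ s} → W := fun x => ⟨H0⁻¹ • mixedEmbedding L x.1, hmem _ (hs _ x.2).2⟩ with hf
  have hinj : Function.Injective f := by
    intro x y hxy
    have h1 := congrArg Subtype.val hxy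
    have h2 : mixedEmbedding L x.1 = mixedEmbedding L y.1 :=
      smul_right_injective _ (inv_ne_zero hH0.ne') h1
    exact Subtype.ext (mixedEmbedding_injective L h2)
  have h1 : (Finset.univ.image f).card = s.card := by
    rw [Finset.card_image_of_injective _ hinj]
    simp
  have h2 := card_le_of_sep (Finset.univ.image f) M hM (by
    intro c hc
    obtain ⟨x, _, rfl⟩ := Finset.mem_image.1 hc
    have : ‖f x‖ = H0⁻¹ * house x.1 := by
      rw [← norm_mixed L x.1]
      change ‖H0⁻¹ • mixedEmbedding L x.1‖ = _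
      rw [_root_.norm_smul, Real.norm_of_nonneg (inv_nonneg.2 hH0.le)]
    rw [this, inv_mul_le_iff₀ hH0, mul_comm]
    exact (hs _ x.2).1) (by
    intro c hc d hd hcd
    obtain ⟨x, _, rfl⟩ := Finset.mem_image.1 hc
    obtain ⟨y, _, rfl⟩ := Finset.mem_image.1 hd
    have : ‖f x - f y‖ = H0⁻¹ * house (x.1 - y.1) := by
      rw [← norm_mixed L, map_sub]
      change ‖H0⁻¹ • mixedEmbedding L x.1 - H0⁻¹ • mixedEmbedding L y.1‖ = _
      rw [← smul_sub, _root_.norm_smul, Real.norm_of_nonneg (inv_nonneg.2 hH0.le)]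
    rw [this, le_inv_mul_iff₀ hH0, mul_one]
    apply hsep _ x.2 _ y.2
    intro h
    apply hcd
    have : x = y := Subtype.ext h
    rw [this])
  rw [h1] at h2
  refine h2.trans ?_
  exact pow_le_pow_right₀ (by linarith) hfin

/-- the number of integers with house at most `H` -/
noncomputable def NB (H : ℝ) : ℕ := (finite_small L H).toFinset.card

lemma NB_le (M H0 : ℝ) (hM : 0 ≤ M) (hH0 : 0 < H0) :
    (NB L (M * H0) : ℝ) ≤ (2 * M + 1) ^ finrank ℚ (smallSpan ℚ L (M * H0)) * NB L H0 := by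
  set S := (finite_small L (M * H0)).toFinset with hS
  have hmemS : ∀ x, x ∈ S ↔ IsIntegral ℤ x ∧ house x ≤ M * H0 := by
    intro x
    rw [hS, Set.Finite.mem_toFinset]
    rfl
  set fam := S.powerset.filter (fun t => ∀ x ∈ t, ∀ y ∈ t, x ≠ y → H0 ≤ house (x - y)) with hfam
  obtain ⟨t, ht, htmax⟩ := Finset.exists_max_image fam Finset.card ⟨∅, by
    rw [hfam, Finset.mem_filter]
    exact ⟨Finset.empty_mem_powerset _, fun x hx => absurd hx (Finset.notMem_empty _)⟩⟩
  rw [hfam, Finset.mem_filter, Finset.mem_powerset] at ht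
  obtain ⟨htS, htsep⟩ := ht
  have hneg : ∀ x y : L, house (x - y) = house (y - x) := by
    intro x y
    rw [house, house, ← norm_neg, ← map_neg, neg_sub]
  have hcov : ∀ x ∈ S, ∃ y ∈ t, house (x - y) ≤ H0 := by
    intro x hx
    by_contra hne
    push Not at hne
    have hxt : x ∉ t := by
      intro h
      have h1 := hne x h
      have h2 : house (x - x : L) = 0 := by
        rw [sub_self, house, map_zero, norm_zero]
      linarith
    have h1 : insert x t ∈ fam := by
      rw [hfam, Finset.mem_filter, Finset.mem_powerset]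
      refine ⟨Finset.insert_subset hx htS, ?_⟩
      intro a ha b hb hab
      rw [Finset.mem_insert] at ha hb
      rcases ha with rfl | ha <;> rcases hb with rfl | hb
      · exact absurd rfl hab
      · exact (hne b hb).le
      · rw [hneg]
        exact (hne a ha).le
      · exact htsep a ha b hb hab
    have h2 := htmax _ h1
    rw [Finset.card_insert_of_notMem hxt] at h2
    omega
  choose! g hg1 hg2 using hcov
  have hcard : S.card ≤ (t ×ˢ (finite_small L H0).toFinset).card := by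
    apply Finset.card_le_card_of_injOn (fun x => (g x, x - g x))
    · intro x hx
      rw [Finset.mem_coe, Finset.mem_product]
      refine ⟨hg1 x hx, ?_⟩
      rw [Set.Finite.mem_toFinset]
      exact ⟨((hmemS x).1 hx).1.sub ((hmemS _).1 (htS (hg1 x hx))).1, hg2 x hx⟩
    · intro x _ y _ hxy
      have h1 := congrArg Prod.fst hxy
      have h2 := congrArg Prod.snd hxy
      simp only at h1 h2
      rw [h1] at h2
      exact sub_left_injective h2
  rw [Finset.card_product] at hcard
  have h3 := card_sep_le L (smallSpan ℚ L (M * H0)) M H0 hM hH0 t (by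
    intro x hx
    have h4 := (hmemS x).1 (htS hx)
    exact ⟨h4.2, Submodule.subset_span h4⟩) htsep
  have h5 : (NB L (M * H0) : ℝ) ≤ (t.card : ℝ) * NB L H0 := by
    have : NB L (M * H0) = S.card := rfl
    rw [this]
    exact_mod_cast hcard
  refine h5.trans ?_
  exact mul_le_mul_of_nonneg_right h3 (Nat.cast_nonneg _)

/-- the product of two large subspaces -/
lemma span_mul_eq_top' (U V : Submodule ℚ L) (hU : finrank ℚ L < finrank ℚ U + finrank ℚ V) :
    Submodule.span ℚ {x : L | ∃ u ∈ U, ∃ v ∈ V, x = u * v} = ⊤ := by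
  by_contra hne
  obtain ⟨φ, hφ, hφ'⟩ := Submodule.exists_le_ker_of_lt_top _ (lt_top_iff_ne_top.2 hne)
  have hφ0 : ∀ u v, u ∈ U → v ∈ V → φ (u * v) = 0 := fun u v hu hv =>
    hφ' (Submodule.subset_span ⟨u, hu, v, hv, rfl⟩)
  let ψ : L →ₗ[ℚ] Module.Dual ℚ L := (LinearMap.mul ℚ L).compr₂ φ
  have hψ : ∀ u x, ψ u x = φ (u * x) := fun u x => rfl
  have hinj : Function.Injective ψ := by
    rw [← LinearMap.ker_eq_bot, LinearMap.ker_eq_bot']
    intro u hu
    by_contra hu0
    apply hφ
    ext x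
    have := LinearMap.congr_fun hu (u⁻¹ * x)
    rw [hψ] at this
    rw [mul_inv_cancel_left₀ hu0] at this
    simpa using this
  have hle : (U.map ψ) ≤ V.dualAnnihilator := by
    rintro _ ⟨u, hu, rfl⟩
    rw [Submodule.mem_dualAnnihilator]
    intro v hv
    exact hφ0 u v hu hv
  have h1 : finrank ℚ (U.map ψ) = finrank ℚ U :=
    (Submodule.equivMapOfInjective ψ hinj U).finrank_eq.symm
  have h2 := Submodule.finrank_mono hle
  have h3 := Subspace.finrank_add_finrank_dualAnnihilator_eq V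
  omega

/-- the small elements span, with an almost optimal exponent -/
theorem smallSpan_top (n : ℕ) (hn : finrank ℚ L = n) (m : ℕ) (hm : 2 ≤ m) (M : ℝ) (hM : 1 ≤ M)
    (h : 36 ^ n * 3 ^ (n * (m + 1)) * |(discr L : ℝ)| < M ^ (n * (m - 1))) :
    smallSpan ℚ L (M ^ m) = ⊤ := by
  by_contra hne
  have hM0 : 0 < M := by linarith
  set v : ℕ → ℕ := fun i => finrank ℚ (smallSpan ℚ L (M ^ i)) with hv
  -- the pairing
  have hpair : ∀ i j, i + j = m → v i + v j ≤ n := by
    intro i j hij
    by_contra hlt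
    push Not at hlt
    apply hne
    rw [eq_top_iff, ← span_mul_eq_top' L (smallSpan ℚ L (M ^ i)) (smallSpan ℚ L (M ^ j))
      (by rw [hn]; exact hlt), Submodule.span_le]
    rintro _ ⟨a, ha, b, hb, rfl⟩
    have h1 := Submodule.mul_mem_mul ha hb
    rw [smallSpan, smallSpan, Submodule.span_mul_span] at h1
    rw [smallSpan]
    refine Submodule.span_mono ?_ h1
    rintro _ ⟨x, hx, y, hy, rfl⟩
    refine ⟨hx.1.mul hy.1, (house_mul_le x y).trans ?_⟩
    rw [← hij, pow_add]
    exact mul_le_mul hx.2 hy.2 (house_nonneg _) (by positivity)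
  have hvn : ∀ i, v i ≤ n := by
    intro i
    rw [← hn]
    exact Submodule.finrank_le _
  -- the sum
  have hsum : 2 * ∑ i ∈ Finset.range m, v (i + 1) ≤ n * (m + 1) := by
    obtain ⟨m', rfl⟩ : ∃ m', m = m' + 1 := ⟨m - 1, by omega⟩
    have h1 : ∑ i ∈ Finset.range (m' + 1), v (i + 1) = ∑ i ∈ Finset.range m', v (i + 1) + v (m' + 1) :=
      Finset.sum_range_succ _ _
    have h2 : ∑ i ∈ Finset.range m', v (i + 1) = ∑ i ∈ Finset.range m', v (m' - i) := by
      rw [← Finset.sum_range_reflect]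
      apply Finset.sum_congr rfl
      intro i hi
      rw [Finset.mem_range] at hi
      congr 1
      omega
    have h3 : 2 * ∑ i ∈ Finset.range m', v (i + 1) ≤ m' * n := by
      calc 2 * ∑ i ∈ Finset.range m', v (i + 1)
          = ∑ i ∈ Finset.range m', v (i + 1) + ∑ i ∈ Finset.range m', v (m' - i) := by
            rw [← h2]; ring
        _ = ∑ i ∈ Finset.range m', (v (i + 1) + v (m' - i)) := (Finset.sum_add_distrib).symm
        _ ≤ ∑ _i ∈ Finset.range m', n := by
          apply Finset.sum_le_sum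
          intro i hi
          rw [Finset.mem_range] at hi
          apply hpair
          omega
        _ = m' * n := by simp
    have h4 := hvn (m' + 1)
    rw [h1]
    nlinarith
  -- the count
  have hcount : ∀ i, (NB L (M ^ i) : ℝ) ≤
      (3 * M) ^ (∑ e ∈ Finset.range i, v (e + 1)) * 3 ^ n := by
    intro i
    induction i with
    | zero =>
      simp only [pow_zero, Finset.range_zero, Finset.sum_empty, one_mul]
      have h1 := card_small_le L ⊤ 1 zero_le_one (finite_small L 1).toFinset (by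
        intro x hx
        rw [Set.Finite.mem_toFinset] at hx
        exact ⟨hx.1, hx.2, Submodule.mem_top⟩)
      rw [finrank_top, hn] at h1
      refine h1.trans (le_of_eq ?_)
      norm_num
    | succ i ih =>
      have h1 := NB_le L M (M ^ i) hM0.le (pow_pos hM0 i)
      rw [← pow_succ'] at h1
      rw [Finset.sum_range_succ, pow_add (3 * M)]
      calc (NB L (M ^ (i + 1)) : ℝ) ≤ (2 * M + 1) ^ v (i + 1) * NB L (M ^ i) := h1
        _ ≤ (3 * M) ^ v (i + 1) * ((3 * M) ^ (∑ e ∈ Finset.range i, v (e + 1)) * 3 ^ n) := by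
          apply mul_le_mul _ ih (Nat.cast_nonneg _) (by positivity)
          apply pow_le_pow_left₀ (by positivity)
          linarith
        _ = _ := by ring
  have hlow := le_card_small L (M ^ m) (by positivity) (finite_small L (M ^ m)).toFinset (by
    intro x hx1 hx2
    rw [Set.Finite.mem_toFinset]
    exact ⟨hx1, hx2⟩)
  have hlow' : (M ^ m / 2) ^ n ≤ (NB L (M ^ m) : ℝ) * √|(discr L : ℝ)| := by
    rw [← hn]
    exact hlow
  have h1 : (M ^ m / 2) ^ n ≤ ((3 * M) ^ (∑ e ∈ Finset.range m, v (e + 1)) * 3 ^ n)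
      * √|(discr L : ℝ)| :=
    hlow'.trans (mul_le_mul_of_nonneg_right (hcount m) (Real.sqrt_nonneg _))
  have h2 : ((M ^ m / 2) ^ n) ^ 2 ≤ (((3 * M) ^ (∑ e ∈ Finset.range m, v (e + 1)) * 3 ^ n)
      * √|(discr L : ℝ)|) ^ 2 := pow_le_pow_left₀ (by positivity) h1 2
  have h3 : (((3 * M) ^ (∑ e ∈ Finset.range m, v (e + 1)) * 3 ^ n)
      * √|(discr L : ℝ)|) ^ 2 = (3 * M) ^ (2 * ∑ e ∈ Finset.range m, v (e + 1)) * 9 ^ n
        * |(discr L : ℝ)| := by
    rw [mul_pow, mul_pow, Real.sq_sqrt (abs_nonneg _), ← pow_mul, ← pow_mul, mul_comm _ 2,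
      mul_comm n 2, pow_mul 3 2 n]
    norm_num
  have h4 : (3 * M) ^ (2 * ∑ e ∈ Finset.range m, v (e + 1)) ≤ (3 * M) ^ (n * (m + 1)) :=
    pow_le_pow_right₀ (by linarith) hsum
  have h5 : ((M ^ m / 2) ^ n) ^ 2 = M ^ (n * (m - 1)) * M ^ (n * (m + 1)) / 4 ^ n := by
    rw [← pow_mul, div_pow, ← pow_mul, mul_comm n 2, pow_mul 2 2 n]
    norm_num
    congr 1
    rw [← pow_add]
    congr 1
    obtain ⟨m', rfl⟩ : ∃ m', m = m' + 1 := ⟨m - 1, by omega⟩
    simp only [Nat.add_sub_cancel]
    ring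
  rw [h3, h5, div_le_iff₀ (by positivity)] at h2
  have h6 : M ^ (n * (m - 1)) * M ^ (n * (m + 1)) ≤
      (36 ^ n * 3 ^ (n * (m + 1)) * |(discr L : ℝ)|) * M ^ (n * (m + 1)) := by
    calc M ^ (n * (m - 1)) * M ^ (n * (m + 1))
        ≤ (3 * M) ^ (2 * ∑ e ∈ Finset.range m, v (e + 1)) * 9 ^ n * |(discr L : ℝ)| * 4 ^ n := h2
      _ ≤ (3 * M) ^ (n * (m + 1)) * 9 ^ n * |(discr L : ℝ)| * 4 ^ n := by gcongr
      _ = (36 ^ n * 3 ^ (n * (m + 1)) * |(discr L : ℝ)|) * M ^ (n * (m + 1)) := by
        rw [mul_pow, show (36 : ℝ) = 9 * 4 by norm_num, mul_pow]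
        ring
  have h7 := le_of_mul_le_mul_right h6 (by positivity)
  linarith

/-- a small basis -/
theorem small_basis (n : ℕ) (hn : finrank ℚ L = n) (m : ℕ) (hm : 2 ≤ m) (M : ℝ) (hM : 1 ≤ M)
    (h : 36 ^ n * 3 ^ (n * (m + 1)) * |(discr L : ℝ)| < M ^ (n * (m - 1))) :
    ∃ ω : Fin n → 𝓞 L, LinearIndependent ℚ (fun i => (ω i : L)) ∧
      ∀ i, house (ω i : L) ≤ M ^ m := by
  have h1 := smallSpan_top L n hn m hm M hM h
  obtain ⟨w, hw, hli⟩ := exists_fin_indep (K := ℚ) {x : L | IsIntegral ℤ x ∧ house x ≤ M ^ m} n (by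
    have h2 : Submodule.span ℚ {x : L | IsIntegral ℤ x ∧ house x ≤ M ^ m} = ⊤ := h1
    rw [h2, finrank_top, hn])
  exact ⟨fun i => ⟨w i, (hw i).1⟩, hli, fun i => (hw i).2⟩

end

end Pool.Agent.L5helper40.NF
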