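import Mathlib
import Pool.Agent.L5helper40.NF.D6
import Pool.Agent.L5helper40.NF.E1
import Pool.Agent.W301.LinH4

set_option autoImplicit false

namespace Pool.Agent.L5helper40.NF

open Module NumberField Pool.Agent.W301.Lin

/-- the number of fields of bounded discriminant -/
theorem count_disc (N k r q m : ℕ) (hk : 0 < k) (hN0 : 0 < N) (hr : 0 < r) (hN : N ≤ k ^ r)
    (hq : 0 < q) (hm : 2 ≤ m) :
    ∃ C : ℝ, 0 < C ∧ ∀ (Ω : Type) [Field Ω] [CharZero Ω] (X : ℝ), 1 ≤ X →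
      ∀ T : Finset (Subfield Ω), (∀ F ∈ T, ∃ _ : NumberField F, finrank ℚ F = N ∧
        |(discr F : ℝ)| ≤ X) →
      (T.card : ℝ) ≤ C * X ^ ((m : ℝ) / (m - 1) * (((k : ℝ) + 1 / q) * r)) := by
  obtain ⟨C, hC, hcount⟩ := count_small N k r q hk hN0 hr hN hq
  set C0 : ℝ := 36 ^ N * 3 ^ (N * (m + 1)) + 1 with hC0
  have hC0p : 1 ≤ C0 := by
    rw [hC0]
    have : (0 : ℝ) < 36 ^ N * 3 ^ (N * (m + 1)) := by positivity
    linarith
  have hNR : (0 : ℝ) < N := by exact_mod_cast hN0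
  have hmR : (1 : ℝ) < m := by exact_mod_cast (by omega : 1 < m)
  have hm1 : (0 : ℝ) < (m : ℝ) - 1 := by linarith
  set E : ℝ := (k : ℝ) + 1 / q with hE
  refine ⟨C * C0 ^ ((m : ℝ) / (m - 1) * (E * r)), by positivity, ?_⟩
  intro Ω _ _ X hX T hT
  set M : ℝ := (C0 * X) ^ ((1 : ℝ) / (N * (m - 1) : ℝ)) with hM
  have hCX : 1 ≤ C0 * X := by nlinarith
  have hM1 : 1 ≤ M := Real.one_le_rpow hCX (by positivity)
  have hMp : M ^ (N * (m - 1)) = C0 * X := by
    rw [hM, ← Real.rpow_natCast, ← Real.rpow_mul (by linarith)]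
    have : (1 : ℝ) / (N * (m - 1) : ℝ) * ((N * (m - 1) : ℕ) : ℝ) = 1 := by
      push_cast [Nat.cast_sub (by omega : 1 ≤ m)]
      field_simp
    rw [this, Real.rpow_one]
  have h1 := hcount Ω (M ^ m) (one_le_pow₀ hM1) T (by
    intro F hF
    obtain ⟨hNF, hfin, hdisc⟩ := hT F hF
    refine ⟨hNF, hfin, ?_⟩
    apply small_basis F N hfin m hm M hM1
    rw [hMp]
    have h2 : (0 : ℝ) < 36 ^ N * 3 ^ (N * (m + 1)) := by positivity
    calc 36 ^ N * 3 ^ (N * (m + 1)) * |(discr F : ℝ)| ≤ 36 ^ N * 3 ^ (N * (m + 1)) * X := by gcongr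
      _ < C0 * X := by rw [hC0]; nlinarith)
  refine h1.trans (le_of_eq ?_)
  rw [mul_assoc]
  congr 1
  have hXC : 0 ≤ X := by linarith
  rw [← Real.mul_rpow (by linarith) hXC, hM, ← Real.rpow_natCast, ← Real.rpow_mul (by linarith),
    ← Real.rpow_mul (by linarith)]
  congr 1
  push_cast
  field_simp

lemma exists_params (a b ε : ℝ) (ha : 0 ≤ a) (hb : 0 ≤ b) (hε : 0 < ε) :
    ∃ q m : ℕ, 0 < q ∧ 2 ≤ m ∧ (m : ℝ) / (m - 1) * ((a + 1 / q) * b) ≤ a * b + ε := by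
  obtain ⟨q, hq⟩ := exists_nat_gt (2 * b / ε)
  obtain ⟨m', hm'⟩ := exists_nat_gt (2 * (a * b + b) / ε)
  refine ⟨q + 1, m' + 2, Nat.succ_pos _, by omega, ?_⟩
  have h1 : (1 : ℝ) / ((q + 1 : ℕ) : ℝ) * b ≤ ε / 2 := by
    rw [div_lt_iff₀ hε] at hq
    rw [one_div_mul_eq_div, div_le_iff₀ (by positivity)]
    push_cast
    nlinarith
  have h2 : (1 : ℝ) / ((q + 1 : ℕ) : ℝ) * b ≤ b := by
    rw [one_div_mul_eq_div]
    apply div_le_self hb
    push_cast
    have : (0 : ℝ) ≤ q := Nat.cast_nonneg q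
    linarith
  have h3 : (((m' + 2 : ℕ) : ℝ) / (((m' + 2 : ℕ) : ℝ) - 1)) = 1 + 1 / ((m' : ℝ) + 1) := by
    push_cast
    have : (m' : ℝ) + 2 - 1 = m' + 1 := by ring
    rw [this]
    have : (m' : ℝ) + 1 ≠ 0 := by positivity
    field_simp
    ring
  rw [h3]
  have h4 : (1 : ℝ) / ((m' : ℝ) + 1) * (a * b + b) ≤ ε / 2 := by
    rw [div_lt_iff₀ hε] at hm'
    rw [one_div_mul_eq_div, div_le_iff₀ (by positivity)]
    nlinarith
  have h5 : (a + 1 / ((q + 1 : ℕ) : ℝ)) * b = a * b + 1 / ((q + 1 : ℕ) : ℝ) * b := by ring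
  rw [h5]
  have h6 : (1 : ℝ) / ((m' : ℝ) + 1) * (a * b + 1 / ((q + 1 : ℕ) : ℝ) * b)
      ≤ (1 : ℝ) / ((m' : ℝ) + 1) * (a * b + b) := by
    apply mul_le_mul_of_nonneg_left _ (by positivity)
    linarith
  calc (1 + 1 / ((m' : ℝ) + 1)) * (a * b + 1 / ((q + 1 : ℕ) : ℝ) * b)
      = (a * b + 1 / ((q + 1 : ℕ) : ℝ) * b)
        + 1 / ((m' : ℝ) + 1) * (a * b + 1 / ((q + 1 : ℕ) : ℝ) * b) := by ring
    _ ≤ a * b + ε / 2 + ε / 2 := by linarith
    _ = a * b + ε := by ring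

/-- the count over a number field -/
theorem count_FS (n d k r : ℕ) (hk : 0 < k) (hn0 : 0 < n) (hr : 0 < r)
    (hN : n * d ≤ k ^ r) (ε : ℝ) (hε : 0 < ε) :
    ∃ C : ℝ, ∀ (K : Type) [Field K] [NumberField K], finrank ℚ K = d → ∀ X : ℝ, 1 ≤ X →
      (FS K n X).Finite ∧ ((FS K n X).ncard : ℝ) ≤ C * X ^ ((k : ℝ) * r + ε) := by
  classical
  rcases Nat.eq_zero_or_pos d with rfl | hd
  · refine ⟨0, fun K _ _ hK => ?_⟩
    have : 0 < finrank ℚ K := Module.finrank_pos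
    omega
  obtain ⟨q, m, hq, hm, hle⟩ := exists_params k r ε (Nat.cast_nonneg _) (Nat.cast_nonneg _) hε
  obtain ⟨C, hC, hcount⟩ := count_disc (n * d) k r q m hk (Nat.mul_pos hn0 hd) hr hN hq hm
  refine ⟨C, ?_⟩
  intro K _ _ hK X hX
  have key : ∀ T : Finset (IntermediateField K (AlgebraicClosure K)), (T : Set _) ⊆ FS K n X →
      (T.card : ℝ) ≤ C * X ^ ((k : ℝ) * r + ε) := by
    intro T hT
    have hinj : Function.Injective (IntermediateField.toSubfield (K := K) (L := AlgebraicClosure K)) :=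
      IntermediateField.toSubfield_injective
    have h1 := hcount (AlgebraicClosure K) X hX (T.map ⟨_, hinj⟩) (by
      intro F hF
      obtain ⟨L, hL, rfl⟩ := Finset.mem_map.1 hF
      obtain ⟨hfin, hNF, hdisc⟩ := hT hL
      let e : L ≃+* L.toSubfield :=
        { toFun := fun x => ⟨x.1, x.2⟩
          invFun := fun x => ⟨x.1, x.2⟩
          left_inv := fun _ => rfl
          right_inv := fun _ => rfl
          map_mul' := fun _ _ => rfl
          map_add' := fun _ _ => rfl }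
      have hNF' : NumberField L.toSubfield := NumberField.of_ringEquiv L L.toSubfield e
      refine ⟨hNF', ?_, ?_⟩
      · have h2 : finrank ℚ L = n * d := by
          rw [← hK, ← hfin, mul_comm]
          exact (Module.finrank_mul_finrank ℚ K L).symm
        have h3 := (RingEquiv.toRatAlgEquiv e).toLinearEquiv.finrank_eq
        rw [← h2]
        exact h3.symm
      · have h4 := NumberField.discr_eq_discr_of_ringEquiv L e
        change |((discr L.toSubfield : ℤ) : ℝ)| ≤ X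
        rw [← h4, ← Int.cast_abs]
        exact hdisc)
    rw [Finset.card_map] at h1
    refine h1.trans ?_
    apply mul_le_mul_of_nonneg_left _ hC.le
    exact Real.rpow_le_rpow_of_exponent_le hX hle
  have hfinite : (FS K n X).Finite := by
    by_contra hinf
    obtain ⟨B, hB⟩ := exists_nat_gt (C * X ^ ((k : ℝ) * r + ε))
    obtain ⟨T, hT1, hT2⟩ := Set.Infinite.exists_subset_card_eq (s := FS K n X) hinf B
    have h1 := key T hT1
    rw [hT2] at h1
    linarith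
  refine ⟨hfinite, ?_⟩
  rw [Set.ncard_eq_toFinset_card _ hfinite]
  exact key _ (by simp)

end Pool.Agent.L5helper40.NF
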