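import Mathlib
import Pool.Agent.L5helper40.NF.B3

set_option autoImplicit false

namespace Pool.Agent.L5helper40.NF

open MvPolynomial Module Pool.Agent.W301.Lin Matrix

section choice

variable {κ : Type} [Field κ]

lemma Surj_mono {ι ρ : Type} (z : ι → ρ → κ) (op : ι → MvPolynomial ρ κ →ₗ[κ] MvPolynomial ρ κ)
    {A B : Set (ρ →₀ ℕ)} (hAB : A ⊆ B) (h : Surj z op A) : Surj z op B := by
  intro τ
  obtain ⟨F, hF, h1⟩ := h τ
  refine ⟨F, ?_, h1⟩
  rw [mem_restrictSupport_iff] at hF ⊢
  exact hF.trans hAB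

/-- a good choice of natural parameters -/
theorem exists_T_gen {σ Θ : Type} [Fintype σ] [Finite Θ] {N : ℕ} (w : σ → ℕ)
    (hw : ∀ l, 1 ≤ w l) (k c J : ℕ) (Z : Fin N → σ → MvPolynomial Θ κ)
    (hZ : ∀ j l, (Z j l).totalDegree ≤ 1) (l0 : σ) (hQ : ∀ a b, a ≠ b → Z a l0 ≠ Z b l0)
    (hT0 : ∀ i < J, ∃ T0 : Θ → κ, Surj (fun j : Fin N × Ex σ i => fun l => eval T0 (Z j.1 l))
      (fun j => opH j.2.1) {m | Finsupp.weight w m ≤ k * i + c})
    (hinj : Set.InjOn (Nat.cast : ℕ → κ) (Set.Iic (Bd σ N k c J + N * N))) :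
    ∃ T : Θ → ℕ, (∀ a, T a ≤ Bd σ N k c J + N * N) ∧
      (Function.Injective fun j => eval (fun a => (T a : κ)) (Z j l0)) ∧
      ∀ i < J, ∀ F : MvPolynomial σ κ, ∃ G ∈ Wd κ w (k * i + c),
        ∀ j, F - G ∈ mI (fun l => eval (fun a => (T a : κ)) (Z j l)) ^ (i + 1) := by
  classical
  set Q : MvPolynomial Θ κ :=
    ∏ a ∈ (Finset.univ : Finset (Fin N × Fin N)).filter (fun a => a.1 ≠ a.2), (Z a.1 l0 - Z a.2 l0) with hQdef
  have hQ0 : Q ≠ 0 := by
    rw [hQdef, Finset.prod_ne_zero_iff]
    intro a ha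
    exact sub_ne_zero.2 (hQ _ _ (Finset.mem_filter.1 ha).2)
  have hQd : Q.totalDegree ≤ N * N := by
    refine (totalDegree_finsetProd _ _).trans ?_
    calc ∑ a ∈ (Finset.univ : Finset (Fin N × Fin N)).filter (fun a => a.1 ≠ a.2),
          (Z a.1 l0 - Z a.2 l0).totalDegree
        ≤ ∑ _a ∈ (Finset.univ : Finset (Fin N × Fin N)).filter (fun a => a.1 ≠ a.2), 1 := by
          apply Finset.sum_le_sum
          intro a _
          exact (totalDegree_sub _ _).trans (max_le (hZ _ _) (hZ _ _))
      _ = ((Finset.univ : Finset (Fin N × Fin N)).filter (fun a => a.1 ≠ a.2)).card := by simp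
      _ ≤ (Finset.univ : Finset (Fin N × Fin N)).card := Finset.card_filter_le _ _
      _ = N * N := by simp
  obtain ⟨T, hT1, hT2, hT3⟩ := exists_good w hw k c J Z hZ Q hQ0 (N * N) hQd hT0 hinj
  refine ⟨T, hT1, ?_, ?_⟩
  · intro a b hab
    by_contra hne
    rw [hQdef, map_prod, Finset.prod_ne_zero_iff] at hT2
    apply hT2 (a, b) (Finset.mem_filter.2 ⟨Finset.mem_univ _, hne⟩)
    rw [map_sub, sub_eq_zero]
    exact hab
  · intro i hi F
    exact surj_iff_red (fun (j : Fin N) (l : σ) => eval (fun a => (T a : κ)) (Z j l)) i _ _ (hT3 i hi) F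

/-- the weights -/
def wO (m : ℕ) {r : ℕ} : Option (Fin r) → ℕ := fun l => l.elim 1 (fun _ => m)

/-- the coordinates of a point -/
noncomputable def ptO {κ : Type} {r : ℕ} (η : κ) (x : Fin r → κ) : Option (Fin r) → κ :=
  fun l => l.elim η x

/-- the additive constant -/
def cO (r k m d : ℕ) : ℕ := (d - 1) + r * (m * (k - 1))

/-- the choice for the configuration of all points above a fixed set -/
theorem exists_T_B {N : ℕ} (k r m d J : ℕ) (hm : 1 ≤ m) (l0 : Fin r)
    (Y : Matrix (Fin N) (Fin N) κ) (hY : LinearIndependent κ fun i => Y i)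
    (b : Fin r → Fin N → κ) (η : Fin N → κ)
    (hfib : ∀ v, Nat.card {j // η j = v} ≤ k ^ r) (hη : (Set.range η).ncard ≤ d) (hdm : d ≤ m * k)
    (hinj : Set.InjOn (Nat.cast : ℕ → κ)
      (Set.Iic (Bd (Option (Fin r)) N (m * k) (cO r k m d) J + N * N + k))) :
    ∃ T : Fin r → Fin N → ℕ,
      (∀ l i, T l i ≤ Bd (Option (Fin r)) N (m * k) (cO r k m d) J + N * N) ∧
      (Function.Injective fun j => b l0 j + ∑ i, (T l0 i : κ) * Y i j) ∧
      ∀ i < J, ∀ F : MvPolynomial (Option (Fin r)) κ, ∃ G ∈ Wd κ (wO m) (m * k * i + cO r k m d),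
        ∀ j, F - G ∈ mI (ptO (η j) fun l => b l j + ∑ i, (T l i : κ) * Y i j) ^ (i + 1) := by
  classical
  have hYu : IsUnit Y := Matrix.linearIndependent_rows_iff_isUnit.1 hY
  set Z : Fin N → Option (Fin r) → MvPolynomial (Fin r × Fin N) κ := fun j l =>
    l.elim (C (η j)) (fun l => C (b l j) + ∑ i, C (Y i j) * X (l, i)) with hZ
  have hZe : ∀ (T : Fin r × Fin N → κ) j, (fun l => eval T (Z j l))
      = ptO (η j) (fun l => b l j + ∑ i, T (l, i) * Y i j) := by
    intro T j
    funext l
    rcases l with _ | l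
    · simp [hZ, ptO]
    · simp [hZ, ptO, mul_comm]
  have hZes : ∀ (T : Fin r × Fin N → κ) j l, eval T (Z j (some l)) = b l j + ∑ i, T (l, i) * Y i j := by
    intro T j l
    exact congrFun (hZe T j) (some l)
  have hZd : ∀ j l, (Z j l).totalDegree ≤ 1 := by
    intro j l
    rcases l with _ | l
    · simp [hZ]
    · refine (totalDegree_add _ _).trans (max_le (by simp) ?_)
      apply totalDegree_finsetSum_le
      intro i _
      refine (totalDegree_mul _ _).trans ?_
      rw [totalDegree_C, totalDegree_X]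
  have hQ : ∀ a c, a ≠ c → Z a (some l0) ≠ Z c (some l0) := by
    intro a c hne h0
    have h00 := congrArg (eval (fun _ : Fin r × Fin N => (0 : κ))) h0
    rw [hZes, hZes] at h00
    simp only [zero_mul, Finset.sum_const_zero, add_zero] at h00
    have hcol : ∀ i, Y i a = Y i c := by
      intro i
      have h1 := congrArg (eval (fun b : Fin r × Fin N => if b = (l0, i) then (1 : κ) else 0)) h0
      rw [hZes, hZes, h00, add_right_inj] at h1
      rw [Finset.sum_eq_single i, Finset.sum_eq_single i] at h1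
      · simpa using h1
      · intro b _ hb
        rw [if_neg, zero_mul]
        intro h
        exact hb (congrArg Prod.snd h)
      · intro h
        exact absurd (Finset.mem_univ _) h
      · intro b _ hb
        rw [if_neg, zero_mul]
        intro h
        exact hb (congrArg Prod.snd h)
      · intro h
        exact absurd (Finset.mem_univ _) h
    have h2 : Y.det = 0 := Matrix.det_zero_of_column_eq hne hcol
    rw [Matrix.isUnit_iff_isUnit_det, h2] at hYu
    exact not_isUnit_zero hYu
  -- the grid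
  have hgrid : ∀ v, ∃ g : {j // η j = v} → Fin r → Fin k, Function.Injective g := by
    intro v
    have h1 : Nat.card {j // η j = v} ≤ Nat.card (Fin r → Fin k) := by simpa using hfib v
    rw [Nat.card_eq_fintype_card, Nat.card_eq_fintype_card] at h1
    obtain ⟨f⟩ := Function.Embedding.nonempty_of_card_le h1
    exact ⟨f, f.injective⟩
  choose g' hg' using hgrid
  set g : Fin N → Fin r → Fin k := fun j => g' (η j) ⟨j, rfl⟩ with hgdef
  have hg : ∀ a c, η a = η c → g a = g c → a = c := by
    intro a c hη' hgac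
    have h0 : ∀ v (h : η c = v), g c = g' v ⟨c, h⟩ := by
      rintro v rfl
      rfl
    rw [h0 (η a) hη'.symm] at hgac
    have := hg' (η a) hgac
    exact congrArg Subtype.val this
  have hki : Set.InjOn (Nat.cast : ℕ → κ) (Set.Iic k) := hinj.mono (Set.Iic_subset_Iic.2 (by omega))
  set A : Option (Fin r) → Finset κ := fun l => l.elim (Finset.univ.image η)
    (fun _ => (Finset.range k).image (Nat.cast : ℕ → κ)) with hA
  set dd : Option (Fin r) → ℕ := fun l => (A l).card with hdd
  have hdd1 : dd none ≤ d := by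
    have h1 : Set.range η = ((Finset.univ.image η : Finset κ) : Set κ) := by simp
    rw [h1, Set.ncard_coe_finset] at hη
    exact hη
  have hdd2 : ∀ l : Fin r, dd (some l) = k := by
    intro l
    change ((Finset.range k).image (Nat.cast : ℕ → κ)).card = k
    rw [Finset.card_image_of_injOn, Finset.card_range]
    intro a ha b hb hab
    rw [Finset.mem_coe, Finset.mem_range] at ha hb
    exact hki (Set.mem_Iic.2 ha.le) (Set.mem_Iic.2 hb.le) hab
  have hT0 : ∀ i < J, ∃ T0 : Fin r × Fin N → κ,
      Surj (fun j : Fin N × Ex (Option (Fin r)) i => fun l => eval T0 (Z j.1 l))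
      (fun j => opH j.2.1) {a | Finsupp.weight (wO m) a ≤ m * k * i + cO r k m d} := by
    intro i _
    have hsolve : ∀ l : Fin r, ∃ t : Fin N → κ, ∀ j, ∑ i, t i * Y i j = ((g j l : ℕ) : κ) - b l j := by
      intro l
      refine ⟨(fun j => ((g j l : ℕ) : κ) - b l j) ᵥ* Y⁻¹, ?_⟩
      have h1 : ((fun j => ((g j l : ℕ) : κ) - b l j) ᵥ* Y⁻¹) ᵥ* Y = fun j => ((g j l : ℕ) : κ) - b l j := by
        rw [Matrix.vecMul_vecMul, Matrix.nonsing_inv_mul _ ((Matrix.isUnit_iff_isUnit_det _).1 hYu),
          Matrix.vecMul_one]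
      intro j
      exact congrFun h1 j
    choose t ht using hsolve
    refine ⟨fun b => t b.1 b.2, ?_⟩
    have h2 : (fun j : Fin N × Ex (Option (Fin r)) i => fun l => eval (fun b => t b.1 b.2) (Z j.1 l))
        = fun j => (fun (j : Fin N) => ptO (η j) (fun l : Fin r => ((g j l : ℕ) : κ))) j.1 := by
      funext j
      rw [hZe]
      congr 1
      funext l
      rw [ht l j.1]
      ring
    rw [h2]
    have h3 := grid_surj (κ := κ) (σ := Option (Fin r)) (n := N) (wO m) dd (m * k)
      (by
        intro l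
        rcases l with _ | l
        · change 1 * dd none ≤ m * k
          rw [one_mul]
          exact hdd1.trans hdm
        · change m * dd (some l) ≤ m * k
          rw [hdd2]) A (fun l => rfl)
      (fun (j : Fin N) => ptO (η j) (fun l : Fin r => ((g j l : ℕ) : κ))) (by
        intro a c hac
        have h4 : η a = η c := congrFun hac none
        apply hg a c h4
        funext l
        apply Fin.ext
        have h5 : ((g a l : ℕ) : κ) = ((g c l : ℕ) : κ) := congrFun hac (some l)
        exact hki (Set.mem_Iic.2 (g a l).2.le) (Set.mem_Iic.2 (g c l).2.le) h5)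
      (by
        intro j l
        rcases l with _ | l
        · exact Finset.mem_image_of_mem _ (Finset.mem_univ _)
        · exact Finset.mem_image_of_mem _ (Finset.mem_range.2 (g j l).2)) i
    refine Surj_mono _ _ ?_ h3
    intro a ha
    rw [Set.mem_setOf_eq] at ha ⊢
    refine ha.trans ?_
    apply Nat.add_le_add_left
    rw [Fintype.sum_option]
    change 1 * (dd none - 1) + ∑ l : Fin r, m * (dd (some l) - 1) ≤ cO r k m d
    simp only [hdd2, Finset.sum_const, Finset.card_univ, Fintype.card_fin, smul_eq_mul]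
    rw [cO]
    omega
  obtain ⟨T, hT1, hT2, hT3⟩ := exists_T_gen (wO m) (by
    intro l
    rcases l with _ | l
    · exact le_rfl
    · exact hm) (m * k) (cO r k m d) J Z hZd (some l0) hQ hT0
    (hinj.mono (Set.Iic_subset_Iic.2 (by omega)))
  refine ⟨fun l i => T (l, i), fun l i => hT1 _, ?_, ?_⟩
  · intro a c hac
    apply hT2
    change eval _ (Z a (some l0)) = eval _ (Z c (some l0))
    rw [hZes, hZes]
    exact hac
  · intro i hi F
    obtain ⟨G, hG, h⟩ := hT3 i hi F
    refine ⟨G, hG, fun j => ?_⟩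
    have h1 := h j
    rw [hZe] at h1
    exact h1

end choice

end Pool.Agent.L5helper40.NF
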