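import Mathlib
import Pool.Agent.L5helper40.NF.D4
import Pool.Agent.L5helper40.NF.D5
import Pool.Agent.L5helper40.NF.F1

set_option autoImplicit false

namespace Pool.Agent.L5helper40.NF

open MvPolynomial Module NumberField Pool.Agent.W301.Lin Matrix

section gen

variable {σ : Type} [Fintype σ] [DecidableEq σ]

/-- the ideal of a class -/
noncomputable def IcG {n : ℕ} (p : ℕ) [Fact p.Prime] (l0 : σ) (c : σ → Fin n → ZMod p) :
    Ideal (MvPolynomial σ ℤ) := (Je l0 c).comap (rd σ p)

/-- a tuple of integers of the field `L` belongs to the class -/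
def ClsG {n : ℕ} (w : σ → ℕ) (k c J : ℕ) (R : ℝ) (p : ℕ) [Fact p.Prime] (l0 : σ)
    (cc : σ → Fin n → ZMod p) (L : Type) [Field L] [NumberField L] (α : σ → L) : Prop :=
  (∀ l, IsIntegral ℤ (α l)) ∧ (∀ l, house (α l) ≤ R ^ w l) ∧ (minpoly ℚ (α l0)).natDegree = n ∧
  (∀ F ∈ IcG p l0 cc, ∃ u : L, IsIntegral ℤ u ∧ aeval α F = p • u) ∧
  (∀ i < J, ∀ F : MvPolynomial σ ℤ, ∃ G ∈ PZ σ w (k * i + c), F - G ∈ (IcG p l0 cc) ^ (i + 1))

/-- the coordinates of the points in terms of the powers of one coordinate -/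
def Pts {n : ℕ} (p : ℕ) [Fact p.Prime] (κ : Type) [Field κ] [Algebra (ZMod p) κ] (l0 : σ)
    (cc : σ → Fin n → ZMod p) (z : Fin n → σ → κ) : Prop :=
  Function.Injective (fun j => z j l0) ∧
    ∀ l j, (if l = l0 then z j l0 ^ n else z j l) = ∑ e, algebraMap (ZMod p) κ (cc l e) * z j l0 ^ (e : ℕ)

theorem cls_of_good {n : ℕ} (hn0 : 0 < n) (w : σ → ℕ) (k c J : ℕ) (R : ℝ)
    (p : ℕ) [Fact p.Prime] (κ : Type) [Field κ] [Algebra (ZMod p) κ]
    (π : integralClosure ℤ ℂ →+* κ) (L : Type) [Field L] [NumberField L] (hfin : finrank ℚ L = n)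
    (ω : Fin n → 𝓞 L) (δ : ℤ) (hAlm : Alm ω δ) (e : Fin n ≃ (L →+* ℂ))
    (hδ : (δ : ℂ) = (Matrix.of fun k j => e j (ω k : L)).det ^ 2)
    (hp : ¬ (p : ℤ) ∣ δ) (l0 : σ) (α : σ → 𝓞 L)
    (hzinj : Function.Injective fun j => rho π (e j) (α l0))
    (hR : ∀ l, house (α l : L) ≤ R ^ w l)
    (hGP : ∀ i < J, ∀ F : MvPolynomial σ κ, ∃ G ∈ Wd κ w (k * i + c),
        ∀ j, F - G ∈ mI (fun l => rho π (e j) (α l)) ^ (i + 1)) :
    ∃ cc : σ → Fin n → ZMod p, ClsG w k c J R p l0 cc L (fun l => (α l : L)) ∧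
      Pts p κ l0 cc (fun j l => rho π (e j) (α l)) := by
  have hch : CharP κ p := charP_of_injective_algebraMap (algebraMap (ZMod p) κ).injective p
  have hli := li_rho π ω δ e hδ hp
  have hrat := abs_rat (fun j => rho π (e j)) ω δ hAlm hp hli α
  obtain ⟨cc, hc⟩ := Ib_eq_Je l0 hn0 (fun j l => rho π (e j) (α l)) hzinj hrat
  have hI : It p (fun j l => rho π (e j) (α l)) = IcG p l0 cc := by
    rw [It, hc]
    rfl
  refine ⟨cc, ⟨fun l => RingOfIntegers.isIntegral_coe _, hR, ?_, ?_, ?_⟩, hzinj, ?_⟩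
  · apply natDegree_of_inj hfin (fun j => e j)
    intro a b hab
    apply hzinj
    have h1 : emb (e a) (α l0) = emb (e b) (α l0) := Subtype.ext hab
    change π (emb (e a) (α l0)) = π (emb (e b) (α l0))
    rw [h1]
  · intro F hF
    rw [← hI] at hF
    obtain ⟨u, hu⟩ := abs_eval (fun j => rho π (e j)) ω δ hAlm hp hli α F hF
    refine ⟨(u : L), RingOfIntegers.isIntegral_coe _, ?_⟩
    have h1 := congrArg (algebraMap (𝓞 L) L) hu
    rw [map_nsmul] at h1
    rw [← h1]
    exact (MvPolynomial.aeval_algebraMap_apply L α F)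
  · intro i hi F
    rw [← hI]
    apply red_int (fun j l => rho π (e j) (α l)) w k c J _ i hi F
    intro i hi F
    apply red_prime (fun j l => rho π (e j) (α l)) _ hrat i w _ _ F
    · intro a b hab
      exact hzinj (congrFun hab l0)
    · intro F
      exact hGP i hi F
  · intro l j
    have h1 : ((if l = l0 then X l0 ^ n else X l)
        - ∑ e : Fin n, C (cc l e) * X l0 ^ (e : ℕ) : MvPolynomial σ (ZMod p)) ∈ Je l0 cc :=
      Ideal.subset_span ⟨l, rfl⟩
    rw [← hc, mem_Ib] at h1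
    have h2 := h1 j
    rw [map_sub, map_sub, sub_eq_zero, map_sum, map_sum] at h2
    have h3 : eval (fun l => rho π (e j) (α l)) ((io κ σ p) (if l = l0 then X l0 ^ n else X l))
        = (if l = l0 then rho π (e j) (α l0) ^ n else rho π (e j) (α l)) := by
      split_ifs
      · simp
      · simp
    rw [h3] at h2
    rw [h2]
    apply Finset.sum_congr rfl
    intro i _
    simp

/-- the number of monomials in the class bound -/
noncomputable def NG (σ : Type) [Fintype σ] (w : σ → ℕ) (k c q : ℕ) : ℕ :=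
  Nat.card {m : σ →₀ ℕ // Finsupp.weight w m ≤ k * (2 * q * (1 + c) + 1) + c}

lemma IcG_gen {n : ℕ} (p : ℕ) [Fact p.Prime] (l0 l : σ) (hl : l ≠ l0)
    (cc : σ → Fin n → ZMod p) :
    (X l - ∑ e : Fin n, C ((cc l e).val : ℤ) * X l0 ^ (e : ℕ) : MvPolynomial σ ℤ)
      ∈ IcG p l0 cc := by
  rw [IcG, Ideal.mem_comap]
  have h1 : ((if l = l0 then X l0 ^ n else X l)
      - ∑ e : Fin n, C (cc l e) * X l0 ^ (e : ℕ) : MvPolynomial σ (ZMod p)) ∈ Je l0 cc :=
    Ideal.subset_span ⟨l, rfl⟩
  rw [if_neg hl] at h1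
  convert h1 using 1
  rw [map_sub, map_sum]
  congr 1
  · simp
  · apply Finset.sum_congr rfl
    intro e _
    rw [map_mul, map_pow, MvPolynomial.map_X, MvPolynomial.map_C]
    congr 2
    rw [eq_intCast, Int.cast_natCast, ZMod.natCast_zmod_val]

/-- two tuples of a class with the same generator agree -/
lemma cls_unique {n : ℕ} (w : σ → ℕ) (k c J : ℕ) (R : ℝ) (p : ℕ) [Fact p.Prime] (l0 : σ)
    (cc : σ → Fin n → ZMod p) (L : Type) [Field L] [NumberField L] (α α' : σ → L)
    (h : ClsG w k c J R p l0 cc L α) (h' : ClsG w k c J R p l0 cc L α') (h0 : α l0 = α' l0)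
    (hR : ∀ l, 2 * R ^ w l < p) : α = α' := by
  funext l
  by_cases hl : l = l0
  · rw [hl, h0]
  · obtain ⟨u, hu, h1⟩ := h.2.2.2.1 _ (IcG_gen p l0 l hl cc)
    obtain ⟨u', hu', h1'⟩ := h'.2.2.2.1 _ (IcG_gen p l0 l hl cc)
    have h2 : α l - α' l = p • (u - u') := by
      rw [smul_sub, ← h1, ← h1']
      simp only [map_sub, map_sum, map_mul, map_pow, aeval_X, aeval_C, h0]
      ring
    by_contra hne
    have hne' : u - u' ≠ 0 := by
      intro h3
      rw [h3, smul_zero, sub_eq_zero] at h2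
      exact hne h2
    have h3 : 1 ≤ house (u - u') := one_le_house_of_isIntegral (hu.sub hu') hne'
    have h4 : house (α l - α' l) = p * house (u - u') := by
      rw [h2, nsmul_eq_mul, house_nat_mul]
    have h5 : house (α l - α' l) ≤ 2 * R ^ w l := by
      have h6 : house (α l - α' l) ≤ house (α l) + house (α' l) := by
        rw [house, house, house, map_sub]
        exact norm_sub_le _ _
      have h7 := h.2.1 l
      have h8 := h'.2.1 l
      linarith
    have h9 := hR l
    have h10 : (0 : ℝ) < p := by exact_mod_cast (Fact.out : p.Prime).pos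
    nlinarith

variable {Ω : Type} [Field Ω] [CharZero Ω]

/-- the number of pairs consisting of a field and a tuple in a class -/
theorem card_clsG {n : ℕ} (w : σ → ℕ) (hw : ∀ l, w l ≠ 0) (k c J : ℕ) (R : ℝ) (p : ℕ)
    [Fact p.Prime] (l0 : σ) (cc : σ → Fin n → ZMod p) (q : ℕ) (hk : 0 < k) (hn0 : 0 < n)
    (hR : 1 < R) (hpq : R ^ (k * q + 1) ≤ (p : ℝ) ^ q)
    (hJ : w l0 * (n * (2 * NG σ w k c q + 1)) + 1 ≤ J)
    (hRn : ((n * (2 * NG σ w k c q + 1) : ℕ) : ℝ) + 1 ≤ R) (hRp : ∀ l, 2 * R ^ w l < p)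
    (T : Finset (Subfield Ω × (σ → Ω)))
    (hT : ∀ F ∈ T, ∃ _ : NumberField F.1, finrank ℚ F.1 = n ∧
      ∃ α : σ → F.1, (∀ l, (α l : Ω) = F.2 l) ∧ ClsG w k c J R p l0 cc F.1 α) :
    T.card ≤ n * (2 * NG σ w k c q) := by
  classical
  choose hNF hfin α hαF hα using hT
  set g : {F // F ∈ T} → Polynomial ℚ := fun F =>
    @minpoly ℚ F.1.1 _ _ (@DivisionRing.toRatAlgebra _ _ (hNF F.1 F.2).to_charZero) (α F.1 F.2 l0)
    with hg
  have h1 : (Finset.univ.image g).card ≤ 2 * NG σ w k c q := by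
    by_contra hlt
    push Not at hlt
    obtain ⟨S, hS1, hS2⟩ := Finset.exists_subset_card_eq (Nat.succ_le_of_lt hlt)
    have h2 : ∀ P : {P // P ∈ S}, ∃ F : {F // F ∈ T}, g F = P.1 := by
      intro P
      obtain ⟨F, _, hF⟩ := Finset.mem_image.1 (hS1 P.2)
      exact ⟨F, hF⟩
    choose s hs using h2
    have hinst : ∀ i : {P // P ∈ S}, NumberField (s i).1.1 := fun i => hNF (s i).1 (s i).2
    have hcard : Fintype.card {P // P ∈ S} = 2 * NG σ w k c q + 1 := by
      rw [Fintype.card_coe, hS2]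
    have h3 := core (ι := Fin (2 * NG σ w k c q + 1))
      (fun i => (s ((Fintype.equivFinOfCardEq hcard).symm i)).1.1) n
      (fun i => hfin _ (s ((Fintype.equivFinOfCardEq hcard).symm i)).2)
      (fun i => α _ (s ((Fintype.equivFinOfCardEq hcard).symm i)).2)
      (fun i l => (hα _ (s ((Fintype.equivFinOfCardEq hcard).symm i)).2).1 l)
      w hw R hR
      (fun i l => (hα _ (s ((Fintype.equivFinOfCardEq hcard).symm i)).2).2.1 l) l0
      (fun i => (hα _ (s ((Fintype.equivFinOfCardEq hcard).symm i)).2).2.2.1)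
      (fun i j hij h => by
        have e1 := hs ((Fintype.equivFinOfCardEq hcard).symm i)
        have e2 := hs ((Fintype.equivFinOfCardEq hcard).symm j)
        apply hij
        apply (Fintype.equivFinOfCardEq hcard).symm.injective
        apply Subtype.ext
        rw [← e1, ← e2]
        exact h)
      p Fact.out k c q J hpq (IcG p l0 cc)
      (fun F hF i => (hα _ (s ((Fintype.equivFinOfCardEq hcard).symm i)).2).2.2.2.1 F hF)
      (by
        have e0 : 0 < 2 * NG σ w k c q + 1 := Nat.succ_pos _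
        exact (hα _ (s ((Fintype.equivFinOfCardEq hcard).symm ⟨0, e0⟩)).2).2.2.2.2)
      (by omega)
      (by
        rw [Fintype.card_fin]
        have : w l0 * (n * (2 * NG σ w k c q + 1)) ≤ J - 1 := by omega
        calc w l0 * (n * (2 * NG σ w k c q + 1)) ≤ J - 1 := this
          _ ≤ k * (J - 1) := Nat.le_mul_of_pos_left _ hk
          _ ≤ _ := Nat.le_add_right _ _)
      (by rw [Fintype.card_fin]; exact hRn)
    rw [Fintype.card_fin] at h3
    have h4 : 2 * NG σ w k c q + 1 ≤ n * (2 * NG σ w k c q + 1) := Nat.le_mul_of_pos_left _ hn0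
    have h5 : n * (2 * NG σ w k c q + 1) ≤ 2 * NG σ w k c q := h3
    omega
  have h2 : ∀ P ∈ Finset.univ.image g, (Finset.univ.filter fun F => g F = P).card ≤ n := by
    intro P hP
    have h3 : (Finset.univ.filter fun F => g F = P).card ≤ (P.aroots Ω).toFinset.card := by
      apply Finset.card_le_card_of_injOn (fun F => (α F.1 F.2 l0 : Ω))
      · intro F hF
        have hF' : g F = P := (Finset.mem_filter.1 hF).2
        rw [Finset.mem_coe, Multiset.mem_toFinset, Polynomial.mem_aroots]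
        have := hNF F.1 F.2
        have hint : IsIntegral ℚ (α F.1 F.2 l0) := Algebra.IsIntegral.isIntegral _
        have e1 : minpoly ℚ (α F.1 F.2 l0) = P := hF'
        refine ⟨?_, ?_⟩
        · rw [← e1]
          exact minpoly.ne_zero hint
        · have e2 := Polynomial.aeval_algHom_apply (RingHom.equivRatAlgHom F.1.1 Ω F.1.1.subtype)
            (α F.1 F.2 l0) (minpoly ℚ (α F.1 F.2 l0))
          rw [minpoly.aeval, map_zero, e1] at e2
          exact e2
      · intro F hF F' hF' heq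
        have i1 := hNF F.1 F.2
        have i2 := hNF F'.1 F'.2
        have heq' : ((α F.1 F.2 l0 : F.1.1) : Ω) = ((α F'.1 F'.2 l0 : F'.1.1) : Ω) := heq
        have hfst : F.1.1 = F'.1.1 := by
          apply le_antisymm
          · apply le_of_gen F.1.1 F'.1.1 (α F.1 F.2 l0)
            · rw [hfin F.1 F.2]
              exact (hα F.1 F.2).2.2.1
            · rw [heq']
              exact (α F'.1 F'.2 l0).2
          · apply le_of_gen F'.1.1 F.1.1 (α F'.1 F'.2 l0)
            · rw [hfin F'.1 F'.2]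
              exact (hα F'.1 F'.2).2.2.1
            · rw [← heq']
              exact (α F.1 F.2 l0).2
        have key : ∀ (F₁ : Subfield Ω) (_ : NumberField F₁) (_ : F.1.1 = F₁) (β : σ → F₁),
            ClsG w k c J R p l0 cc F₁ β → ((α F.1 F.2 l0 : F.1.1) : Ω) = ((β l0 : F₁) : Ω) →
            ∀ l, ((α F.1 F.2 l : F.1.1) : Ω) = ((β l : F₁) : Ω) := by
          intro F₁ hF₁ hEq β hβ hβ0 l
          subst hEq
          have h5 := cls_unique w k c J R p l0 cc F.1.1 (α F.1 F.2) β (hα F.1 F.2) hβ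
            (Subtype.ext hβ0) hRp
          rw [h5]
        have hsnd := key F'.1.1 i2 hfst (α F'.1 F'.2) (hα F'.1 F'.2) heq'
        apply Subtype.ext
        apply Prod.ext hfst
        funext l
        rw [← hαF F.1 F.2 l, ← hαF F'.1 F'.2 l]
        exact hsnd l
    refine h3.trans ((Multiset.toFinset_card_le _).trans ?_)
    refine (Polynomial.card_roots' _).trans (Polynomial.natDegree_map_le.trans ?_)
    obtain ⟨F, _, hF⟩ := Finset.mem_image.1 hP
    rw [← hF]
    exact (hα F.1 F.2).2.2.1.le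
  have h3 := Finset.card_le_mul_card_image (f := g) Finset.univ n (fun P hP => h2 P hP)
  rw [Finset.card_univ, Fintype.card_coe] at h3
  exact h3.trans (Nat.mul_le_mul_left _ h1)

end gen

end Pool.Agent.L5helper40.NF
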