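import Mathlib
import Pool.Agent.L5helper40.NF.F2

set_option autoImplicit false

namespace Pool.Agent.L5helper40.NF

open Module Matrix

section classes

variable {κ : Type} [Field κ]

/-- the roots of a monic polynomial with distinct roots -/
lemma mem_range_of_roots {N : ℕ} (a : Fin N → κ) (ξ ξ' : Fin N → κ) (hξ' : Function.Injective ξ')
    (h : ∀ j, ξ j ^ N = ∑ e, a e * ξ j ^ (e : ℕ)) (h' : ∀ j, ξ' j ^ N = ∑ e, a e * ξ' j ^ (e : ℕ))
    (j : Fin N) : ∃ j', ξ' j' = ξ j := by
  classical
  set P : Polynomial κ := Polynomial.X ^ N - ∑ e : Fin N, Polynomial.C (a e) * Polynomial.X ^ (e : ℕ)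
    with hP
  have hlt : (∑ e : Fin N, Polynomial.C (a e) * Polynomial.X ^ (e : ℕ)).degree < (N : WithBot ℕ) :=
    Polynomial.degree_sum_fin_lt _
  have hP0 : P ≠ 0 := by
    intro h0
    rw [hP, sub_eq_zero] at h0
    rw [← h0, Polynomial.degree_X_pow] at hlt
    exact lt_irrefl _ hlt
  have hPd : P.natDegree ≤ N := by
    rw [Polynomial.natDegree_le_iff_degree_le, hP]
    refine (Polynomial.degree_sub_le _ _).trans (max_le ?_ hlt.le)
    rw [Polynomial.degree_X_pow]
  have hroot : ∀ x : κ, x ^ N = ∑ e, a e * x ^ (e : ℕ) → x ∈ P.roots.toFinset := by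
    intro x hx
    rw [Multiset.mem_toFinset, Polynomial.mem_roots hP0, Polynomial.IsRoot.def, hP,
      Polynomial.eval_sub, Polynomial.eval_pow, Polynomial.eval_X, hx, Polynomial.eval_finsetSum,
      sub_eq_zero]
    apply Finset.sum_congr rfl
    intro e _
    simp
  have hcard : P.roots.toFinset.card ≤ N :=
    (Multiset.toFinset_card_le _).trans ((Polynomial.card_roots' _).trans hPd)
  have hsub : Finset.univ.image ξ' ⊆ P.roots.toFinset := by
    intro x hx
    obtain ⟨j, _, rfl⟩ := Finset.mem_image.1 hx
    exact hroot _ (h' j)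
  have heq : Finset.univ.image ξ' = P.roots.toFinset := by
    apply Finset.eq_of_subset_of_card_le hsub
    rw [Finset.card_image_of_injective _ hξ', Finset.card_univ, Fintype.card_fin]
    exact hcard
  have h1 := hroot _ (h j)
  rw [← heq] at h1
  obtain ⟨j', _, hj'⟩ := Finset.mem_image.1 h1
  exact ⟨j', hj'⟩

theorem card_classes {ρ : Type} [Fintype ρ] [DecidableEq ρ] {N : ℕ} (p : ℕ) [Fact p.Prime]
    [Algebra (ZMod p) κ] (l0 : ρ) (G : Finset κ) (S : Finset (Option ρ → Fin N → ZMod p))
    (hS : ∀ cc ∈ S, ∃ z : Fin N → Option ρ → κ, Pts p κ (some l0) cc z ∧ ∀ j, z j none ∈ G) :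
    S.card ≤ G.card ^ N * p ^ (Fintype.card ρ * N) := by
  classical
  set f : (Option ρ → Fin N → ZMod p) → (ρ → Fin N → ZMod p) := fun cc l => cc (some l) with hf
  have hfib : ∀ c0 ∈ S.image f, (S.filter fun cc => f cc = c0).card ≤ G.card ^ N := by
    intro c0 hc0
    obtain ⟨cc1, hcc1, hfc⟩ := Finset.mem_image.1 hc0
    obtain ⟨z1, hz1, -⟩ := hS cc1 hcc1
    -- the value of the last coordinate
    set val : (Option ρ → Fin N → ZMod p) → Fin N → κ := fun cc j =>
      ∑ e, algebraMap (ZMod p) κ (cc none e) * z1 j (some l0) ^ (e : ℕ) with hval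
    have hroot1 : ∀ j, z1 j (some l0) ^ N
        = ∑ e, algebraMap (ZMod p) κ (c0 l0 e) * z1 j (some l0) ^ (e : ℕ) := by
      intro j
      have := hz1.2 (some l0) j
      rw [if_pos rfl] at this
      rw [this, ← hfc]
    have hmem : ∀ cc ∈ S.filter (fun cc => f cc = c0), ∀ j, val cc j ∈ G := by
      intro cc hcc j
      obtain ⟨hcS, hfcc⟩ := Finset.mem_filter.1 hcc
      obtain ⟨z, hz, hzG⟩ := hS cc hcS
      have hroot : ∀ j, z j (some l0) ^ N
          = ∑ e, algebraMap (ZMod p) κ (c0 l0 e) * z j (some l0) ^ (e : ℕ) := by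
        intro j
        have := hz.2 (some l0) j
        rw [if_pos rfl] at this
        rw [this, ← hfcc]
      obtain ⟨j', hj'⟩ := mem_range_of_roots _ (fun j => z1 j (some l0)) (fun j => z j (some l0))
        hz.1 hroot1 hroot j
      have h1 := hz.2 none j'
      rw [if_neg (by simp)] at h1
      have h2 : val cc j = z j' none := by
        rw [h1, hval]
        simp only at hj' ⊢
        rw [hj']
      rw [h2]
      exact hzG j'
    have hcard := Finset.card_le_card_of_injOn (s := S.filter (fun cc => f cc = c0))
      (t := Fintype.piFinset (fun _ : Fin N => G)) val (by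
        intro cc hcc
        rw [Finset.mem_coe, Fintype.mem_piFinset]
        exact hmem cc hcc) (by
        intro cc hcc cc' hcc' heq
        obtain ⟨-, hfcc⟩ := Finset.mem_filter.1 hcc
        obtain ⟨-, hfcc'⟩ := Finset.mem_filter.1 hcc'
        have hV : IsUnit (Matrix.vandermonde fun j => z1 j (some l0)) := by
          rw [Matrix.isUnit_iff_isUnit_det]
          exact Ne.isUnit (Matrix.det_vandermonde_ne_zero_iff.2 hz1.1)
        have h1 : (Matrix.vandermonde fun j => z1 j (some l0)) *ᵥ
            (fun e => algebraMap (ZMod p) κ (cc none e) - algebraMap (ZMod p) κ (cc' none e)) = 0 := by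
          funext j
          have h2 := congrFun heq j
          rw [hval] at h2
          simp only at h2
          rw [← sub_eq_zero, ← Finset.sum_sub_distrib] at h2
          rw [Pi.zero_apply, ← h2]
          simp only [Matrix.mulVec, dotProduct, Matrix.vandermonde_apply]
          apply Finset.sum_congr rfl
          intro e _
          ring
        have h2 : (fun e => algebraMap (ZMod p) κ (cc none e) - algebraMap (ZMod p) κ (cc' none e)) = 0 := by
          have h3 := congrArg (fun v => (Matrix.vandermonde fun j => z1 j (some l0))⁻¹ *ᵥ v) h1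
          simp only [Matrix.mulVec_mulVec, Matrix.mulVec_zero] at h3
          rw [Matrix.nonsing_inv_mul _ ((Matrix.isUnit_iff_isUnit_det _).1 hV), Matrix.one_mulVec] at h3
          exact h3
        funext l
        rcases l with _ | l
        · funext e
          have h3 := congrFun h2 e
          simp only [Pi.zero_apply, sub_eq_zero] at h3
          exact (algebraMap (ZMod p) κ).injective h3
        · have h3 : f cc l = f cc' l := by rw [hfcc, hfcc']
          exact h3)
    refine hcard.trans (le_of_eq ?_)
    rw [Fintype.card_piFinset]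
    simp
  have h3 := Finset.card_le_mul_card_image (f := f) S _ hfib
  refine h3.trans (Nat.mul_le_mul_left _ ?_)
  refine (Finset.card_le_univ _).trans (le_of_eq ?_)
  rw [Fintype.card_fun, Fintype.card_fun, ZMod.card, Fintype.card_fin, ← pow_mul, mul_comm]

end classes

end Pool.Agent.L5helper40.NF
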