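import Mathlib
import Pool.Agent.L5helper40.NF.F3

set_option autoImplicit false

namespace Pool.Agent.L5helper40.NF

open MvPolynomial Module NumberField Pool.Agent.W301.Lin Matrix

section tuples

/-- the bound for the coefficients -/
noncomputable def BO (N k r m d J : ℕ) : ℕ :=
  Bd (Option (Fin r)) N (m * k) (cO r k m d) J + N * N

variable {N : ℕ} (k r m d J : ℕ) (hm : 1 ≤ m) (hN0 : 0 < N) (l0 : Fin r)
  (p : ℕ) [Fact p.Prime] (κ : Type) [Field κ] [Algebra (ZMod p) κ]
  (π : integralClosure ℤ ℂ →+* κ) (hpB : BO N k r m d J + k < p)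
  (L : Type) [Field L] [NumberField L] (hfin : finrank ℚ L = N)
  (ω : Fin N → 𝓞 L) (δ : ℤ) (hAlm : Alm ω δ) (e : Fin N ≃ (L →+* ℂ))
  (hδ : (δ : ℂ) = (Matrix.of fun k j => e j (ω k : L)).det ^ 2) (hp : ¬ (p : ℤ) ∣ δ)
  (θ : 𝓞 L) (hfib : ∀ v : κ, Nat.card {j // rho π (e j) θ = v} ≤ k ^ r)
  (hrange : (Set.range fun j => rho π (e j) θ).ncard ≤ d) (hdm : d ≤ m * k)
  (H1 R : ℝ) (hH : ∀ i, house (ω i : L) ≤ H1)
  (hR : H1 + N * BO N k r m d J * H1 ≤ R ^ m) (hθ : house (θ : L) ≤ R)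

include hm hN0 hpB hfin hAlm hδ hp hfib hrange hdm hH hR hθ

theorem tuples_field (β : Fin r → 𝓞 L) (hβ : ∀ l, house (β l : L) ≤ H1) :
    ∃ T : Fin r → Fin N → ℕ, (∀ l i, T l i ≤ BO N k r m d J) ∧
      ∃ cc : Option (Fin r) → Fin N → ZMod p,
        ClsG (wO m) (m * k) (cO r k m d) J R p (some l0) cc L
          (fun l => ((ptO θ (fun l => β l + ∑ i, (T l i : 𝓞 L) * ω i) l : 𝓞 L) : L)) ∧
        Pts p κ (some l0) cc
          (fun j l => rho π (e j) (ptO θ (fun l => β l + ∑ i, (T l i : 𝓞 L) * ω i) l)) := by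
  classical
  have hch : CharP κ p := charP_of_injective_algebraMap (algebraMap (ZMod p) κ).injective p
  have hli := li_rho π ω δ e hδ hp
  set Y : Matrix (Fin N) (Fin N) κ := Matrix.of fun i j => rho π (e j) (ω i) with hY
  have hinj : Set.InjOn (Nat.cast : ℕ → κ)
      (Set.Iic (Bd (Option (Fin r)) N (m * k) (cO r k m d) J + N * N + k)) := by
    apply (CharP.natCast_injOn_Iio κ p).mono
    intro x hx
    exact Set.mem_Iio.2 (lt_of_le_of_lt (Set.mem_Iic.1 hx) hpB)
  obtain ⟨T, hT1, hT2, hT3⟩ := exists_T_B k r m d J hm l0 Y hli (fun l j => rho π (e j) (β l))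
    (fun j => rho π (e j) θ) hfib hrange hdm hinj
  refine ⟨T, hT1, ?_⟩
  set α : Option (Fin r) → 𝓞 L := ptO θ (fun l => β l + ∑ i, (T l i : 𝓞 L) * ω i) with hα
  have hzs : ∀ j l, rho π (e j) (α (some l)) = rho π (e j) (β l) + ∑ i, (T l i : κ) * Y i j := by
    intro j l
    change rho π (e j) (β l + ∑ i, (T l i : 𝓞 L) * ω i) = _
    rw [map_add, map_sum]
    congr 1
    apply Finset.sum_congr rfl
    intro i _
    rw [map_mul, map_natCast]
    rfl
  have hz : ∀ j, (fun l => rho π (e j) (α l)) = ptO (rho π (e j) θ)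
      (fun l => rho π (e j) (β l) + ∑ i, (T l i : κ) * Y i j) := by
    intro j
    funext l
    rcases l with _ | l
    · rfl
    · exact hzs j l
  apply cls_of_good hN0 (wO m) (m * k) (cO r k m d) J R p κ π L hfin ω δ hAlm e hδ hp (some l0) α
  · have : (fun j => rho π (e j) (α (some l0))) = fun j => rho π (e j) (β l0) + ∑ i, (T l0 i : κ) * Y i j := by
      funext j
      exact hzs j l0
    rw [this]
    exact hT2
  · intro l
    rcases l with _ | l
    · change house (θ : L) ≤ R ^ 1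
      rw [pow_one]
      exact hθ
    · change house (((β l + ∑ i, (T l i : 𝓞 L) * ω i) : 𝓞 L) : L) ≤ R ^ m
      have h1 : (((β l + ∑ i, (T l i : 𝓞 L) * ω i) : 𝓞 L) : L)
          = (β l : L) + ∑ i, (T l i : L) * (ω i : L) := by simp
      rw [h1]
      refine (house_add_le _ _).trans (le_trans ?_ hR)
      exact add_le_add (hβ l) (house_comb_le (fun i => (ω i : L)) (T l) _ H1 (hT1 l) hH)
  · intro i hi F
    obtain ⟨G, hG, hFG⟩ := hT3 i hi F
    refine ⟨G, hG, fun j => ?_⟩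
    rw [hz j]
    exact hFG j

theorem many_tuples (Ball : Finset (𝓞 L)) (hBall : ∀ β ∈ Ball, house (β : L) ≤ H1) :
    ∃ A : Finset (Option (Fin r) → 𝓞 L),
      (∀ a ∈ A, a none = θ ∧ ∃ cc : Option (Fin r) → Fin N → ZMod p,
        ClsG (wO m) (m * k) (cO r k m d) J R p (some l0) cc L (fun l => (a l : L)) ∧
        Pts p κ (some l0) cc (fun j l => rho π (e j) (a l))) ∧
      Ball.card ^ r ≤ A.card * (BO N k r m d J + 1) ^ (r * N) := by
  classical
  have h := fun β : Fin r → 𝓞 L => tuples_field k r m d J hm hN0 l0 p κ π hpB L hfin ω δ hAlm e hδ hp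
    θ hfib hrange hdm H1 R hH hR hθ β
  have h' : ∀ β : Fin r → 𝓞 L, ∃ T : Fin r → Fin N → Fin (BO N k r m d J + 1),
      (∀ l, house (β l : L) ≤ H1) → ∃ cc : Option (Fin r) → Fin N → ZMod p,
        ClsG (wO m) (m * k) (cO r k m d) J R p (some l0) cc L
          (fun l => ((ptO θ (fun l => β l + ∑ i, ((T l i : ℕ) : 𝓞 L) * ω i) l : 𝓞 L) : L)) ∧
        Pts p κ (some l0) cc
          (fun j l => rho π (e j) (ptO θ (fun l => β l + ∑ i, ((T l i : ℕ) : 𝓞 L) * ω i) l)) := by
    intro β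
    by_cases hβ : ∀ l, house (β l : L) ≤ H1
    · obtain ⟨T, hT, hcc⟩ := h β hβ
      exact ⟨fun l i => ⟨T l i, Nat.lt_succ_of_le (hT l i)⟩, fun _ => hcc⟩
    · exact ⟨fun _ _ => 0, fun h => absurd h hβ⟩
  choose T hT using h'
  set Φ : (Fin r → 𝓞 L) → Option (Fin r) → 𝓞 L := fun β =>
    ptO θ (fun l => β l + ∑ i, ((T β l i : ℕ) : 𝓞 L) * ω i) with hΦ
  refine ⟨(Fintype.piFinset fun _ : Fin r => Ball).image Φ, ?_, ?_⟩
  · intro a ha
    obtain ⟨β, hβ, rfl⟩ := Finset.mem_image.1 ha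
    rw [Fintype.mem_piFinset] at hβ
    exact ⟨rfl, hT β fun l => hBall _ (hβ l)⟩
  · have h1 : (Fintype.piFinset fun _ : Fin r => Ball).card ≤
        ((Fintype.piFinset fun _ : Fin r => Ball).image Φ ×ˢ
          (Finset.univ : Finset (Fin r → Fin N → Fin (BO N k r m d J + 1)))).card := by
      apply Finset.card_le_card_of_injOn (fun β => (Φ β, T β))
      · intro β hβ
        rw [Finset.mem_coe, Finset.mem_product]
        exact ⟨Finset.mem_image_of_mem _ hβ, Finset.mem_univ _⟩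
      · intro β _ β' _ hEq
        have e1 : Φ β = Φ β' := congrArg Prod.fst hEq
        have e2 : T β = T β' := congrArg Prod.snd hEq
        funext l
        have e3 : β l + ∑ i, ((T β l i : ℕ) : 𝓞 L) * ω i = β' l + ∑ i, ((T β' l i : ℕ) : 𝓞 L) * ω i :=
          congrFun e1 (some l)
        rw [e2] at e3
        exact add_right_cancel e3
    rw [Fintype.card_piFinset, Finset.prod_const, Finset.card_univ, Fintype.card_fin,
      Finset.card_product, Finset.card_univ, Fintype.card_fun, Fintype.card_fun, Fintype.card_fin,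
      Fintype.card_fin, Fintype.card_fin, ← pow_mul, mul_comm N r] at h1
    exact h1

end tuples

end Pool.Agent.L5helper40.NF
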