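import Mathlib
import Pool.Agent.L5helper40.NF.F4
import Pool.Agent.L5helper40.NF.D6

set_option autoImplicit false

namespace Pool.Agent.L5helper40.NF

open Module NumberField Pool.Agent.W301.Lin

section pairs

/-- the pair consisting of a field and a tuple has a class at the prime `p` -/
def InPair {Ω : Type} [Field Ω] [CharZero Ω] (N r m k c J : ℕ) (R : ℝ) (l0 : Fin r) (p : ℕ)
    [Fact p.Prime] (κ : Type) [Field κ] [Algebra (ZMod p) κ] (G : Finset κ)
    (P : Subfield Ω × (Option (Fin r) → Ω)) : Prop :=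
  ∃ _ : NumberField P.1, finrank ℚ P.1 = N ∧ ∃ α : Option (Fin r) → P.1,
    (∀ l, (α l : Ω) = P.2 l) ∧ ∃ cc : Option (Fin r) → Fin N → ZMod p,
      ClsG (wO m) k c J R p (some l0) cc P.1 α ∧
      ∃ z : Fin N → Option (Fin r) → κ, Pts p κ (some l0) cc z ∧ ∀ j, z j none ∈ G

theorem card_pairs {Ω : Type} [Field Ω] [CharZero Ω] (N r m k c J : ℕ) (R : ℝ) (l0 : Fin r) (p : ℕ)
    [Fact p.Prime] (κ : Type) [Field κ] [Algebra (ZMod p) κ] (G : Finset κ) (q : ℕ)
    (hm : 1 ≤ m) (hk : 0 < k) (hN0 : 0 < N)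
    (hR : 1 < R) (hpq : R ^ (k * q + 1) ≤ (p : ℝ) ^ q)
    (hJ : m * (N * (2 * NG (Option (Fin r)) (wO m) k c q + 1)) + 1 ≤ J)
    (hRn : ((N * (2 * NG (Option (Fin r)) (wO m) k c q + 1) : ℕ) : ℝ) + 1 ≤ R)
    (hRp : 2 * R ^ m < p)
    (T : Finset (Subfield Ω × (Option (Fin r) → Ω)))
    (hT : ∀ P ∈ T, InPair N r m k c J R l0 p κ G P) :
    T.card ≤ N * (2 * NG (Option (Fin r)) (wO m) k c q) * (G.card ^ N * p ^ (r * N)) := by
  classical
  have hT' : ∀ P : {P // P ∈ T}, ∃ cc : Option (Fin r) → Fin N → ZMod p,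
      (∃ _ : NumberField P.1.1, finrank ℚ P.1.1 = N ∧ ∃ α : Option (Fin r) → P.1.1,
        (∀ l, (α l : Ω) = P.1.2 l) ∧ ClsG (wO m) k c J R p (some l0) cc P.1.1 α) ∧
      ∃ z : Fin N → Option (Fin r) → κ, Pts p κ (some l0) cc z ∧ ∀ j, z j none ∈ G := by
    intro P
    obtain ⟨h1, h2, α, h3, cc, h4, h5⟩ := hT P.1 P.2
    exact ⟨cc, ⟨h1, h2, α, h3, h4⟩, h5⟩
  choose g hg1 hg2 using hT'
  have h2 : ∀ cc ∈ Finset.univ.image g, (Finset.univ.filter fun P => g P = cc).card
      ≤ N * (2 * NG (Option (Fin r)) (wO m) k c q) := by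
    intro cc _
    have h3 := card_clsG (Ω := Ω) (n := N) (wO m) (by
        intro l
        rcases l with _ | l
        · exact one_ne_zero
        · change m ≠ 0
          omega) k c J R p (some l0) cc q hk hN0 hR hpq hJ hRn (by
        intro l
        rcases l with _ | l
        · change 2 * R ^ 1 < p
          refine lt_of_le_of_lt ?_ hRp
          have : R ^ 1 ≤ R ^ m := pow_le_pow_right₀ hR.le hm
          linarith
        · exact hRp)
      ((Finset.univ.filter fun P => g P = cc).map ⟨Subtype.val, Subtype.val_injective⟩) (by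
        intro F hF
        rw [Finset.mem_map] at hF
        obtain ⟨F', hF', rfl⟩ := hF
        have e1 : g F' = cc := (Finset.mem_filter.1 hF').2
        rw [← e1]
        exact hg1 F')
    rwa [Finset.card_map] at h3
  have h3 := Finset.card_le_mul_card_image (f := g) Finset.univ _ (fun P hP => h2 P hP)
  rw [Finset.card_univ, Fintype.card_coe] at h3
  refine h3.trans (Nat.mul_le_mul_left _ ?_)
  have h4 := card_classes (ρ := Fin r) p l0 G (Finset.univ.image g) (by
    intro cc hcc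
    obtain ⟨P, _, rfl⟩ := Finset.mem_image.1 hcc
    exact hg2 P)
  rwa [Fintype.card_fin] at h4

/-- a nonzero algebraic integer divides a nonzero integer -/
lemma exists_int_multiple (u : integralClosure ℤ ℂ) (hu : u ≠ 0) :
    ∃ ν : ℤ, ν ≠ 0 ∧ u ∣ (ν : integralClosure ℤ ℂ) := by
  have h1 := Ideal.comap_ne_bot_of_integral_mem (R := ℤ) (I := Ideal.span {u}) hu
    (Ideal.mem_span_singleton_self u) (Algebra.IsIntegral.isIntegral u)
  obtain ⟨ν, hν1, hν2⟩ := Submodule.exists_mem_ne_zero_of_ne_bot h1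
  refine ⟨ν, hν2, ?_⟩
  rw [Ideal.mem_comap, Ideal.mem_span_singleton] at hν1
  simpa using hν1

/-- large primes separate the elements of a finite set -/
lemma exists_sep (Rt : Finset (integralClosure ℤ ℂ)) :
    ∃ V : ℕ, ∀ (p : ℕ) [Fact p.Prime] (κ : Type) [Field κ] [Algebra (ZMod p) κ]
      (π : integralClosure ℤ ℂ →+* κ), V < p → Set.InjOn π Rt := by
  classical
  have h : ∀ x : integralClosure ℤ ℂ × integralClosure ℤ ℂ, ∃ ν : ℤ, x.1 ≠ x.2 →
      (ν ≠ 0 ∧ (x.1 - x.2) ∣ (ν : integralClosure ℤ ℂ)) := by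
    intro x
    by_cases hx : x.1 = x.2
    · exact ⟨0, fun h => absurd hx h⟩
    · obtain ⟨ν, h1, h2⟩ := exists_int_multiple (x.1 - x.2) (sub_ne_zero.2 hx)
      exact ⟨ν, fun _ => ⟨h1, h2⟩⟩
  choose ν hν using h
  refine ⟨∑ x ∈ Rt ×ˢ Rt, (ν x).natAbs, ?_⟩
  intro p _ κ _ _ π hV a ha b hb hab
  by_contra hne
  have hch : CharP κ p := charP_of_injective_algebraMap (algebraMap (ZMod p) κ).injective p
  obtain ⟨h1, h2⟩ := hν (a, b) hne
  obtain ⟨y, hy⟩ := h2
  have h3 : ((ν (a, b) : ℤ) : κ) = 0 := by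
    have := congrArg π hy
    rw [map_intCast, map_mul, map_sub, hab, sub_self, zero_mul] at this
    exact this
  have h4 := (CharP.intCast_eq_zero_iff κ p _).1 h3
  have h5 : (ν (a, b)).natAbs ≤ ∑ x ∈ Rt ×ˢ Rt, (ν x).natAbs :=
    Finset.single_le_sum (f := fun x => (ν x).natAbs) (fun _ _ => Nat.zero_le _)
      (Finset.mem_product.2 ⟨ha, hb⟩)
  have h6 := Int.natAbs_dvd_natAbs.2 h4
  have h7 := Nat.le_of_dvd (Int.natAbs_pos.2 h1) h6
  simp only [Int.natAbs_natCast] at h7
  omega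

/-- the number of integers of bounded house -/
lemma ball_card (L : Type) [Field L] [NumberField L] (N : ℕ) (hfin : finrank ℚ L = N) (H1 : ℝ)
    (hH1 : 0 ≤ H1) :
    ∃ Ball : Finset (𝓞 L), (∀ β ∈ Ball, house (β : L) ≤ H1) ∧
      (H1 / 2) ^ N ≤ Ball.card * √|(discr L : ℝ)| := by
  classical
  set s := (finite_small L H1).toFinset with hs
  have hinj : Function.Injective (fun x : 𝓞 L => (x : L)) := RingOfIntegers.coe_injective
  refine ⟨s.preimage (fun x : 𝓞 L => (x : L)) hinj.injOn, ?_, ?_⟩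
  · intro β hβ
    rw [Finset.mem_preimage, hs, Set.Finite.mem_toFinset] at hβ
    exact hβ.2
  · have h1 := le_card_small L H1 hH1 s (by
      intro x h1 h2
      rw [hs, Set.Finite.mem_toFinset]
      exact ⟨h1, h2⟩)
    rw [hfin] at h1
    refine h1.trans ?_
    apply mul_le_mul_of_nonneg_right _ (Real.sqrt_nonneg _)
    have h2 : s.card ≤ (s.preimage (fun x : 𝓞 L => (x : L)) hinj.injOn).card := by
      have h3 : s = (s.preimage (fun x : 𝓞 L => (x : L)) hinj.injOn).image (fun x : 𝓞 L => (x : L)) := by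
        ext x
        rw [Finset.mem_image]
        constructor
        · intro hx
          have hx' := hx
          rw [hs, Set.Finite.mem_toFinset] at hx'
          exact ⟨⟨x, hx'.1⟩, Finset.mem_preimage.2 hx, rfl⟩
        · rintro ⟨y, hy, rfl⟩
          exact Finset.mem_preimage.1 hy
      conv_lhs => rw [h3]
      exact Finset.card_image_le
    exact_mod_cast h2

end pairs

end Pool.Agent.L5helper40.NF
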