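import Mathlib
import Pool.Agent.L5helper40.NF.F5

set_option autoImplicit false

namespace Pool.Agent.L5helper40.NF

open Module NumberField Pool.Agent.W301.Lin

section main

/-- the data of a field of the family -/
def Fam (N k r m : ℕ) (Rt : Finset (integralClosure ℤ ℂ)) (h0 : ℕ) (X H : ℝ) {Ω : Type} [Field Ω]
    [CharZero Ω] (F : Subfield Ω) : Prop :=
  ∃ _ : NumberField F, finrank ℚ F = N ∧ |(discr F : ℝ)| ≤ X ∧
    (∃ ω : Fin N → 𝓞 F, LinearIndependent ℚ (fun i => (ω i : F)) ∧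
      ∀ i, house (ω i : F) ≤ H ^ m) ∧
    ∃ θ : 𝓞 F, house (θ : F) ≤ h0 ∧ (∀ ψ : F →+* ℂ, emb ψ θ ∈ Rt) ∧
      ∀ x, Nat.card {ψ : F →+* ℂ // emb ψ θ = x} ≤ k ^ r

theorem count_main (N k r m q : ℕ) (hk : 0 < k) (hN0 : 0 < N) (hr : 0 < r)
    (hq : 0 < q) (hm : 1 ≤ m) (Rt : Finset (integralClosure ℤ ℂ)) (hRt : Rt.card ≤ m * k) (h0 : ℕ) :
    ∃ C : ℝ, 0 < C ∧ ∀ (Ω : Type) [Field Ω] [CharZero Ω] (X H : ℝ), 1 ≤ X → 1 ≤ H →
      ∀ T : Finset (Subfield Ω), (∀ F ∈ T, Fam N k r m Rt h0 X H F) →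
      (T.card : ℝ) * (H ^ m) ^ (N * r) ≤
        C * (√X) ^ r * (H ^ (((m * k : ℕ) : ℝ) + 1 / q)) ^ (r * N) := by
  classical
  obtain ⟨V, hV⟩ := exists_sep Rt
  set d : ℕ := m * k with hd
  set k' : ℕ := m * k with hk'
  have hk'0 : 0 < k' := Nat.mul_pos hm hk
  set NN : ℕ := NG (Option (Fin r)) (wO m) k' (cO r k m d) q with hNN
  set J : ℕ := m * (N * (2 * NN + 1)) + 1 with hJ
  set B : ℕ := BO N k r m d J with hB
  set A0 : ℕ := 1 + N * B + N * (2 * NN + 1) + B + k + N + 2 ^ (q + 1) + V + h0 with hA0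
  set E : ℝ := (k' : ℝ) + 1 / q with hE
  have hqR : (0 : ℝ) < q := by exact_mod_cast hq
  have hE1 : 1 ≤ E := by
    have h1 : (1 : ℝ) ≤ k' := by exact_mod_cast hk'0
    have h2 : (0 : ℝ) < 1 / q := by positivity
    rw [hE]; linarith
  have hE0 : 0 ≤ E := by linarith
  have hEq : E * q = (k' * q + 1 : ℕ) := by
    rw [hE]
    push_cast
    field_simp
  have h2q : 4 ≤ 2 ^ (q + 1) := by
    calc 4 = 2 ^ 2 := by norm_num
      _ ≤ 2 ^ (q + 1) := Nat.pow_le_pow_right (by norm_num) (by omega)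
  refine ⟨2 ^ (N * r) * ((B : ℝ) + 1) ^ (r * N) * (((2 * N + 1 : ℕ) : ℝ) *
    ((((N * (2 * NN) : ℕ) : ℝ) + 1) * (((Rt.card ^ N : ℕ) : ℝ) + 1))) *
    (2 ^ (2 * N + 1) * 2 * (A0 : ℝ) ^ E) ^ (r * N), by positivity, ?_⟩
  intro Ω _ _ X H hX hH T hT
  set R : ℝ := A0 * H with hRdef
  have hA0R : (A0 : ℝ) ≤ R := by
    rw [hRdef]
    exact le_mul_of_one_le_right (Nat.cast_nonneg _) hH
  have hA2 : (2 : ℝ) ^ (q + 1) ≤ A0 := by
    have : 2 ^ (q + 1) ≤ A0 := by rw [hA0]; omega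
    exact_mod_cast this
  have h2q' : (4 : ℝ) ≤ 2 ^ (q + 1) := by exact_mod_cast h2q
  have hR1 : 1 < R := by linarith
  have hR0 : 0 < R := by linarith
  have hRn : ((N * (2 * NN + 1) : ℕ) : ℝ) + 1 ≤ R := by
    have : N * (2 * NN + 1) + 1 ≤ A0 := by rw [hA0]; omega
    have h2 : ((N * (2 * NN + 1) + 1 : ℕ) : ℝ) ≤ A0 := by exact_mod_cast this
    push_cast at h2 ⊢
    linarith
  set Y : ℕ := ⌈R ^ E⌉₊ with hY
  have hRE : R ≤ R ^ E := by
    calc R = R ^ (1 : ℝ) := (Real.rpow_one R).symm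
      _ ≤ R ^ E := Real.rpow_le_rpow_of_exponent_le hR1.le hE1
  have hYR : R ^ E ≤ Y := Nat.le_ceil _
  have hY0 : 0 < Y := by
    rw [hY, Nat.ceil_pos]
    linarith
  have hY2 : (Y : ℝ) ≤ 2 * R ^ E := by
    have := (Nat.ceil_lt_add_one (a := R ^ E) (by linarith)).le
    linarith
  obtain ⟨P, hP1, hP2, hP3, hP4⟩ := exists_primes Y (2 * N + 1) hY0
  have hfact : ∀ i, Fact (P i).Prime := fun i => ⟨hP1 i⟩
  have hPY : ∀ i, R ^ E ≤ P i := by
    intro i
    have : (Y : ℝ) ≤ P i := by exact_mod_cast (hP3 i).le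
    linarith
  have hpq : ∀ i, R ^ (k' * q + 1) ≤ (P i : ℝ) ^ q := by
    intro i
    have h1 : R ^ (k' * q + 1) = (R ^ E) ^ q := by
      rw [← Real.rpow_natCast (R ^ E) q, ← Real.rpow_mul hR0.le, hEq, Real.rpow_natCast]
    rw [h1]
    exact pow_le_pow_left₀ (Real.rpow_nonneg hR0.le _) (hPY i) _
  have hRp : ∀ i, 2 * R ^ m < P i := by
    intro i
    have h1 : (2 * R ^ m) ^ q < (P i : ℝ) ^ q := by
      calc (2 * R ^ m) ^ q = 2 ^ q * R ^ (m * q) := by rw [mul_pow, ← pow_mul]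
        _ < R * R ^ (m * q) := by
          apply mul_lt_mul_of_pos_right _ (by positivity)
          have h3 : (2 : ℝ) ^ q < 2 ^ (q + 1) := pow_lt_pow_right₀ (by norm_num) (Nat.lt_succ_self q)
          linarith
        _ ≤ R * R ^ (k' * q) := by
          apply mul_le_mul_of_nonneg_left _ hR0.le
          apply pow_le_pow_right₀ hR1.le
          apply Nat.mul_le_mul_right
          rw [hk']
          exact Nat.le_mul_of_pos_right _ hk
        _ = R ^ (k' * q + 1) := by rw [pow_succ, mul_comm]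
        _ ≤ _ := hpq i
    exact lt_of_pow_lt_pow_left₀ q (Nat.cast_nonneg _) h1
  have hPA : ∀ i, A0 < P i := by
    intro i
    have h2 : (A0 : ℝ) ≤ Y := by linarith
    have h3 : A0 ≤ Y := by exact_mod_cast h2
    exact lt_of_le_of_lt h3 (hP3 i)
  -- the residue fields
  have hres : ∀ i, ∃ (κ : Type) (_ : Field κ) (_ : Algebra (ZMod (P i)) κ),
      Nonempty (integralClosure ℤ ℂ →+* κ) := fun i => exists_residue ℂ (P i)
  choose κ iF iA hπ using hres
  have hπ' : ∀ i, ∃ _π : integralClosure ℤ ℂ →+* κ i, True := fun i => by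
    obtain ⟨π⟩ := hπ i
    exact ⟨π, trivial⟩
  choose π _ using hπ'
  set G : ∀ i, Finset (κ i) := fun i => Rt.image (π i) with hG
  have hGc : ∀ i, (G i).card ≤ Rt.card := fun i => Finset.card_image_le
  have l0 : Fin r := ⟨0, hr⟩
  -- many pairs for every field
  have key : ∀ F ∈ T, ∃ i : Fin (2 * N + 1), ∃ Q : Finset (Subfield Ω × (Option (Fin r) → Ω)),
      (∀ S ∈ Q, S.1 = F ∧ InPair N r m k' (cO r k m d) J R l0 (P i) (κ i) (G i) S) ∧
      (H ^ m) ^ (N * r) ≤ Q.card * (2 ^ (N * r) * ((B : ℝ) + 1) ^ (r * N) * (√X) ^ r) := by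
    intro F hF
    obtain ⟨hNF, hfin, hdisc, ⟨ω, hω, hωH⟩, θ, hθ, hθR, hθf⟩ := hT F hF
    have hHm : 1 ≤ H ^ m := one_le_pow₀ hH
    obtain ⟨δ, hδ0, hδb, hAlm, hδe⟩ := exists_delta hfin ω hω (H ^ m) (by linarith) hωH
    obtain ⟨i, hi⟩ := exists_not_dvd (2 * N + 1) P hP1 hP2 (R ^ m) (pow_pos hR0 m)
      (fun i => by
        have := hRp i
        have h0 : 0 < R ^ m := pow_pos hR0 m
        linarith) δ hδ0 (by
      have h1 : (N : ℝ) ≤ A0 := by
        have : N ≤ A0 := by rw [hA0]; omega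
        exact_mod_cast this
      have hA1 : (1 : ℝ) ≤ A0 := by linarith
      have h2 : ((N.factorial : ℕ) : ℝ) ≤ (N : ℝ) ^ N := by exact_mod_cast Nat.factorial_le_pow N
      have hnH : (N : ℝ) * H ^ m ≤ R ^ m := by
        rw [hRdef, mul_pow]
        apply mul_le_mul_of_nonneg_right _ (by positivity)
        exact h1.trans (le_self_pow₀ hA1 (by omega))
      have hRm1 : 1 < R ^ m := one_lt_pow₀ hR1 (by omega)
      calc |(δ : ℝ)| ≤ N.factorial * (N * (H ^ m * H ^ m)) ^ N := hδb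
        _ ≤ (N : ℝ) ^ N * (N * (H ^ m * H ^ m)) ^ N := by gcongr
        _ = (N * H ^ m) ^ (2 * N) := by
          rw [← mul_pow, pow_mul]
          congr 1
          ring
        _ ≤ (R ^ m) ^ (2 * N) := by
          apply pow_le_pow_left₀ (by positivity) hnH
        _ < (R ^ m) ^ (2 * N + 1) := pow_lt_pow_right₀ hRm1 (Nat.lt_succ_self _))
    refine ⟨i, ?_⟩
    have hcard : Fintype.card (Fin N) = Fintype.card (F →+* ℂ) := by
      rw [Embeddings.card, hfin, Fintype.card_fin]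
    let e : Fin N ≃ (F →+* ℂ) := Fintype.equivOfCardEq hcard
    have hVP : V < P i := lt_of_le_of_lt (by rw [hA0]; omega) (hPA i)
    have hinjπ := hV (P i) (κ i) (π i) hVP
    have hval : ∀ j, rho (π i) (e j) θ ∈ G i := by
      intro j
      rw [hG]
      exact Finset.mem_image_of_mem _ (hθR (e j))
    have hfib : ∀ v : κ i, Nat.card {j // rho (π i) (e j) θ = v} ≤ k ^ r := by
      intro v
      by_cases hne : Nonempty {j // rho (π i) (e j) θ = v}
      · obtain ⟨j0, hj0⟩ := hne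
        refine le_trans ?_ (hθf (emb (e j0) θ))
        apply Nat.card_le_card_of_injective (fun j : {j // rho (π i) (e j) θ = v} =>
          (⟨e j.1, by
            apply hinjπ (hθR (e j.1)) (hθR (e j0))
            have h1 := j.2
            exact h1.trans hj0.symm⟩ : {ψ : F →+* ℂ // emb ψ θ = emb (e j0) θ}))
        intro j j' hjj
        apply Subtype.ext
        apply e.injective
        exact congrArg Subtype.val hjj
      · have : IsEmpty {j // rho (π i) (e j) θ = v} := not_nonempty_iff.1 hne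
        rw [Nat.card_of_isEmpty]
        exact Nat.zero_le _
    have hrange : (Set.range fun j => rho (π i) (e j) θ).ncard ≤ d := by
      refine le_trans ?_ ((hGc i).trans hRt)
      rw [← Set.ncard_coe_finset]
      apply Set.ncard_le_ncard _ (Finset.finite_toSet _)
      rintro _ ⟨j, rfl⟩
      exact hval j
    obtain ⟨Ball, hBall, hBc⟩ := ball_card F N hfin (H ^ m) (by linarith)
    have hpB : BO N k r m d J + k < P i := lt_of_le_of_lt (by rw [hA0]; omega) (hPA i)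
    have hRB : H ^ m + N * (BO N k r m d J : ℝ) * H ^ m ≤ R ^ m := by
      rw [hRdef, mul_pow]
      have h1 : (1 : ℝ) + N * B ≤ A0 := by
        have : 1 + N * B ≤ A0 := by rw [hA0]; omega
        exact_mod_cast this
      have hA1 : (1 : ℝ) ≤ A0 := by linarith
      have h2 : (A0 : ℝ) ≤ A0 ^ m := le_self_pow₀ hA1 (by omega)
      calc H ^ m + N * (BO N k r m d J : ℝ) * H ^ m = (1 + N * B) * H ^ m := by rw [hB]; ring
        _ ≤ (A0 : ℝ) ^ m * H ^ m := by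
          apply mul_le_mul_of_nonneg_right _ (by linarith)
          linarith
    have hθR' : house (θ : F) ≤ R := by
      refine hθ.trans (le_trans ?_ hA0R)
      have : h0 ≤ A0 := by rw [hA0]; omega
      exact_mod_cast this
    obtain ⟨A, hA1, hA2'⟩ := many_tuples k r m d J hm hN0 l0 (P i) (κ i) (π i) hpB F hfin ω δ hAlm e
      (hδe ℂ e) hi θ hfib hrange le_rfl (H ^ m) R hωH hRB hθR' Ball hBall
    have hinjA : Function.Injective (fun a : Option (Fin r) → 𝓞 F =>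
        ((F, fun l => ((a l : F) : Ω)) : Subfield Ω × (Option (Fin r) → Ω))) := by
      intro a b hab
      have h1 := congrArg Prod.snd hab
      funext l
      have h2 := congrFun h1 l
      exact RingOfIntegers.coe_injective (Subtype.coe_injective h2)
    refine ⟨A.map ⟨_, hinjA⟩, ?_, ?_⟩
    · intro S hS
      obtain ⟨a, ha, rfl⟩ := Finset.mem_map.1 hS
      obtain ⟨ha0, cc, hcc, hpts⟩ := hA1 a ha
      refine ⟨rfl, hNF, hfin, fun l => (a l : F), fun l => rfl, cc, hcc, _, hpts, ?_⟩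
      intro j
      rw [ha0]
      exact hval j
    · rw [Finset.card_map]
      have h1 : (H ^ m / 2) ^ N ≤ Ball.card * √X := by
        refine hBc.trans ?_
        apply mul_le_mul_of_nonneg_left _ (Nat.cast_nonneg _)
        exact Real.sqrt_le_sqrt hdisc
      have h2 : ((H ^ m / 2) ^ N) ^ r ≤ (Ball.card * √X) ^ r :=
        pow_le_pow_left₀ (by positivity) h1 r
      have h3 : (Ball.card : ℝ) ^ r ≤ A.card * ((B : ℝ) + 1) ^ (r * N) := by
        exact_mod_cast hA2'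
      calc (H ^ m) ^ (N * r) = 2 ^ (N * r) * ((H ^ m / 2) ^ N) ^ r := by
            have h4 : ((H ^ m / 2) ^ N) ^ r = (H ^ m / 2) ^ (N * r) := (pow_mul _ _ _).symm
            rw [h4, ← mul_pow]
            congr 1
            ring
        _ ≤ 2 ^ (N * r) * (Ball.card * √X) ^ r := by gcongr
        _ = 2 ^ (N * r) * ((Ball.card : ℝ) ^ r * √X ^ r) := by rw [mul_pow]
        _ ≤ 2 ^ (N * r) * ((A.card * ((B : ℝ) + 1) ^ (r * N)) * √X ^ r) := by gcongr
        _ = _ := by ring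
  -- the pairs
  choose! ix Q hQ1 hQ2 using key
  have hdisj : ∀ F ∈ T, ∀ F' ∈ T, F ≠ F' → Disjoint (Q F) (Q F') := by
    intro F hF F' hF' hne
    rw [Finset.disjoint_left]
    intro S hS hS'
    apply hne
    rw [← (hQ1 F hF S hS).1, ← (hQ1 F' hF' S hS').1]
  set PP : Finset (Subfield Ω × (Option (Fin r) → Ω)) := T.biUnion Q with hPP
  have hPPc : PP.card = ∑ F ∈ T, (Q F).card := Finset.card_biUnion hdisj
  have hlow : (T.card : ℝ) * (H ^ m) ^ (N * r) ≤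
      PP.card * (2 ^ (N * r) * ((B : ℝ) + 1) ^ (r * N) * (√X) ^ r) := by
    rw [hPPc]
    push_cast
    rw [Finset.sum_mul]
    calc (T.card : ℝ) * (H ^ m) ^ (N * r) = ∑ _F ∈ T, (H ^ m) ^ (N * r) := by simp
      _ ≤ _ := Finset.sum_le_sum fun F hF => hQ2 F hF
  have hcov : PP ⊆ Finset.univ.biUnion (fun i : Fin (2 * N + 1) =>
      (T.filter fun F => ix F = i).biUnion Q) := by
    intro S hS
    obtain ⟨F, hF, hSF⟩ := Finset.mem_biUnion.1 hS
    rw [Finset.mem_biUnion]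
    exact ⟨ix F, Finset.mem_univ _, Finset.mem_biUnion.2 ⟨F, Finset.mem_filter.2 ⟨hF, rfl⟩, hSF⟩⟩
  have hbound : ∀ i : Fin (2 * N + 1), ((T.filter fun F => ix F = i).biUnion Q).card ≤
      N * (2 * NN) * (Rt.card ^ N * (2 ^ (2 * N + 1) * Y) ^ (r * N)) := by
    intro i
    refine (card_pairs (Ω := Ω) N r m k' (cO r k m d) J R l0 (P i) (κ i) (G i) q hm hk'0 hN0 hR1
      (hpq i) le_rfl hRn (hRp i) _ ?_).trans ?_
    · intro S hS
      obtain ⟨F, hF, hSF⟩ := Finset.mem_biUnion.1 hS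
      obtain ⟨hFT, hix⟩ := Finset.mem_filter.1 hF
      rw [← hix]
      exact (hQ1 F hFT S hSF).2
    · apply Nat.mul_le_mul_left
      apply Nat.mul_le_mul
      · exact Nat.pow_le_pow_left (hGc i) _
      · exact Nat.pow_le_pow_left (hP4 i) _
  have hfinal : PP.card ≤ (2 * N + 1) * (N * (2 * NN) * (Rt.card ^ N * (2 ^ (2 * N + 1) * Y) ^ (r * N))) := by
    refine ((Finset.card_le_card hcov).trans Finset.card_biUnion_le).trans
      ((Finset.sum_le_sum fun i _ => hbound i).trans (le_of_eq ?_))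
    simp
  have hfinal' : (PP.card : ℝ) ≤ ((2 * N + 1 : ℕ) : ℝ) * (((N * (2 * NN) : ℕ) : ℝ) *
      (((Rt.card ^ N : ℕ) : ℝ) * (2 ^ (2 * N + 1) * (Y : ℝ)) ^ (r * N))) := by
    exact_mod_cast hfinal
  have h6 : R ^ E = (A0 : ℝ) ^ E * H ^ E := by
    rw [hRdef, Real.mul_rpow (Nat.cast_nonneg _) (by linarith)]
  have hup : (PP.card : ℝ) ≤ (((2 * N + 1 : ℕ) : ℝ) *
    ((((N * (2 * NN) : ℕ) : ℝ) + 1) * (((Rt.card ^ N : ℕ) : ℝ) + 1))) *
    ((2 ^ (2 * N + 1) * 2 * (A0 : ℝ) ^ E) ^ (r * N) * (H ^ E) ^ (r * N)) := by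
    refine hfinal'.trans ?_
    have h7 : (2 ^ (2 * N + 1) * (Y : ℝ)) ^ (r * N) ≤
        (2 ^ (2 * N + 1) * 2 * (A0 : ℝ) ^ E) ^ (r * N) * (H ^ E) ^ (r * N) := by
      rw [← mul_pow]
      apply pow_le_pow_left₀ (by positivity)
      calc 2 ^ (2 * N + 1) * (Y : ℝ) ≤ 2 ^ (2 * N + 1) * (2 * R ^ E) := by gcongr
        _ = _ := by rw [h6]; ring
    have h8 : (0 : ℝ) ≤ (2 ^ (2 * N + 1) * (Y : ℝ)) ^ (r * N) := by positivity
    have h9 : (0 : ℝ) ≤ ((N * (2 * NN) : ℕ) : ℝ) := Nat.cast_nonneg _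
    have h10 : (0 : ℝ) ≤ ((Rt.card ^ N : ℕ) : ℝ) := Nat.cast_nonneg _
    calc ((2 * N + 1 : ℕ) : ℝ) * (((N * (2 * NN) : ℕ) : ℝ) *
      (((Rt.card ^ N : ℕ) : ℝ) * (2 ^ (2 * N + 1) * (Y : ℝ)) ^ (r * N)))
        = (((2 * N + 1 : ℕ) : ℝ) * (((N * (2 * NN) : ℕ) : ℝ) *
      ((Rt.card ^ N : ℕ) : ℝ))) * (2 ^ (2 * N + 1) * (Y : ℝ)) ^ (r * N) := by ring
      _ ≤ (((2 * N + 1 : ℕ) : ℝ) *
    ((((N * (2 * NN) : ℕ) : ℝ) + 1) * (((Rt.card ^ N : ℕ) : ℝ) + 1))) *
    ((2 ^ (2 * N + 1) * 2 * (A0 : ℝ) ^ E) ^ (r * N) * (H ^ E) ^ (r * N)) := by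
        apply mul_le_mul _ h7 h8 (by positivity)
        apply mul_le_mul_of_nonneg_left _ (Nat.cast_nonneg _)
        apply mul_le_mul <;> linarith
  refine hlow.trans ?_
  calc (PP.card : ℝ) * (2 ^ (N * r) * ((B : ℝ) + 1) ^ (r * N) * (√X) ^ r)
      ≤ ((((2 * N + 1 : ℕ) : ℝ) *
    ((((N * (2 * NN) : ℕ) : ℝ) + 1) * (((Rt.card ^ N : ℕ) : ℝ) + 1))) *
    ((2 ^ (2 * N + 1) * 2 * (A0 : ℝ) ^ E) ^ (r * N) * (H ^ E) ^ (r * N))) *
      (2 ^ (N * r) * ((B : ℝ) + 1) ^ (r * N) * (√X) ^ r) :=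
        mul_le_mul_of_nonneg_right hup (by positivity)
    _ = _ := by ring

end main

end Pool.Agent.L5helper40.NF
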