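import Mathlib
import Pool.Agent.L5helper40.NF.F6
import Pool.Agent.L5helper40.NF.E2

set_option autoImplicit false

namespace Pool.Agent.L5helper40.NF

open Module NumberField Pool.Agent.W301.Lin

/-- the family with bounded discriminants -/
def FamD (N k r : ℕ) (Rt : Finset (integralClosure ℤ ℂ)) (h0 : ℕ) (X : ℝ) {Ω : Type} [Field Ω]
    [CharZero Ω] (F : Subfield Ω) : Prop :=
  ∃ _ : NumberField F, finrank ℚ F = N ∧ |(discr F : ℝ)| ≤ X ∧
    ∃ θ : 𝓞 F, house (θ : F) ≤ h0 ∧ (∀ ψ : F →+* ℂ, emb ψ θ ∈ Rt) ∧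
      ∀ x, Nat.card {ψ : F →+* ℂ // emb ψ θ = x} ≤ k ^ r

theorem count_disc2 (N k r : ℕ) (hk : 0 < k) (hN0 : 0 < N) (hr : 0 < r)
    (Rt : Finset (integralClosure ℤ ℂ)) (h0 : ℕ) (ε : ℝ) (hε : 0 < ε) :
    ∃ C : ℝ, 0 < C ∧ ∀ (Ω : Type) [Field Ω] [CharZero Ω] (X : ℝ), 1 ≤ X →
      ∀ T : Finset (Subfield Ω), (∀ F ∈ T, FamD N k r Rt h0 X F) →
      (T.card : ℝ) ≤ C * X ^ (((k : ℝ) - 1 / 2) * r + ε) := by
  classical
  have hk1 : (1 : ℝ) ≤ k := by exact_mod_cast hk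
  obtain ⟨q, s, hq, hs, hle⟩ := exists_params ((k : ℝ) - 1) r ε (by linarith) (Nat.cast_nonneg _) hε
  set m : ℕ := Rt.card + 1 with hm
  have hm1 : 1 ≤ m := by omega
  have hRt : Rt.card ≤ m * k := by
    calc Rt.card ≤ m := by omega
      _ ≤ m * k := Nat.le_mul_of_pos_right _ hk
  obtain ⟨C, hC, hcount⟩ := count_main N k r m q hk hN0 hr hq hm1 Rt hRt h0
  have hms : 2 ≤ m * s := by nlinarith
  set C0 : ℝ := 36 ^ N * 3 ^ (N * (m * s + 1)) + 1 with hC0
  have hC0p : 1 ≤ C0 := by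
    rw [hC0]
    have : (0 : ℝ) < 36 ^ N * 3 ^ (N * (m * s + 1)) := by positivity
    linarith
  have hNR : (0 : ℝ) < N := by exact_mod_cast hN0
  have hmR : (0 : ℝ) < m := by exact_mod_cast hm1
  have hsR : (2 : ℝ) ≤ s := by exact_mod_cast hs
  have hqR : (0 : ℝ) < q := by exact_mod_cast hq
  have hrR : (0 : ℝ) < r := by exact_mod_cast hr
  have hmsR : (2 : ℝ) ≤ m * s := by exact_mod_cast hms
  have hm1R : (1 : ℝ) ≤ m := by exact_mod_cast hm1
  set e1 : ℝ := s * (((m : ℝ) * (k - 1) + 1 / q) * r) / (m * s - 1) with he1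
  have he1le : e1 ≤ ((k : ℝ) - 1) * r + ε := by
    refine le_trans ?_ hle
    have h1 : e1 = (m * s / (m * s - 1)) * (((k : ℝ) - 1 + 1 / (q * m)) * r) := by
      rw [he1]
      field_simp
    rw [h1]
    have h2 : (m * s / (m * s - 1) : ℝ) ≤ s / (s - 1) := by
      rw [div_le_div_iff₀ (by linarith) (by linarith)]
      nlinarith
    have h3 : (1 : ℝ) / (q * m) ≤ 1 / q := by
      apply one_div_le_one_div_of_le hqR
      nlinarith
    have h4 : (0 : ℝ) ≤ (k - 1 + 1 / (q * m)) * r := by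
      have : (0 : ℝ) < 1 / (q * m) := by positivity
      apply mul_nonneg _ hrR.le
      linarith
    have h5 : (0 : ℝ) ≤ s / (s - 1) := div_nonneg (by linarith) (by linarith)
    apply mul_le_mul h2 _ h4 h5
    apply mul_le_mul_of_nonneg_right _ hrR.le
    linarith
  have he10 : 0 ≤ e1 := by
    rw [he1]
    apply div_nonneg
    · have : (0 : ℝ) ≤ m * (k - 1) := mul_nonneg hmR.le (by linarith)
      positivity
    · linarith
  refine ⟨C * C0 ^ e1, by positivity, ?_⟩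
  intro Ω _ _ X hX T hT
  set M : ℝ := (C0 * X) ^ ((1 : ℝ) / (N * (m * s - 1) : ℝ)) with hM
  have hCX : 1 ≤ C0 * X := by nlinarith
  have hM1 : 1 ≤ M := Real.one_le_rpow hCX (by
    apply div_nonneg zero_le_one
    apply mul_nonneg hNR.le
    linarith)
  have hms1 : (0 : ℝ) < (m : ℝ) * s - 1 := by linarith
  have hMp : M ^ (N * (m * s - 1)) = C0 * X := by
    rw [hM, ← Real.rpow_natCast, ← Real.rpow_mul (by linarith)]
    have : (1 : ℝ) / (N * (m * s - 1) : ℝ) * ((N * (m * s - 1) : ℕ) : ℝ) = 1 := by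
      push_cast [Nat.cast_sub (by omega : 1 ≤ m * s)]
      field_simp
    rw [this, Real.rpow_one]
  set H : ℝ := M ^ s with hH
  have hH1 : 1 ≤ H := one_le_pow₀ hM1
  have hHm : H ^ m = M ^ (m * s) := by rw [hH, ← pow_mul, mul_comm]
  have h1 := hcount Ω X H hX hH1 T (by
    intro F hF
    obtain ⟨hNF, hfin, hdisc, hθ⟩ := hT F hF
    refine ⟨hNF, hfin, hdisc, ?_, hθ⟩
    rw [hHm]
    apply small_basis F N hfin (m * s) hms M hM1
    rw [hMp]
    have h2 : (0 : ℝ) < 36 ^ N * 3 ^ (N * (m * s + 1)) := by positivity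
    calc 36 ^ N * 3 ^ (N * (m * s + 1)) * |(discr F : ℝ)|
        ≤ 36 ^ N * 3 ^ (N * (m * s + 1)) * X := by gcongr
      _ < C0 * X := by rw [hC0]; nlinarith)
  have hH0 : 0 < H := by linarith
  have hX0 : 0 < X := by linarith
  -- the exponents
  have e2 : (H ^ (((m * k : ℕ) : ℝ) + 1 / q)) ^ (r * N) = (H ^ m) ^ (N * r) * (C0 * X) ^ e1 := by
    have e3 : (C0 * X) ^ e1 = H ^ (((m : ℝ) * (k - 1) + 1 / q) * (r * N)) := by
      rw [hH, hM, ← Real.rpow_natCast _ s, ← Real.rpow_mul (by linarith),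
        ← Real.rpow_mul (by linarith)]
      congr 1
      rw [he1]
      field_simp
    rw [e3, ← Real.rpow_natCast, ← Real.rpow_mul hH0.le, ← pow_mul, ← Real.rpow_natCast H,
      ← Real.rpow_add hH0]
    congr 1
    push_cast
    ring
  have e4 : (√X) ^ r = X ^ ((r : ℝ) / 2) := by
    rw [Real.sqrt_eq_rpow, ← Real.rpow_natCast, ← Real.rpow_mul hX0.le]
    congr 1
    ring
  rw [e2, e4] at h1
  have h5 : (0 : ℝ) < (H ^ m) ^ (N * r) := by positivity
  have h6 : (T.card : ℝ) ≤ C * X ^ ((r : ℝ) / 2) * (C0 * X) ^ e1 := by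
    have h7 : (T.card : ℝ) * (H ^ m) ^ (N * r) ≤
        (C * X ^ ((r : ℝ) / 2) * (C0 * X) ^ e1) * (H ^ m) ^ (N * r) := by
      refine h1.trans (le_of_eq ?_)
      ring
    exact le_of_mul_le_mul_right h7 h5
  refine h6.trans ?_
  rw [Real.mul_rpow (by linarith) hX0.le]
  calc C * X ^ ((r : ℝ) / 2) * (C0 ^ e1 * X ^ e1) = C * C0 ^ e1 * X ^ ((r : ℝ) / 2 + e1) := by
        rw [Real.rpow_add hX0]; ring
    _ ≤ C * C0 ^ e1 * X ^ (((k : ℝ) - 1 / 2) * r + ε) := by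
      apply mul_le_mul_of_nonneg_left _ (by positivity)
      apply Real.rpow_le_rpow_of_exponent_le hX
      linarith

end Pool.Agent.L5helper40.NF
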