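import Mathlib
import Pool.Agent.L5helper40.NF.F7

set_option autoImplicit false

namespace Pool.Agent.L5helper40.NF

open Module NumberField Pool.Agent.W301.Lin

/-- an integer which separates the embeddings -/
lemma exists_sep_int (K : Type) [Field K] [NumberField K] :
    ∃ θ : 𝓞 K, ∀ τ τ' : K →+* ℂ, τ (θ : K) = τ' (θ : K) → τ = τ' := by
  let pb := Field.powerBasisOfFiniteOfSeparable ℚ K
  have halg : IsAlgebraic ℤ pb.gen :=
    (IsFractionRing.isAlgebraic_iff ℤ ℚ K).2 (Algebra.IsAlgebraic.isAlgebraic _)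
  obtain ⟨y, hy0, hy⟩ := halg.exists_integral_multiple
  refine ⟨⟨y • pb.gen, hy⟩, ?_⟩
  intro τ τ' h
  have h1 : τ (y • pb.gen) = τ' (y • pb.gen) := h
  rw [map_zsmul, map_zsmul, zsmul_eq_mul, zsmul_eq_mul] at h1
  have h2 : τ pb.gen = τ' pb.gen := by
    have hy' : ((y : ℤ) : ℂ) ≠ 0 := by exact_mod_cast hy0
    exact mul_left_cancel₀ hy' h1
  have h3 : RingHom.equivRatAlgHom K ℂ τ = RingHom.equivRatAlgHom K ℂ τ' := pb.algHom_ext h2
  exact (RingHom.equivRatAlgHom K ℂ).injective h3

theorem count_FS2 (K : Type) [Field K] [NumberField K] (n k r : ℕ) (hk : 0 < k) (hn0 : 0 < n)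
    (hr : 0 < r) (hN : n ≤ k ^ r) (ε : ℝ) (hε : 0 < ε) :
    ∃ C : ℝ, 0 < C ∧ ∀ X : ℝ, 1 ≤ X →
      (FS K n X).Finite ∧ ((FS K n X).ncard : ℝ) ≤ C * X ^ (((k : ℝ) - 1 / 2) * r + ε) := by
  classical
  obtain ⟨θ0, hθ0⟩ := exists_sep_int K
  set Rt : Finset (integralClosure ℤ ℂ) := (Finset.univ : Finset (K →+* ℂ)).image (fun τ => emb τ θ0)
    with hRt
  obtain ⟨h0, hh0⟩ := exists_nat_ge (house (θ0 : K))
  set d := finrank ℚ K with hd
  have hd0 : 0 < d := Module.finrank_pos
  obtain ⟨C, hC, hcount⟩ := count_disc2 (n * d) k r hk (Nat.mul_pos hn0 hd0) hr Rt h0 ε hε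
  refine ⟨C, hC, ?_⟩
  intro X hX
  have key : ∀ T : Finset (IntermediateField K (AlgebraicClosure K)), (T : Set _) ⊆ FS K n X →
      (T.card : ℝ) ≤ C * X ^ (((k : ℝ) - 1 / 2) * r + ε) := by
    intro T hT
    have hinj : Function.Injective (IntermediateField.toSubfield (K := K) (L := AlgebraicClosure K)) :=
      IntermediateField.toSubfield_injective
    have h1 := hcount (AlgebraicClosure K) X hX (T.map ⟨_, hinj⟩) (by
      intro F hF
      obtain ⟨L, hL, rfl⟩ := Finset.mem_map.1 hF
      obtain ⟨hfin, hNF, hdisc⟩ := hT hL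
      let e : L ≃+* L.toSubfield :=
        { toFun := fun x => ⟨x.1, x.2⟩
          invFun := fun x => ⟨x.1, x.2⟩
          left_inv := fun _ => rfl
          right_inv := fun _ => rfl
          map_mul' := fun _ _ => rfl
          map_add' := fun _ _ => rfl }
      have hNF' : NumberField L.toSubfield := NumberField.of_ringEquiv L L.toSubfield e
      have hFD : FiniteDimensional K L := Module.Finite.of_restrictScalars_finite ℚ K L
      let ι : K →+* L.toSubfield := (e : L →+* L.toSubfield).comp (algebraMap K L)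
      let θ : 𝓞 L.toSubfield := ⟨ι θ0, (θ0.2 : IsIntegral ℤ (θ0 : K)).map ι.toIntAlgHom⟩
      have hemb : ∀ ψ : L.toSubfield →+* ℂ, emb ψ θ = emb (ψ.comp ι) θ0 := fun ψ => rfl
      refine ⟨hNF', ?_, ?_, θ, ?_, ?_, ?_⟩
      · have h2 : finrank ℚ L = n * d := by
          rw [hd, ← hfin, mul_comm]
          exact (Module.finrank_mul_finrank ℚ K L).symm
        have h3 := (RingEquiv.toRatAlgEquiv e).toLinearEquiv.finrank_eq
        rw [← h2]
        exact h3.symm
      · have h4 := NumberField.discr_eq_discr_of_ringEquiv L e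
        change |((discr L.toSubfield : ℤ) : ℝ)| ≤ X
        rw [← h4, ← Int.cast_abs]
        exact hdisc
      · refine le_trans ?_ hh0
        rw [house, canonicalEmbedding.norm_le_iff]
        intro φ
        exact norm_embedding_le_house (θ0 : K) (φ.comp ι)
      · intro ψ
        rw [hemb, hRt]
        exact Finset.mem_image_of_mem _ (Finset.mem_univ _)
      · intro x
        by_cases hne : Nonempty {ψ : L.toSubfield →+* ℂ // emb ψ θ = x}
        · obtain ⟨ψ0, hψ0⟩ := hne
          let _ := (ψ0.comp ι).toAlgebra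
          refine le_trans ?_ hN
          rw [← hfin, ← AlgHom.card K L ℂ, ← Nat.card_eq_fintype_card]
          have hcomp : ∀ ψ : {ψ : L.toSubfield →+* ℂ // emb ψ θ = x}, ψ.1.comp ι = ψ0.comp ι := by
            intro ψ
            apply hθ0
            have h5 : emb (ψ.1.comp ι) θ0 = emb (ψ0.comp ι) θ0 := by
              rw [← hemb, ← hemb, ψ.2, hψ0]
            exact congrArg Subtype.val h5
          apply Nat.card_le_card_of_injective (fun ψ : {ψ : L.toSubfield →+* ℂ // emb ψ θ = x} =>
            ({ toRingHom := ψ.1.comp (e : L →+* L.toSubfield)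
               commutes' := fun a => RingHom.congr_fun (hcomp ψ) a } : L →ₐ[K] ℂ))
          intro ψ ψ' h
          apply Subtype.ext
          ext y
          have h6 := congrArg (fun f : L →ₐ[K] ℂ => f (e.symm y)) h
          exact h6
        · have : IsEmpty {ψ : L.toSubfield →+* ℂ // emb ψ θ = x} := not_nonempty_iff.1 hne
          rw [Nat.card_of_isEmpty]
          exact Nat.zero_le _)
    rw [Finset.card_map] at h1
    exact h1
  have hfinite : (FS K n X).Finite := by
    by_contra hinf
    obtain ⟨B, hB⟩ := exists_nat_gt (C * X ^ (((k : ℝ) - 1 / 2) * r + ε))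
    obtain ⟨T, hT1, hT2⟩ := Set.Infinite.exists_subset_card_eq (s := FS K n X) hinf B
    have h1 := key T hT1
    rw [hT2] at h1
    linarith
  refine ⟨hfinite, ?_⟩
  rw [Set.ncard_eq_toFinset_card _ hfinite]
  exact key _ (by simp)

end Pool.Agent.L5helper40.NF
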